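import Pool.Agent.R425.P.Al

/-!
# A class that is locally trivial over a totally complex field, positive discriminant
-/

set_option autoImplicit false
set_option linter.all false

open NumberField IsDedekindDomain WithZero WeierstrassCurve WeierstrassCurve.Affine
open scoped NNReal Classical

namespace Pool.Agent.K4H53.BSR

open Pool.Agent.TH115.GD
open Pool.Agent.TeamU (SU su_fg su_rank index_sq)
open Pool.Agent.Y710.CV (Cond cond1 cond2)
open Pool.Agent.Y702.G (sh base pts)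
open Pool.Agent.R425 (lz exists_data Ev exists_cls sq_of_triv)
open Pool.Agent.R425.G Pool.Agent.R425.P

section good2

variable {W : WeierstrassCurve ℤ} {A : Type} [Field A] [NumberField A] {θ : A}

theorem cond_good0 (h : CF (sh W) A θ) (hW : W.Δ ≠ 0) {z : A} (hz0 : z ≠ 0) {r : ℚ} (hr : Algebra.norm ℚ z = r ^ 2)
    (hz : ∀ u : HeightOneSpectrum (𝓞 A), ((2 * W.Δ : ℤ) : 𝓞 A) ∉ u.asIdeal →
      u.valuation A z = 1)
    {K : Type} [Field K] [NumberField K] (v : HeightOneSpectrum (𝓞 K))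
    (hv : ((2 * W.Δ : ℤ) : 𝓞 K) ∉ v.asIdeal) :
    Cond (v.adicCompletion K) (AlgebraicClosure (v.adicCompletion K)) (sh W) θ z := by
  haveI : CharZero (v.adicCompletion K) := algebraRat.charZero _
  haveI : IsGalois (v.adicCompletion K) (AlgebraicClosure (v.adicCompletion K)) := inferInstance
  haveI : CharZero (AlgebraicClosure (v.adicCompletion K)) := algebraRat.charZero _
  obtain ⟨w, hw1, hw2, hw3, hw4, hw5⟩ := exists_data v
  obtain ⟨q, hq, hqv⟩ := exists_prime_mem v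
  have hV := iv_sh W hW
  have hqZ : Prime (q : ℤ) := Nat.prime_iff_prime_int.1 hq
  have hint : ∀ m : ℤ, w ((m : ℤ) : AlgebraicClosure (v.adicCompletion K)) < 1 ↔
      ((m : ℤ) : 𝓞 K) ∈ v.asIdeal := by
    intro m
    rw [← hw4]
    simp only [map_intCast]
  have hone : ∀ m : ℤ, ((m : ℤ) : 𝓞 K) ∉ v.asIdeal →
      w ((m : ℤ) : AlgebraicClosure (v.adicCompletion K)) = 1 := by
    intro m hm
    apply le_antisymm (u_int w m)
    by_contra hcon
    rw [not_le] at hcon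
    exact hm ((hint m).1 hcon)
  have hqw : w ((q : ℕ) : AlgebraicClosure (v.adicCompletion K)) < 1 := by
    have := (hint (q : ℤ)).2 (by exact_mod_cast hqv)
    exact_mod_cast this
  have hqD : ¬ (q : ℤ) ∣ 2 * W.Δ := by
    rintro ⟨k, hk⟩
    apply hv
    rw [hk]
    push_cast
    exact v.asIdeal.mul_mem_right _ (by exact_mod_cast hqv)
  have h2 : w (2 : AlgebraicClosure (v.adicCompletion K)) = 1 := by
    have := hone 2 (fun hm => hv (by
      push_cast
      exact v.asIdeal.mul_mem_right _ (by exact_mod_cast hm)))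
    exact_mod_cast this
  have hΔw : w (256 * ((W.Δ : ℤ) : AlgebraicClosure (v.adicCompletion K))) = 1 := by
    have h3 := hone W.Δ (fun hm => hv (by
      push_cast
      exact v.asIdeal.mul_mem_left _ (by exact_mod_cast hm)))
    have e : (256 : AlgebraicClosure (v.adicCompletion K)) = 2 ^ 8 := by norm_num
    rw [map_mul, e, map_pow, h2, h3, one_pow, one_mul]
  -- the valuations
  have hev : ∀ φ : A →+* AlgebraicClosure (v.adicCompletion K),
      ∃ s : v.adicCompletion K, s ≠ 0 ∧ w (φ z) = w (algebraMap (v.adicCompletion K)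
        (AlgebraicClosure (v.adicCompletion K)) s) ^ 2 := by
    intro φ
    have hmem := q_mem_plc w φ hq.ne_zero hqw
    · have hval : (plc w φ hq.ne_zero
          hqw).valuation A z = 1 := by
        apply hz
        intro hcon
        have h5 := not_both hq hmem hcon
        exact hqD h5
      have h8 := plc_one w φ hq.ne_zero hqw hval
      exact ⟨1, one_ne_zero, by
        rw [map_one, map_one, one_pow]
        exact h8⟩
  haveI : v.asIdeal.IsMaximal := v.isMaximal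
  haveI : Finite (𝓞 K ⧸ v.asIdeal) := Ring.HasFiniteQuotients.finiteQuotient v.ne_bot
  let j : 𝓞 K →+* (v.adicCompletion K) :=
    (algebraMap K (v.adicCompletion K)).comp (algebraMap (𝓞 K) K)
  exact cond_conv _ _ _ _ _ _ (cond_lz h hW v.asIdeal j w hw1 hw3 hw4 hw5 h2 hΔw hr hev)

end good2

theorem card_T0 {A : Type} [Field A] [NumberField A] {D0 : ℤ} (hD0 : D0 ≠ 0) :
    (∑ p ∈ TF ℚ D0 hD0, (Tq A (ng p)).ncard) ≤ (TF A D0 hD0).card := by
  set F : HeightOneSpectrum (𝓞 ℚ) → Finset (HeightOneSpectrum (𝓞 A)) := fun p =>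
    (tq_finite (A := A) (ng_prime p).ne_zero).toFinset with hF
  have hFc : ∀ p, (F p).card = (Tq A (ng p)).ncard := fun p =>
    (Set.ncard_eq_toFinset_card _ (tq_finite (A := A) (ng_prime p).ne_zero)).symm
  have hmF : ∀ p u, u ∈ F p ↔ ((ng p : ℕ) : 𝓞 A) ∈ u.asIdeal := by
    intro p u
    rw [hF]
    simp only [Set.Finite.mem_toFinset]
    rfl
  have hdis : (↑(TF ℚ D0 hD0) : Set (HeightOneSpectrum (𝓞 ℚ))).PairwiseDisjoint F := by
    intro p _ p' _ hne
    rw [Function.onFun, Finset.disjoint_left]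
    intro u hu hu'
    rw [hmF] at hu hu'
    apply hne
    apply ng_inj
    have h1 := not_both (ng_prime p) (D := (ng p' : ℤ)) hu (by exact_mod_cast hu')
    have h2 : ng p ∣ ng p' := by exact_mod_cast h1
    exact (Nat.prime_dvd_prime_iff_eq (ng_prime p) (ng_prime p')).1 h2
  have hsub : (TF ℚ D0 hD0).biUnion F ⊆ TF A D0 hD0 := by
    intro u hu
    rw [Finset.mem_biUnion] at hu
    obtain ⟨p, hp, hu⟩ := hu
    rw [hmF] at hu
    rw [mem_TF]
    have hdvd : (ng p : ℤ) ∣ D0 := mem_TFQ.1 hp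
    obtain ⟨k, hk⟩ := hdvd
    rw [hk]
    push_cast
    exact u.asIdeal.mul_mem_right _ hu
  have h1 := Finset.card_le_card hsub
  rw [Finset.card_biUnion hdis] at h1
  simp only [hFc] at h1
  omega

section main

variable {V : WeierstrassCurve ℚ} {A : Type} [Field A] [NumberField A] {θ : A} (h : CF V A θ)

include h in
theorem exists_zG0 (hV : IV V) {D0 : ℤ} (hD0 : D0 ≠ 0) (ρ : ℕ) (R : Subgroup Aˣ)
    (hR0 : R.index ≠ 0) (hRle : R.index ≤ 2 ^ ρ) (hcnt : ρ + 2 ≤ Units.rank A) :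
    ∃ z0 z : Aˣ, z0 ∈ R ∧ z = z0 * io A (nrm A z0) ∧
      (∃ r : ℚ, r ≠ 0 ∧ Algebra.norm ℚ (z : A) = r ^ 2) ∧ (¬ ∃ s : A, (z : A) = s ^ 2) ∧
      (∀ u : HeightOneSpectrum (𝓞 A), ((D0 : ℤ) : 𝓞 A) ∉ u.asIdeal → u.valuation A (z : A) = 1) ∧
      ∀ p : HeightOneSpectrum (𝓞 ℚ), (ng p : ℤ) ∣ D0 →
        Cond (p.adicCompletion ℚ) (AlgebraicClosure (p.adicCompletion ℚ)) V θ (z : A) := by
  have hθ : _root_.IsIntegral ℤ θ := hV.int h.root
  have hroots := fun p : HeightOneSpectrum (𝓞 ℚ) =>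
    Y355.G.V_roots hV.a1 hV.a3 hV.Δ (AlgebraicClosure (p.adicCompletion ℚ))
  choose a b c hC using hroots
  haveI hgal := gal_p
  set S0 := TF ℚ D0 hD0 with hS0
  set S := TF ℚ D0 hD0 with hS
  set T := TF A D0 hD0 with hT
  set G := SU T with hG
  set C : S0 → Subgroup Aˣ := fun p => (DD (L := p.1.adicCompletion ℚ) (hC p.1)).comap
    (lo h (p.1.adicCompletion ℚ) (AlgebraicClosure (p.1.adicCompletion ℚ))) with hCdef
  set r : HeightOneSpectrum (𝓞 ℚ) → ℕ := fun p =>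
    Nat.card (Orb V (p.adicCompletion ℚ) (AlgebraicClosure (p.adicCompletion ℚ))) with hrdef
  have hCidx : ∀ p : S0, (C p).relIndex G ≠ 0 ∧
      (C p).relIndex G ≤ 2 ^ (r p.1 - 1) * (if ng p.1 = 2 then 2 else 1) := by
    intro p
    obtain ⟨w, hσ, hL, hfour⟩ := exists_ld p.1
    obtain ⟨k1, k2⟩ := lp w hσ (hC p.1) hL hV
    have h1 : (C p).relIndex G ∣ (DD (L := p.1.adicCompletion ℚ) (hC p.1)).index := by
      rw [hCdef, Subgroup.relIndex_comap]
      exact Subgroup.relIndex_dvd_index_of_normal _ _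
    exact ⟨fun h0 => k1 (by rw [h0] at h1; exact Nat.eq_zero_of_zero_dvd h1),
      (Nat.le_of_dvd (Nat.pos_of_ne_zero k1) h1).trans k2⟩
  have hr1 : ∀ p : HeightOneSpectrum (𝓞 ℚ), 1 ≤ r p ∧ r p ≤ (Tq A (ng p)).ncard := by
    intro p
    obtain ⟨w, hσ, hL, hfour⟩ := exists_ld p
    refine ⟨?_, orb_le_tq h w (hC p) hL hθ⟩
    haveI := rt_finite (hC p)
    haveI : Finite (Orb V (p.adicCompletion ℚ) (AlgebraicClosure (p.adicCompletion ℚ))) :=
      Quotient.finite _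
    haveI : Nonempty (Orb V (p.adicCompletion ℚ) (AlgebraicClosure (p.adicCompletion ℚ))) :=
      ⟨Quotient.mk _ ⟨a p, (hC p).root_a⟩⟩
    exact Nat.card_pos
  set I : Subgroup Aˣ := ⨅ p : S0, C p with hI
  have hI0 : I.relIndex G ≠ 0 := Subgroup.relIndex_iInf_ne_zero fun p => (hCidx p).1
  have hIle : I.relIndex G ≤ 2 ^ (∑ p ∈ S0, (r p - 1)) * 2 := by
    refine (Subgroup.relIndex_iInf_le _).trans ?_
    refine (Finset.prod_le_prod' fun p _ => (hCidx p).2).trans ?_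
    rw [Finset.prod_mul_distrib, Finset.prod_coe_sort S0 (fun p => 2 ^ (r p - 1)),
      Finset.prod_coe_sort S0 (fun p => (if ng p = 2 then 2 else 1 : ℕ)),
      Finset.prod_pow_eq_pow_sum]
    apply Nat.mul_le_mul_left
    rw [Finset.prod_ite, Finset.prod_const, Finset.prod_const_one, mul_one]
    have h1 : (S0.filter (fun p => ng p = 2)).card ≤ 1 := by
      rw [Finset.card_le_one]
      intro p hp p' hp'
      rw [Finset.mem_filter] at hp hp'
      exact ng_inj (hp.2.trans hp'.2.symm)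
    calc 2 ^ (S0.filter (fun p => ng p = 2)).card ≤ 2 ^ 1 := Nat.pow_le_pow_right (by norm_num) h1
      _ = 2 := rfl
  have hJ0 : (I ⊓ R).relIndex G ≠ 0 := by
    have h1 : R.relIndex G ∣ R.index := Subgroup.relIndex_dvd_index_of_normal _ _
    exact Subgroup.relIndex_inf_ne_zero hI0 (fun h0 => hR0 (by
      rw [h0] at h1; exact Nat.eq_zero_of_zero_dvd h1))
  have hJle : (I ⊓ R).relIndex G ≤ 2 ^ (∑ p ∈ S0, (r p - 1)) * 2 * 2 ^ ρ := by
    have h1 : R.relIndex G ∣ R.index := Subgroup.relIndex_dvd_index_of_normal _ _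
    exact Subgroup.relIndex_inf_le.trans (Nat.mul_le_mul hIle
      ((Nat.le_of_dvd (Nat.pos_of_ne_zero hR0) h1).trans hRle))
  -- the subgroup of the squares and of the rational numbers
  set Q : Subgroup Aˣ := (SU S).map (io A) with hQ
  have hQG : Q ≤ G := by
    rintro _ ⟨x, hx, rfl⟩
    exact io_mem hD0 hx
  set B : Subgroup Aˣ := SqrH G ⊔ Q with hB
  have hBG : B ≤ G := sup_le (sqrH_le G) hQG
  have hX : (SqrH G).relIndex G = 2 ^ (Units.rank A + T.card) * 2 := by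
    rw [← sqr_sub, su_idx, two_su]
  have hX1 : (SqrH G).relIndex B * B.relIndex G = (SqrH G).relIndex G :=
    Subgroup.relIndex_mul_relIndex _ _ _ le_sup_left hBG
  have hX2 : (SqrH G).relIndex B ≤ 2 ^ (S.card + 1) := by
    have e1 : (SqrH G).relIndex B = (SqrH G).relIndex Q := by
      rw [hB, Subgroup.relIndex_sup_left]
    have e2 : (SqrH G).relIndex Q ∣ (SqrH (SU S)).relIndex (SU S) := by
      rw [hQ, ← Subgroup.relIndex_comap]
      apply Subgroup.relIndex_dvd_of_le_left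
      rintro _ ⟨x, hx, rfl⟩
      exact ⟨io A x, io_mem hD0 hx, by
        show (io A x) ^ 2 = io A (x ^ 2)
        rw [map_pow]⟩
    have e3 : (SqrH (SU S)).relIndex (SU S) = 2 ^ (S.card + 1) := by
      rw [← sqr_sub, su_idx, two_su, rank_Q, zero_add, pow_succ]
    rw [e1]
    rw [e3] at e2
    exact Nat.le_of_dvd (by positivity) e2
  -- the pigeonhole principle
  have hmain : ∃ z ∈ G, z ∈ I ⊓ R ∧ z ∉ B := by
    by_contra hcon
    push Not at hcon
    have hle : (I ⊓ R) ⊓ G ≤ B := fun z hz => hcon z hz.2 hz.1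
    have h1 : B.relIndex G ∣ (I ⊓ R).relIndex G := by
      have := Subgroup.relIndex_dvd_of_le_left G hle
      rwa [Subgroup.inf_relIndex_right] at this
    have h2 : B.relIndex G ≤ 2 ^ (∑ p ∈ S0, (r p - 1)) * 2 * 2 ^ ρ :=
      (Nat.le_of_dvd (Nat.pos_of_ne_zero hJ0) h1).trans hJle
    have h3 : (SqrH G).relIndex G ≤ 2 ^ (S.card + 1) * (2 ^ (∑ p ∈ S0, (r p - 1)) * 2 * 2 ^ ρ) := by
      rw [← hX1]
      exact Nat.mul_le_mul hX2 h2
    rw [hX] at h3
    have hT1 : (∑ p ∈ S0, (Tq A (ng p)).ncard) ≤ T.card :=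
      card_T0 (A := A) hD0
    have hsum : ∑ p ∈ S0, (r p - 1) + S0.card = ∑ p ∈ S0, r p := by
      rw [Finset.card_eq_sum_ones, ← Finset.sum_add_distrib]
      refine Finset.sum_congr rfl fun p _ => ?_
      have := (hr1 p).1
      omega
    have hsum2 : ∑ p ∈ S0, r p ≤ ∑ p ∈ S0, (Tq A (ng p)).ncard :=
      Finset.sum_le_sum fun p _ => (hr1 p).2
    have hScard : S.card = S0.card := rfl
    have h4 : 2 ^ (Units.rank A + T.card) * 2 = 2 ^ (Units.rank A + T.card + 1) := by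
      rw [pow_succ]
    have h5 : 2 ^ (S.card + 1) * (2 ^ (∑ p ∈ S0, (r p - 1)) * 2 * 2 ^ ρ) =
        2 ^ (S.card + 1 + (∑ p ∈ S0, (r p - 1) + 1 + ρ)) := by
      rw [pow_add 2 (S.card + 1) (∑ p ∈ S0, (r p - 1) + 1 + ρ),
        pow_add 2 (∑ p ∈ S0, (r p - 1) + 1) ρ, pow_succ 2 (∑ p ∈ S0, (r p - 1))]
    rw [h4, h5] at h3
    have h6 := (Nat.pow_le_pow_iff_right (by norm_num : 1 < 2)).1 h3
    omega
  obtain ⟨z, hzG, ⟨hzI, hzR⟩, hzB⟩ := hmain
  set N : ℚˣ := nrm A z with hN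
  have hNS : N ∈ SU S := nrm_mem h hV hD0 hzG
  have hNval : (N : ℚ) = Algebra.norm ℚ (z : A) := rfl
  refine ⟨z, z * io A N, hzR, rfl, ⟨(N : ℚ) ^ 2, pow_ne_zero 2 N.ne_zero, ?_⟩, ?_, ?_, ?_⟩
  · rw [Units.val_mul, map_mul]
    have e1 : ((io A N : Aˣ) : A) = algebraMap ℚ A (N : ℚ) := rfl
    rw [e1, Algebra.norm_algebraMap, h.deg, ← hNval]
    ring
  · rintro ⟨s, hs⟩
    apply hzB
    have hs0 : s ≠ 0 := by
      rintro rfl
      rw [zero_pow two_ne_zero] at hs
      exact (z * io A N).ne_zero hs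
    have hzN : z * io A N = (Units.mk0 s hs0) ^ 2 := Units.ext (by rw [hs]; rfl)
    have hsG : Units.mk0 s hs0 ∈ G := by
      intro u hu
      have h1 : z * io A N ∈ G := G.mul_mem hzG (io_mem hD0 hNS)
      have h2 := h1 u hu
      rw [hzN] at h2
      have h3 : u.valuation A (((Units.mk0 s hs0) ^ 2 : Aˣ) : A) = 1 := h2
      rw [Units.val_pow_eq_pow_val, map_pow] at h3
      exact (pow_eq_one_iff_of_nonneg zero_le' (by norm_num)).1 h3
    have hz : z = (Units.mk0 s hs0) ^ 2 * io A N⁻¹ := by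
      rw [map_inv, ← hzN, mul_inv_cancel_right]
    rw [hz]
    exact Subgroup.mul_mem_sup ⟨_, hsG, rfl⟩ ⟨N⁻¹, (SU S).inv_mem hNS, rfl⟩
  · intro u hu
    have h1 : z * io A N ∈ G := G.mul_mem hzG (io_mem hD0 hNS)
    exact h1 u (by
      intro hmem
      exact hu (mem_TF.1 hmem))
  · intro p hp
    have hzC : z ∈ C ⟨p, mem_TFQ.2 hp⟩ := (Subgroup.mem_iInf.1 hzI) _
    have hD1 := (mem_DD (L := p.adicCompletion ℚ) (hC p)).1 hzC
    obtain ⟨η, d, P, hη⟩ := hD1
    have hη' : ∀ e, em h e (z : A) = (η.1 e : AlgebraicClosure (p.adicCompletion ℚ)) ^ 2 *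
      algebraMap _ _ (d : p.adicCompletion ℚ) * kpf P e := hη
    obtain ⟨y1, hy1⟩ := prod_fixed (hC p) η
    obtain ⟨y2, hy2⟩ := kp_norm (hC p) P
    set Ω' := AlgebraicClosure (p.adicCompletion ℚ) with hΩ'
    set ι := algebraMap (p.adicCompletion ℚ) Ω' with hι
    have hnorm : algebraMap ℚ Ω' (N : ℚ) = (ι y1 * ι y2 * ι (d : p.adicCompletion ℚ)) ^ 2 *
        ι (d : p.adicCompletion ℚ) := by
      rw [hNval, norm_em h (hC p), hη', hη', hη', hy1]
      linear_combination (((η.1 ⟨a p, (hC p).root_a⟩ : Ω') * (η.1 ⟨b p, (hC p).root_b⟩) *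
        (η.1 ⟨c p, (hC p).root_c⟩)) ^ 2 * ι (d : p.adicCompletion ℚ) ^ 3) * hy2
    refine ⟨act V (incl ℚ (p.adicCompletion ℚ) Ω') P, fun σ => rs_act_incl V σ P, fun φ => ?_⟩
    set e : Rt V Ω' := ⟨φ θ, root_em h φ⟩ with he
    refine ⟨(η.1 e : Ω') * (ι y1 * ι y2 * ι (d : p.adicCompletion ℚ)) *
      ι (d : p.adicCompletion ℚ), fun σ hσ => ?_, fun b' c' hC' => ?_⟩
    · have hmv : mv σ e = e := Subtype.ext hσ
      rw [map_mul, map_mul, map_mul, map_mul, equi, hmv, σ.commutes, σ.commutes, σ.commutes]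
    · rw [em_uniq h e φ rfl, Units.val_mul, map_mul, hη' e]
      have e1 : ((io A N : Aˣ) : A) = algebraMap ℚ A (N : ℚ) := rfl
      rw [e1, (em h e).commutes, hnorm, kpf_eq P e hC']
      ring

end main


variable (W : WeierstrassCurve ℤ)

/-- the Selmer group over a totally complex field is not trivial -/
theorem selT_noC (K : Type) [Field K] [NumberField K] [IsGalois ℚ K] (hW : 0 < W.Δ)
    (hnr : ∀ x : K, cub (sh W) x ≠ 0) (hS : SelT (sh W) K) :
    ¬ ∀ v : InfinitePlace K, ¬ v.IsReal := by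
  intro hcx
  haveI : IsGalois ℚ (AlgebraicClosure K) := IsGalois.mk
  have hV := iv_sh W hW.ne'
  have hnrQ : ∀ x : ℚ, cub (sh W) x ≠ 0 := by
    intro x hx
    apply hnr (algebraMap ℚ K x)
    have h := cub_map (sh W) (incl ℚ ℚ K) x
    rw [hx, map_zero] at h
    exact h
  obtain ⟨A, hA1, hA2, θ, hcf⟩ := exists_cf hV hnrQ
  have hD0 : 2 * W.Δ ≠ 0 := mul_ne_zero two_ne_zero hW.ne'
  obtain ⟨x1, x2, x3, h12, h23, hC⟩ := exists_roots hW
  have hrk := rank_two hcf hW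
  have hfin : ∀ z : Aˣ, ∀ r : ℚ, Algebra.norm ℚ (z : A) = r ^ 2 →
      (∀ u : HeightOneSpectrum (𝓞 A), ((2 * W.Δ : ℤ) : 𝓞 A) ∉ u.asIdeal →
        u.valuation A (z : A) = 1) →
      (∀ p : HeightOneSpectrum (𝓞 ℚ), (ng p : ℤ) ∣ 2 * W.Δ →
        Cond (p.adicCompletion ℚ) (AlgebraicClosure (p.adicCompletion ℚ)) (sh W) θ (z : A)) →
      ∀ v : HeightOneSpectrum (𝓞 K),
        Cond (v.adicCompletion K) (AlgebraicClosure (v.adicCompletion K)) (sh W) θ (z : A) := by
    intro z r hr hzv hzc v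
    by_cases hv : ((2 * W.Δ : ℤ) : 𝓞 K) ∈ v.asIdeal
    · obtain ⟨q, hq, hqv⟩ := exists_prime_mem v
      obtain ⟨p, rfl⟩ := exists_ng hq
      exact cond_place v p hV hcf hqv (hzc p (not_both hq hqv hv))
    · exact cond_good0 hcf hW.ne' z.ne_zero hr hzv v hv
  obtain ⟨z0, z, hz0, hz, ⟨r, hr0, hr⟩, hzsq, hzv, hzc⟩ := exists_zG0 hcf hV hD0 0
    (⊤ : Subgroup Aˣ) (by rw [Subgroup.index_top]; norm_num) (by rw [Subgroup.index_top]; norm_num)
    (by omega)
  obtain ⟨g, hg1, hg2, hg3, hg4, hg5, hg6⟩ := class_of_z K hW.ne' hnr hcf z hr0 hr hzsq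
    (hfin z r hr hzv hzc) (fun v => cond_infP hcf hW h12 h23 hC hr0 hr v fun hv => absurd hv (hcx v))
  apply hg6
  have hcocQ : IsCoc (F := ℚ) (sh W) g := ⟨hg1, hg2⟩
  have hcoc : IsCoc (F := K) (sh W) (fun σ : AlgebraicClosure K ≃ₐ[K] AlgebraicClosure K =>
      g (σ.restrictScalars ℚ)) := by
    refine ⟨?_, fun σ τ => hg2 (σ.restrictScalars ℚ) (τ.restrictScalars ℚ)⟩
    exact hg1.comp_continuous cont_rs
  have hloc : ∀ (L : Type) [Field L] [Algebra K L] [Algebra ℚ L] [IsScalarTower ℚ K L],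
      LocTriv (F := ℚ) (Ω := AlgebraicClosure K) (sh W) L (AlgebraicClosure L) g →
      LocTriv (F := K) (Ω := AlgebraicClosure K) (sh W) L (AlgebraicClosure L)
        (fun σ : AlgebraicClosure K ≃ₐ[K] AlgebraicClosure K => g (σ.restrictScalars ℚ)) := by
    intro L _ _ _ _ h
    let ι : AlgebraicClosure K →ₐ[K] AlgebraicClosure L := IsAlgClosed.lift
    obtain ⟨P, hP⟩ := LocTriv.of_any (sh W) hcocQ h (ι.restrictScalars ℚ)
    exact ⟨ι, P, fun τ σ hτ => hP τ (σ.restrictScalars ℚ) hτ⟩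
  exact hS _ hcoc (fun σ => hg3 _) (fun v => hloc _ (hg4 v)) (fun v => hloc _ (hg5 v))

end Pool.Agent.K4H53.BSR
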