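import Mathlib

/-!
# The cyclotomic field of conductor `4 m` over the cyclotomic field of conductor `m`
-/

set_option autoImplicit false
set_option linter.all false

open NumberField

namespace Pool.Agent.K4H53.BSR

theorem cyc_data (m : ℕ) [NeZero m] (hodd : Odd m) (M : Type) [Field M] [NumberField M]
    [IsCyclotomicExtension {4 * m} ℚ M] :
    ∃ (M1 : IntermediateField ℚ M) (i : M), IsCyclotomicExtension {m} ℚ M1 ∧ i * i = -1 ∧
      (∀ x : M, ∃ a b : M1, x = a + b * i) ∧
      ∃ c : M ≃ₐ[ℚ] M, (∀ x : M1, c x = x) ∧ c i = -i := by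
  haveI : NeZero (4 * m) := ⟨mul_ne_zero (by norm_num) (NeZero.ne m)⟩
  set ζ := IsCyclotomicExtension.zeta (4 * m) ℚ M with hζ
  have hprim : IsPrimitiveRoot ζ (4 * m) := IsCyclotomicExtension.zeta_spec (4 * m) ℚ M
  have h4m : 0 < 4 * m := Nat.pos_of_ne_zero (NeZero.ne _)
  have hp4 : IsPrimitiveRoot (ζ ^ 4) m := hprim.pow h4m rfl
  have hpm : IsPrimitiveRoot (ζ ^ m) 4 := hprim.pow h4m (mul_comm 4 m)
  set M1 : IntermediateField ℚ M := IntermediateField.adjoin ℚ {ζ ^ 4} with hM1
  set i : M := ζ ^ m with hi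
  haveI hc : IsCyclotomicExtension {m} ℚ M1 := hp4.intermediateField_adjoin_isCyclotomicExtension ℚ
  have hii : i * i = -1 := by
    have h1 : IsPrimitiveRoot (i ^ 2) 2 := hpm.pow (by norm_num) (by norm_num)
    have := h1.eq_neg_one_of_two_right
    rw [← sq]; exact this
  have hz4 : ζ ^ 4 ∈ M1 := IntermediateField.mem_adjoin_simple_self ℚ _
  -- the elements `a + b i`
  have hgen : ∀ x : M, ∃ a b : M1, x = a + b * i := by
    let S : Subalgebra ℚ M :=
      { carrier := {x | ∃ a b : M1, x = a + b * i}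
        mul_mem' := by
          rintro _ _ ⟨a, b, rfl⟩ ⟨a', b', rfl⟩
          refine ⟨a * a' - b * b', a * b' + b * a', ?_⟩
          push_cast
          linear_combination (b : M) * b' * hii
        add_mem' := by
          rintro _ _ ⟨a, b, rfl⟩ ⟨a', b', rfl⟩
          exact ⟨a + a', b + b', by push_cast; ring⟩
        algebraMap_mem' := fun q => ⟨algebraMap ℚ M1 q, 0, by simp⟩ }
    have hiS : ∀ k : ℕ, i ^ k ∈ S := by
      intro k
      exact S.pow_mem ⟨0, 1, by simp⟩ k
    have hzS : ζ ∈ S := by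
      have hco : Nat.Coprime 4 m := by
        have : Nat.Coprime (2 ^ 2) m := Nat.Coprime.pow_left 2 (Nat.coprime_two_left.2 hodd)
        simpa using this
      obtain ⟨k, hk1, hk2⟩ := Nat.chineseRemainder hco 1 0
      -- `k ≡ 1 mod 4`, `k ≡ 0 mod m`
      obtain ⟨t, ht⟩ : m ∣ k := (Nat.modEq_zero_iff_dvd).1 hk2
      have h1 : ∃ j : ℕ, k + 4 * j = 1 + 4 * m * k := by
        have h2 : (4 : ℤ) ∣ 1 + 4 * m * k - k := by
          have := (Nat.modEq_iff_dvd.1 hk1)
          push_cast at this
          have h3 : (1 + 4 * m * k - k : ℤ) = (1 - k) + 4 * (m * k) := by ring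
          rw [h3]
          exact dvd_add this (Dvd.intro _ rfl)
        obtain ⟨j, hj⟩ := h2
        have hj0 : 0 ≤ j := by
          have hm1 : (1 : ℤ) ≤ m := by
            have := NeZero.pos m
            exact_mod_cast this
          have hk0 : (0 : ℤ) ≤ k := Int.natCast_nonneg k
          nlinarith
        refine ⟨j.toNat, ?_⟩
        have : (j.toNat : ℤ) = j := Int.toNat_of_nonneg hj0
        zify
        rw [this]
        linarith
      obtain ⟨j, hj⟩ := h1
      have h2 : ζ = i ^ t * (ζ ^ 4) ^ j := by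
        rw [hi, ← pow_mul, ← ht, ← pow_mul, ← pow_add, hj, pow_add, pow_one, pow_mul,
          hprim.pow_eq_one, one_pow, mul_one]
      rw [h2]
      refine S.mul_mem (hiS t) (S.pow_mem ?_ j)
      exact ⟨⟨ζ ^ 4, hz4⟩, 0, by simp⟩
    intro x
    have htop : Algebra.adjoin ℚ {ζ} = ⊤ :=
      IsCyclotomicExtension.adjoin_primitive_root_eq_top (n := 4 * m) hprim
    have hx : x ∈ Algebra.adjoin ℚ {ζ} := by rw [htop]; trivial
    exact Algebra.adjoin_le (Set.singleton_subset_iff.2 hzS) hx
  refine ⟨M1, i, hc, hii, hgen, ?_⟩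
  have hiM : i ∉ M1 := by
    intro hiM
    have h1 : M1 = ⊤ := by
      rw [eq_top_iff]
      intro x _
      obtain ⟨a, b, rfl⟩ := hgen x
      exact M1.add_mem a.2 (M1.mul_mem b.2 hiM)
    have h2 : Module.finrank ℚ M1 = m.totient := IsCyclotomicExtension.Rat.finrank m M1
    have h3 : Module.finrank ℚ M = (4 * m).totient := IsCyclotomicExtension.Rat.finrank (4 * m) M
    rw [h1, IntermediateField.finrank_top', h3] at h2
    have hco : Nat.Coprime 4 m := by
      have : Nat.Coprime (2 ^ 2) m := Nat.Coprime.pow_left 2 (Nat.coprime_two_left.2 hodd)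
      simpa using this
    rw [Nat.totient_mul hco] at h2
    have h4 : (4 : ℕ).totient = 2 := by decide
    rw [h4] at h2
    have h5 := Nat.totient_pos.2 (NeZero.pos m)
    omega
  haveI : IsGalois ℚ M := IsCyclotomicExtension.isGalois {4 * m} ℚ M
  have h1 : i ∉ IntermediateField.fixedField M1.fixingSubgroup := by
    rw [IsGalois.fixedField_fixingSubgroup]; exact hiM
  rw [IntermediateField.mem_fixedField_iff] at h1
  push Not at h1
  obtain ⟨c, hc1, hc2⟩ := h1
  refine ⟨c, fun x => (IntermediateField.mem_fixingSubgroup_iff _ _).1 hc1 x x.2, ?_⟩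
  have h3 : c i * c i = i * i := by rw [← map_mul, hii, map_neg, map_one]
  rcases mul_self_eq_mul_self_iff.1 h3 with h4 | h4
  · exact absurd h4 hc2
  · exact h4

/-- the part of a subfield with odd conductor -/
theorem sub_data (m : ℕ) [NeZero m] (hodd : Odd m) (M : Type) [Field M] [NumberField M]
    [IsCyclotomicExtension {4 * m} ℚ M] (K : IntermediateField ℚ M) [IsGalois ℚ K]
    (M1 : IntermediateField ℚ M) (i : M) (hii : i * i = -1)
    (hgen : ∀ x : M, ∃ a b : M1, x = a + b * i) (c : M ≃ₐ[ℚ] M) (hc1 : ∀ x : M1, c x = x)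
    (hci : c i = -i) :
    ∃ (K2 : IntermediateField ℚ M1) (e : K2 →+* K) (d : K ≃ₐ[ℚ] K),
      (∀ x : K2, ((e x : K) : M) = ((x : M1) : M)) ∧
      ∀ g : K ≃ₐ[ℚ] K, (∀ x : K2, g (e x) = e x) → g = 1 ∨ g = d := by
  haveI : NeZero (4 * m) := ⟨mul_ne_zero (by norm_num) (NeZero.ne m)⟩
  haveI : IsGalois ℚ M := IsCyclotomicExtension.isGalois {4 * m} ℚ M
  let K2 : IntermediateField ℚ M1 := K.comap M1.val
  let e : K2 →+* K :=
    { toFun := fun x => ⟨((x : M1) : M), x.2⟩
      map_one' := rfl
      map_mul' := fun _ _ => rfl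
      map_zero' := rfl
      map_add' := fun _ _ => rfl }
  let d : K ≃ₐ[ℚ] K := c.restrictNormal K
  have hd : ∀ x : K, ((d x : K) : M) = c x := fun x => c.restrictNormal_commutes K x
  have h20 : (2 : M) * i ≠ 0 := by
    intro h
    rcases mul_eq_zero.1 h with h1 | h1
    · exact two_ne_zero h1
    · rw [h1, mul_zero] at hii
      exact one_ne_zero (neg_eq_zero.1 hii.symm)
  have hcc : ∀ x : M, c (c x) = x := by
    intro x
    obtain ⟨a, b, rfl⟩ := hgen x
    rw [map_add, map_mul, hc1, hc1, hci, map_add, map_mul, map_neg, hc1, hc1, hci, neg_neg]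
  refine ⟨K2, e, d, fun x => rfl, fun g hg => ?_⟩
  -- the fixed field of `d`
  have hfix : ∀ x : K, d x = x → g x = x := by
    intro x hx
    have h1 : c (x : M) = x := by rw [← hd, hx]
    obtain ⟨a, b, hab⟩ := hgen (x : M)
    have h2 : (b : M) = 0 := by
      have h3 : c (x : M) = a - b * i := by
        rw [hab, map_add, map_mul, hc1, hc1, hci]; ring
      rw [h1, hab] at h3
      have h4 : (b : M) * (2 * i) = 0 := by linear_combination h3
      exact (mul_eq_zero.1 h4).resolve_right h20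
    have h5 : (x : M) = ((a : M1) : M) := by rw [hab, h2, zero_mul, add_zero]
    have hmem : a ∈ K2 := by
      show (a : M) ∈ K
      rw [← h5]; exact x.2
    have h6 : x = e ⟨a, hmem⟩ := Subtype.ext h5
    rw [h6]
    exact hg _
  have hgz : g ∈ Subgroup.zpowers d := by
    rw [← IntermediateField.fixingSubgroup_fixedField (Subgroup.zpowers d),
      IntermediateField.mem_fixingSubgroup_iff]
    intro x hx
    rw [IntermediateField.mem_fixedField_iff] at hx
    exact hfix x (hx d (Subgroup.mem_zpowers d))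
  obtain ⟨k, hk⟩ := hgz
  have hdd : d ^ (2 : ℤ) = 1 := by
    have : d * d = 1 := by
      ext x
      show ((d (d x) : K) : M) = x
      rw [hd, hd, hcc]
    rw [zpow_ofNat, sq]; exact this
  have hk' : d ^ k = g := hk
  rcases Int.even_or_odd' k with ⟨j, rfl | rfl⟩
  · left
    rw [← hk', zpow_mul, hdd, one_zpow]
  · right
    rw [← hk', zpow_add, zpow_mul, hdd, one_zpow, one_mul, zpow_one]

end Pool.Agent.K4H53.BSR
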