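import Pool.Agent.K4H53.BSR.Rh1
import Pool.Agent.K4H53.BSD.Splu

/-!
# Local triviality over `ℚ₂` for a field with ramification of conductor four at two
-/

set_option autoImplicit false
set_option linter.all false

open NumberField IsDedekindDomain WithZero WeierstrassCurve WeierstrassCurve.Affine
open scoped NNReal Classical

namespace Pool.Agent.K4H53.BSR

open Pool.Agent.K4H53.BSD
open Pool.Agent.TH115.GD (exists_compl_map)
open Pool.Agent.Y852.GS (vv near small_zero act_comp)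
open Pool.Agent.Y304.CT (V V_coe N_natCast_lt)
open Pool.Agent.TH115.GD (Pt act rs ak IsCoc LocTriv)
open Pool.Agent.Y702.G (sh base E0)
open Pool.Agent.Y355.G (isSh')

section desc

variable {Ω k0 : Type} [Field Ω] [IsAlgClosed Ω] [Field k0] [Algebra k0 Ω]
  {w : Valuation Ω ℝ≥0} {W : WeierstrassCurve ℤ}
  {H H' : Subgroup (Ω ≃ₐ[k0] Ω)} {σ : Ω ≃ₐ[k0] Ω} {ϖ : Ω}

/-- descent of a trivialisation along the ramified quadratic step -/
theorem desc_ram (h : RS w H H' σ ϖ) (hW : (W.Δ : Ω) ≠ 0)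
    (ha : w ((W.a₁ : ℤ) : Ω) ≤ w (2 : Ω)) (ha3 : w ((W.a₃ : ℤ) : Ω) = 1)
    (f : (Ω ≃ₐ[k0] Ω) → (bs W Ω).toAffine.Point)
    (hf : ∀ σ τ, f (σ * τ) = f σ + am W (σ : Ω →+* Ω) (f τ))
    (hf' : ∃ R, ∀ τ ∈ H', f τ = am W (τ : Ω →+* Ω) R - R) :
    ∃ R, ∀ τ ∈ H, f τ = am W (τ : Ω →+* Ω) R - R := by
  have hq := h.qs
  obtain ⟨R, hR⟩ := hf'
  have hmul : ∀ (σ τ : Ω ≃ₐ[k0] Ω) (P : (bs W Ω).toAffine.Point),
      am W ((σ * τ : Ω ≃ₐ[k0] Ω) : Ω →+* Ω) P = am W (σ : Ω →+* Ω) (am W (τ : Ω →+* Ω) P) := by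
    intro σ τ P
    rw [am_comp]; rfl
  let g : (Ω ≃ₐ[k0] Ω) → (bs W Ω).toAffine.Point := fun τ => f τ - (am W (τ : Ω →+* Ω) R - R)
  have hg : ∀ τ, g τ = f τ - (am W (τ : Ω →+* Ω) R - R) := fun τ => rfl
  have hgc : ∀ σ τ, g (σ * τ) = g σ + am W (σ : Ω →+* Ω) (g τ) := by
    intro σ τ
    rw [hg, hg, hg, hf, hmul, map_sub, map_sub]
    abel
  have hg0 : ∀ τ ∈ H', g τ = 0 := by
    intro τ hτ
    rw [hg, hR τ hτ, sub_self]
  have hP : pfx H' (g σ) := by
    intro τ hτ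
    have e1 : g (τ * σ) = am W (τ : Ω →+* Ω) (g σ) := by
      rw [hgc, hg0 τ hτ, zero_add]
    have e2 : g (τ * σ) = g σ := by
      have e3 : τ * σ = σ * (σ⁻¹ * τ * σ) := by group
      rw [e3, hgc, hg0 _ (hq.nrm τ hτ), map_zero, add_zero]
    rw [← e1, e2]
  have hPσ : am W (σ : Ω →+* Ω) (g σ) = -g σ := by
    have e1 := hgc σ σ
    rw [hg0 _ hq.sq] at e1
    exact eq_neg_of_add_eq_zero_right e1.symm
  obtain ⟨S, hS, hSe⟩ := h1_ram h hW ha ha3 hP hPσ
  refine ⟨R - S, fun τ hτ => ?_⟩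
  have hd : ∀ τ ∈ H', f τ = am W (τ : Ω →+* Ω) (R - S) - (R - S) := by
    intro τ hτ
    rw [map_sub, hS τ hτ, hR τ hτ]; abel
  have hdσ : f σ = am W (σ : Ω →+* Ω) (R - S) - (R - S) := by
    have e1 : f σ = g σ + (am W (σ : Ω →+* Ω) R - R) := by rw [hg]; abel
    rw [e1, hSe, map_sub]; abel
  rcases hq.gen τ hτ with h3 | h3
  · exact hd τ h3
  · obtain ⟨ρ, rfl⟩ : ∃ ρ, τ = σ * ρ := ⟨σ⁻¹ * τ, by group⟩
    rw [inv_mul_cancel_left] at h3
    rw [hf, hd ρ h3, hdσ, hmul, map_sub (am W (σ : Ω →+* Ω)) _ (R - S)]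
    abel

end desc

section pack

variable {K : Type} [Field K] [NumberField K]

/-- the embedding of the completion -/
theorem pack_ram [IsGalois ℚ K] (v : HeightOneSpectrum (𝓞 K)) (p : HeightOneSpectrum (𝓞 ℚ))
    {q : ℕ} (hq : q.Prime) (hqp : (q : 𝓞 ℚ) ∈ p.asIdeal) (hqv : (q : 𝓞 K) ∈ v.asIdeal) :
    ∃ (κ : v.adicCompletion K →+* AlgebraicClosure (p.adicCompletion ℚ)), Bd v (V p) κ := by
  let l0 : K →ₐ[ℚ] AlgebraicClosure (p.adicCompletion ℚ) := IsAlgClosed.lift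
  obtain ⟨w0, κ0, hg, hκ0⟩ := Pool.Agent.Y304.CT.emb ℚ K p l0.toRingHom (fun x => by
    show l0 (algebraMap ℚ K x) = _
    rw [l0.commutes]
    rfl)
  have hB0 : ∀ y : w0.adicCompletion K, (Valued.v y : ZM) ≤ 1 → V p (κ0 y) ≤ 1 := by
    intro y hy
    have h1 := hg.2 y (Valued.toNormedField.norm_le_one_iff.2 hy)
    rw [← NNReal.coe_le_coe]
    exact h1
  -- `q` is small
  have hqV : V p ((q : ℕ) : AlgebraicClosure (p.adicCompletion ℚ)) < 1 := by
    have h1 := (bd_alg p).lt (algebraMap ℚ _ (q : ℚ)) (by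
      rw [vv]
      exact (qlt p q).2 hqp)
    rwa [map_natCast, map_natCast] at h1
  have hqw : (q : 𝓞 K) ∈ w0.asIdeal := by
    by_contra hcon
    have h1 : w0.valuation K (q : K) = 1 := by
      refine le_antisymm ?_ (not_lt.1 fun h => hcon ?_)
      · exact qle w0 q
      · exact (qlt w0 q).1 h
    have h2 : (Valued.v ((algebraMap K (w0.adicCompletion K) (q : K))⁻¹) : ZM) ≤ 1 := by
      rw [map_inv₀, vv, h1, inv_one]
    have h3 := hB0 _ h2
    rw [map_inv₀, map_natCast, map_natCast, map_inv₀] at h3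
    have h4 : V p ((q : ℕ) : AlgebraicClosure (p.adicCompletion ℚ)) ≠ 0 := by
      rw [Valuation.ne_zero_iff, ← map_natCast (algebraMap (p.adicCompletion ℚ) _),
        ← map_natCast (algebraMap ℚ (p.adicCompletion ℚ))]
      exact (map_ne_zero _).2 ((map_ne_zero _).2 (Nat.cast_ne_zero.2 hq.ne_zero))
    rw [inv_le_one₀ (pos_iff_ne_zero.2 h4)] at h3
    exact absurd h3 (not_le.2 hqV)
  have hB0' : ∀ y : w0.adicCompletion K, (Valued.v y : ZM) < 1 → V p (κ0 y) < 1 := by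
    intro y hy
    by_cases hy0 : y = 0
    · rw [hy0, map_zero, map_zero]; exact zero_lt_one
    have hyv : (Valued.v y : ZM) ≠ 0 := (Valuation.ne_zero_iff _).2 hy0
    have hqv0 : (Valued.v ((q : ℕ) : w0.adicCompletion K) : ZM) ≠ 0 := by
      rw [Valuation.ne_zero_iff, ← map_natCast (algebraMap K (w0.adicCompletion K))]
      exact (map_ne_zero _).2 (Nat.cast_ne_zero.2 hq.ne_zero)
    -- a power of `y` is divisible by `q`
    obtain ⟨m, hm0, hm⟩ : ∃ m : ℕ, m ≠ 0 ∧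
        (Valued.v (y ^ m) : ZM) ≤ Valued.v ((q : ℕ) : w0.adicCompletion K) := by
      refine ⟨(-log (Valued.v ((q : ℕ) : w0.adicCompletion K) : ZM)).toNat + 1,
        Nat.succ_ne_zero _, ?_⟩
      have h1 : (Valued.v y : ZM) ≤ exp (-1 : ℤ) := Pool.Agent.Y852.GS.lt_one_exp hy
      rw [map_pow]
      calc (Valued.v y : ZM) ^ _ ≤ exp (-1 : ℤ) ^ _ := pow_le_pow_left₀ zero_le h1 _
        _ ≤ _ := by
          rw [← exp_nsmul]
          conv_rhs => rw [← exp_log hqv0]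
          rw [exp_le_exp]
          simp only [smul_neg, nsmul_eq_mul, mul_one]
          omega
    have h2 : (Valued.v (y ^ m / ((q : ℕ) : w0.adicCompletion K)) : ZM) ≤ 1 := by
      rw [map_div₀]
      exact (div_le_one₀ (zero_lt_iff.2 hqv0)).2 hm
    have h3 := hB0 _ h2
    rw [map_div₀, map_natCast, map_div₀, map_pow, map_pow] at h3
    have h4 : V p ((q : ℕ) : AlgebraicClosure (p.adicCompletion ℚ)) ≠ 0 := by
      rw [Valuation.ne_zero_iff, ← map_natCast (algebraMap (p.adicCompletion ℚ) _),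
        ← map_natCast (algebraMap ℚ (p.adicCompletion ℚ))]
      exact (map_ne_zero _).2 ((map_ne_zero _).2 (Nat.cast_ne_zero.2 hq.ne_zero))
    rw [div_le_one₀ (pos_iff_ne_zero.2 h4)] at h3
    by_contra hcon
    rw [not_lt] at hcon
    exact absurd (h3.trans_lt hqV) (not_lt.2 (one_le_pow₀ hcon))
  obtain ⟨g, hg1, hg2⟩ := conj_val v w0 hq hqv hqw
  obtain ⟨jg, hjg1, hjg2, hjg3⟩ := exists_compl_map v w0 (g : K →+* K) hg1 hg2
  exact ⟨κ0.comp jg, fun y hy => hB0 _ (hjg2 y hy), fun y hy => hB0' _ (hjg3 y hy)⟩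

theorem range_indep {L A : Type} [Field L] [NumberField L] [IsGalois ℚ L] [Field A]
    (l l' : L →+* A) (x : L) : ∃ y, l y = l' x := by
  haveI : CharZero A := charZero_of_injective_ringHom l.injective
  letI : Algebra L A := l.toAlgebra
  haveI : IsScalarTower ℚ L A := IsScalarTower.of_algebraMap_eq fun x => by
    show algebraMap ℚ A x = l (algebraMap ℚ L x)
    rw [eq_ratCast, eq_ratCast, map_ratCast]
  let f : L →ₐ[ℚ] A := { l' with
    commutes' := fun x => by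
      show l' (algebraMap ℚ L x) = _
      rw [eq_ratCast, eq_ratCast, map_ratCast] }
  exact ⟨f.restrictNormal L x, f.restrictNormal_commutes L x⟩

/-- the group does not depend on the embedding -/
theorem NK_indep [IsGalois ℚ K] {p : HeightOneSpectrum (𝓞 ℚ)} (l l' : K →+* Om p) :
    NK l = NK l' := by
  have key : ∀ l l' : K →+* Om p, NK l ≤ NK l' := by
    intro l l' τ hτ x
    obtain ⟨y, hy⟩ := range_indep l l' x
    rw [← hy]
    exact hτ _
  exact le_antisymm (key l l') (key l' l)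

end pack

theorem exists_ext {K M A : Type} [Field K] [NumberField K] [Field M] [NumberField M] [Field A]
    [IsAlgClosed A] (r : K →+* M) (l : K →+* A) : ∃ L : M →+* A, ∀ x, L (r x) = l x := by
  letI : Algebra K M := r.toAlgebra
  letI : Algebra K A := l.toAlgebra
  haveI : IsScalarTower ℚ K M := IsScalarTower.of_algebraMap_eq fun x => by
    show algebraMap ℚ M x = r (algebraMap ℚ K x)
    rw [eq_ratCast, eq_ratCast, map_ratCast]
  haveI : Algebra.IsAlgebraic K M := Algebra.IsAlgebraic.tower_top (K := ℚ) K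
  let L : M →ₐ[K] A := IsAlgClosed.lift
  exact ⟨L.toRingHom, fun x => L.commutes x⟩

section main

variable {K K2 M M1 : Type} [Field K] [NumberField K] [IsGalois ℚ K] [Field K2] [NumberField K2]
  [IsGalois ℚ K2] [Field M] [NumberField M] [Field M1] [NumberField M1] [IsGalois ℚ M1]

theorem main_ram {W : WeierstrassCurve ℤ} (hW : W.Δ ≠ 0) {n : ℕ}
    (hn : Module.finrank ℚ K2 = 2 ^ n) (ha1 : Even W.a₁) (ha3 : Odd W.a₃)
    (e : K2 →+* K) (c : K ≃ₐ[ℚ] K)
    (h2K : ∀ g : K ≃ₐ[ℚ] K, (∀ x : K2, g (e x) = e x) → g = 1 ∨ g = c)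
    (eM : M1 →+* M) {i : M} (hi : i * i = -1)
    (hgen : ∀ x : M, ∃ a b : M1, x = eM a + eM b * i)
    (r : K →+* M) (r2 : K2 →+* M1) (hr : ∀ x, r (e x) = eM (r2 x))
    {v : HeightOneSpectrum (𝓞 K)} {p : HeightOneSpectrum (𝓞 ℚ)} (u : HeightOneSpectrum (𝓞 M1))
    (hval : ∀ x : ℚ, u.valuation M1 (algebraMap ℚ M1 x) = p.valuation ℚ x)
    (hp2 : p.valuation ℚ (2 : ℚ) = exp (-1 : ℤ))
    {κ : v.adicCompletion K →+* Om p} (hκ : Bd v (V p) κ)
    (hev : ∃ s : K, v.valuation K (2 : K) = v.valuation K s ^ 2)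
    (hodd : Odd (E0 W (p.adicCompletion ℚ) Valued.v).index)
    (f : (Om p ≃ₐ[p.adicCompletion ℚ] Om p) → (bs W (Om p)).toAffine.Point)
    (hf : ∀ σ τ, f (σ * τ) = f σ + am W (σ : Om p →+* Om p) (f τ))
    (hf' : ∃ R, ∀ τ ∈ NK (κ.comp (algebraMap K _)), f τ = am W (τ : Om p →+* Om p) R - R) :
    ∃ R, ∀ τ, f τ = am W (τ : Om p →+* Om p) R - R := by
  set l : K →+* Om p := κ.comp (algebraMap K _) with hl
  obtain ⟨L, hL⟩ := exists_ext r l
  set H1 : Subgroup (Om p ≃ₐ[p.adicCompletion ℚ] Om p) := NK (L.comp eM) with hH1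
  set H : Subgroup (Om p ≃ₐ[p.adicCompletion ℚ] Om p) := NK (l.comp e) with hH
  have hH1H : H1 ≤ H := by
    intro τ hτ x
    show τ (l (e x)) = l (e x)
    rw [← hL, hr]
    exact hτ (r2 x)
  obtain ⟨κ2, j2, hκ2, -⟩ := pack u p hval
  have hU1 : UR (V p) (algebraMap ℚ (p.adicCompletion ℚ) 2) H1 := by
    have := NK_UR hval hκ2 hp2
    rwa [NK_indep (κ2.comp (algebraMap M1 _)) (L.comp eM)] at this
  have hU : UR (V p) (algebraMap ℚ (p.adicCompletion ℚ) 2) H := hU1.mono hH1H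
  obtain ⟨h1, h0⟩ := val_alg (bd_alg p) hp2
  have h2e : algebraMap (p.adicCompletion ℚ) (Om p) (algebraMap ℚ (p.adicCompletion ℚ) 2) =
      (2 : Om p) := by rw [map_ofNat, map_ofNat]
  rw [h2e] at h1 h0
  have hval1 : ∀ x, fx H1 x → x ≠ 0 → ∃ n : ℤ, V p x = V p (2 : Om p) ^ n := by
    intro x hx hx0
    have := hU1.val x hx hx0
    rwa [h2e] at this
  have hval2 : ∀ x, fx H x → x ≠ 0 → ∃ n : ℤ, V p x = V p (2 : Om p) ^ n := by
    intro x hx hx0
    have := hU.val x hx hx0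
    rwa [h2e] at this
  set I : Om p := L i with hI
  have hII : I * I = -1 := by rw [hI, ← map_mul, hi, map_neg, map_one]
  have hwI : V p I = 1 := by
    have h3 : V p I ^ 2 = 1 ^ 2 := by
      rw [sq, ← map_mul, hII, Valuation.map_neg, map_one, one_pow]
    exact (pow_left_inj₀ zero_le zero_le two_ne_zero).1 h3
  have hw : V p (1 + I) ^ 2 = V p (2 : Om p) := by
    rw [← map_pow]
    have : (1 + I) ^ 2 = 2 * I := by linear_combination hII
    rw [this, map_mul, hwI, mul_one]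
  have hsqI : ∀ τ : Om p ≃ₐ[p.adicCompletion ℚ] Om p, τ I = I ∨ τ I = -I := by
    intro τ
    have h3 : τ I * τ I = I * I := by rw [← map_mul, hII, map_neg, map_one]
    exact mul_self_eq_mul_self_iff.1 h3
  have hNH : NK L ≤ H1 := fun τ hτ x => hτ _
  have hmem : ∀ τ ∈ H1, τ I = I → τ ∈ NK L := by
    intro τ hτ hτI x
    obtain ⟨a, b, rfl⟩ := hgen x
    have ea : τ (L (eM a)) = L (eM a) := hτ a
    have eb : τ (L (eM b)) = L (eM b) := hτ b
    rw [map_add, map_mul, map_add, map_mul, ea, eb]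
    rw [← hI, hτI]
  obtain ⟨σ, hσH1, hσI⟩ : ∃ σ ∈ H1, σ I = -I := by
    by_contra hcon
    push Not at hcon
    have fI : fx H1 I := by
      intro τ hτ
      rcases hsqI τ with h3 | h3
      · exact h3
      · exact absurd h3 (hcon τ hτ)
    have f1 : fx H1 (1 + I) := fx_one.add fI
    have hne : (1 + I) ≠ 0 := by
      intro h3
      rw [h3, map_zero, zero_pow two_ne_zero] at hw
      exact h0 hw.symm
    obtain ⟨k, hk⟩ := hval1 _ f1 hne
    rw [hk, ← zpow_natCast, ← zpow_mul] at hw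
    have h3 := zpow_right_injective₀ (pos_iff_ne_zero.2 h0) h1.ne (hw.trans (zpow_one _).symm)
    push_cast at h3
    omega
  have hII0 : I + I ≠ 0 := by
    intro h4
    have h5 : (2 : Om p) * I = 0 := by rw [two_mul]; exact h4
    rcases mul_eq_zero.1 h5 with h6 | h6
    · rw [h6, map_zero] at h0
      exact h0 rfl
    · rw [h6, mul_zero] at hII
      exact one_ne_zero (neg_eq_zero.1 hII.symm)
  have hσσI : (σ * σ) I = I := by
    rw [AlgEquiv.mul_apply, hσI, map_neg, hσI, neg_neg]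
  have hqs1 : QS H1 (NK L) σ := by
    refine ⟨hNH, hσH1, fun τ hτ => ?_, fun τ hτ => ?_, ?_, ⟨I, fun τ hτ => hτ i, ?_⟩⟩
    · apply hmem _ (mul_mem (mul_mem (inv_mem hσH1) (hNH hτ)) hσH1)
      rw [AlgEquiv.mul_apply, AlgEquiv.mul_apply, hσI, map_neg, map_neg]
      have : τ I = I := hτ i
      rw [this]
      apply σ.injective
      rw [map_neg, ← AlgEquiv.mul_apply, mul_inv_cancel, hσI]
      rfl
    · rcases hsqI τ with h3 | h3
      · exact Or.inl (hmem τ hτ h3)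
      · right
        apply hmem _ (mul_mem (inv_mem hσH1) hτ)
        rw [AlgEquiv.mul_apply, h3]
        apply σ.injective
        rw [← AlgEquiv.mul_apply, mul_inv_cancel, hσI]
        rfl
    · exact hmem _ (mul_mem hσH1 hσH1) hσσI
    · rw [hσI]
      intro h3
      exact hII0 (by linear_combination -h3)
  have hRS1 : RS (V p) H1 (NK L) σ (1 + I) := by
    refine ⟨hqs1, V_inv p, fx_one.add (fun τ hτ => hτ i), hw, ?_, hval1, h0, h1⟩
    have : 1 + I - σ (1 + I) = 2 * I := by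
      rw [map_add, map_one, hσI]; ring
    rw [this, map_mul, hwI, mul_one]
  -- the uniformiser of `K`
  obtain ⟨s, hs⟩ := hev
  set ϖ : Om p := l s with hϖ
  have hϖ2 : V p ϖ ^ 2 = V p (2 : Om p) := by
    have h20 : (2 : K) ≠ 0 := two_ne_zero
    have h3 : V p (κ (algebraMap K (v.adicCompletion K) (s ^ 2 / 2))) = 1 := by
      rw [hκ.eq_iff, vv, map_div₀, map_pow, hs, div_self]
      rw [← hs]
      exact (Valuation.ne_zero_iff _).2 h20
    have h4 : κ (algebraMap K (v.adicCompletion K) (s ^ 2 / 2)) = ϖ ^ 2 / 2 := by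
      rw [map_div₀, map_div₀, map_pow, map_pow, map_ofNat, map_ofNat]
      rfl
    rw [h4, map_div₀, map_pow, div_eq_one_iff_eq h0] at h3
    exact h3
  have hϖL : ϖ = L (r s) := (hL s).symm
  have hdϖ : V p (ϖ - σ ϖ) = V p (2 : Om p) := by
    apply hRS1.dodd _ hϖ2
    intro τ hτ
    rw [hϖL]
    exact hτ (r s)
  have hσH : σ ∈ H := hH1H hσH1
  -- the quadratic step for `K`
  have gex := fun τ : Om p ≃ₐ[p.adicCompletion ℚ] Om p => exists_g l τ
  have hgc : ∀ τ ∈ H, ∀ g : K ≃ₐ[ℚ] K, (∀ x, τ (l x) = l (g x)) → g = 1 ∨ g = c := by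
    intro τ hτ g hg
    apply h2K
    intro x
    apply l.injective
    rw [← hg]
    exact hτ x
  obtain ⟨gσ, hgσ⟩ := gex σ
  have hgσ1 : gσ ≠ 1 := by
    intro h3
    have h4 := hgσ s
    rw [h3, AlgEquiv.one_apply, ← hϖ] at h4
    rw [h4, sub_self, map_zero] at hdϖ
    exact h0 hdϖ.symm
  have hgσc : gσ = c := (hgc σ hσH gσ hgσ).resolve_left hgσ1
  have hgσσ : gσ * gσ = 1 := by
    have h3 : ∀ x, (σ * σ) (l x) = l ((gσ * gσ) x) := by
      intro x
      rw [AlgEquiv.mul_apply, hgσ, hgσ]; rfl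
    rcases hgc (σ * σ) (mul_mem hσH hσH) _ h3 with h4 | h4
    · exact h4
    · exfalso
      rw [← hgσc] at h4
      exact hgσ1 (mul_eq_left.1 h4)
  have hqs : QS H (NK l) σ := by
    refine ⟨fun τ hτ x => hτ _, hσH, fun τ hτ x => ?_, fun τ hτ => ?_, fun x => ?_, ⟨ϖ, fun τ hτ => hτ s, ?_⟩⟩
    · rw [AlgEquiv.mul_apply, AlgEquiv.mul_apply, hgσ, hτ, ← hgσ, ← AlgEquiv.mul_apply,
        inv_mul_cancel]
      rfl
    · obtain ⟨g, hg⟩ := gex τ
      rcases hgc τ hτ g hg with h3 | h3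
      · left
        intro x
        rw [hg, h3]; rfl
      · right
        intro x
        rw [AlgEquiv.mul_apply, hg, h3, ← hgσc, ← hgσ, ← AlgEquiv.mul_apply, inv_mul_cancel]
        rfl
    · rw [AlgEquiv.mul_apply, hgσ, hgσ, ← AlgEquiv.mul_apply, hgσσ]; rfl
    · intro h3
      rw [h3, sub_self, map_zero] at hdϖ
      exact h0 hdϖ.symm
  have hRS : RS (V p) H (NK l) σ ϖ :=
    ⟨hqs, V_inv p, fun τ hτ => hτ s, hϖ2, hdϖ, hval2, h0, h1⟩
  -- the coefficients
  have w1 : V p ((W.a₁ : ℤ) : Om p) ≤ V p (2 : Om p) := by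
    obtain ⟨c, hc⟩ := ha1
    rw [hc]
    push_cast
    rw [← two_mul, map_mul]
    exact mul_le_of_le_one_right' (w_int _ c)
  have w3 : V p ((W.a₃ : ℤ) : Om p) = 1 := by
    obtain ⟨c, hc⟩ := ha3
    rw [hc]
    push_cast
    rw [add_comm]
    have h3 : V p (2 * (c : Om p)) < 1 := by
      rw [map_mul]
      exact (mul_le_of_le_one_right' (w_int _ c)).trans_lt h1
    rw [Valuation.map_add_eq_of_lt_left _ (by rw [map_one]; exact h3), map_one]
  have hstep := desc_ram hRS (int_ne hW) w1 w3 f hf hf'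
  -- the unramified part
  obtain ⟨hnor, m, hm⟩ := NK_index (l.comp e) hn
  rw [← h2e] at h1 h0
  obtain ⟨c1, c2⟩ := chain (W := W) (V_inv p) (int_ne hW) (two_ne p) h1 h0 m _ hnor hm hU
    (fun H' hH' σ hσ => NK_closed _ H' hH' σ hσ) (nt2_top hodd)
  exact c2 f hf hstep

/-- local triviality over `ℚ₂` -/
theorem spl2 (W : WeierstrassCurve ℤ) (hW : W.Δ ≠ 0) {n : ℕ}
    (hn : Module.finrank ℚ K2 = 2 ^ n) (ha1 : Even W.a₁) (ha3 : Odd W.a₃)
    (e : K2 →+* K) (c : K ≃ₐ[ℚ] K)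
    (h2K : ∀ g : K ≃ₐ[ℚ] K, (∀ x : K2, g (e x) = e x) → g = 1 ∨ g = c)
    (eM : M1 →+* M) {i : M} (hi : i * i = -1)
    (hgen : ∀ x : M, ∃ a b : M1, x = eM a + eM b * i)
    (r : K →+* M) (r2 : K2 →+* M1) (hr : ∀ x, r (e x) = eM (r2 x))
    (g : (AlgebraicClosure K ≃ₐ[ℚ] AlgebraicClosure K) → Pt (sh W) (AlgebraicClosure K))
    (hg : ∀ σ τ, g (σ * τ) = g σ + act (sh W) (ak σ) (g τ))
    (v : HeightOneSpectrum (𝓞 K)) (p : HeightOneSpectrum (𝓞 ℚ)) (u : HeightOneSpectrum (𝓞 M1))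
    (hval : ∀ x : ℚ, u.valuation M1 (algebraMap ℚ M1 x) = p.valuation ℚ x)
    (hev : ∃ s : K, v.valuation K (2 : K) = v.valuation K s ^ 2)
    (hp2 : p.valuation ℚ (2 : ℚ) = exp (-1 : ℤ)) (hp : ((2 : ℕ) : 𝓞 ℚ) ∈ p.asIdeal)
    (hv : ((2 : ℕ) : 𝓞 K) ∈ v.asIdeal)
    (hodd : Odd (E0 W (p.adicCompletion ℚ) Valued.v).index)
    (hloc : LocTriv (sh W) (v.adicCompletion K) (AlgebraicClosure (v.adicCompletion K))
        (fun σ : AlgebraicClosure K ≃ₐ[K] AlgebraicClosure K => g (σ.restrictScalars ℚ))) :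
    LocTriv (F := ℚ) (Ω := AlgebraicClosure K) (sh W) (p.adicCompletion ℚ)
          (AlgebraicClosure (p.adicCompletion ℚ)) g := by
  obtain ⟨κ, hκ⟩ := pack_ram v p Nat.prime_two hp hv
  obtain ⟨ι, P, hP⟩ := hloc
  obtain ⟨φ, hφ⟩ := exists_phi (B := Om p) κ
  haveI hN1 : Normal ℚ (AlgebraicClosure K) :=
    normal_Q (Algebra.IsAlgebraic.trans ℚ K (AlgebraicClosure K))
  let ψ : AlgebraicClosure (v.adicCompletion K) →ₐ[ℚ] AlgebraicClosure (p.adicCompletion ℚ) :=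
    { φ with
      commutes' := fun x => by
        show φ (algebraMap ℚ _ x) = _
        rw [eq_ratCast, eq_ratCast, map_ratCast] }
  have hψ : ∀ x, ψ x = φ x := fun x => rfl
  let ι' : AlgebraicClosure K →ₐ[ℚ] AlgebraicClosure (p.adicCompletion ℚ) :=
    ψ.comp (ι.restrictScalars ℚ)
  have hι' : ∀ x, ι' x = φ (ι x) := fun x => rfl
  have hinj : Function.Injective ι' := ι'.toRingHom.injective
  have hex : ∀ τ : Om p ≃ₐ[p.adicCompletion ℚ] Om p,
      ∃ g : AlgebraicClosure K ≃ₐ[ℚ] AlgebraicClosure K, ∀ x, τ (ι' x) = ι' (g x) := fun τ =>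
    exists_res ι'.toRingHom τ.toRingEquiv (fun y => by
      show τ (ι' (algebraMap ℚ _ y)) = ι' (algebraMap ℚ _ y)
      rw [eq_ratCast, map_ratCast, map_ratCast])
  choose ρ hρ using hex
  have hρm : ∀ σ τ, ρ (σ * τ) = ρ σ * ρ τ := by
    intro σ τ
    ext x
    apply hinj
    rw [← hρ, AlgEquiv.mul_apply, AlgEquiv.mul_apply, hρ τ, hρ σ]
  -- the isomorphism with the short model
  set T := Pool.Agent.Y355.G.tr (isSh' W (Om p)) with hT
  have Tadd : ∀ P Q, T (P + Q) = T P + T Q := fun P Q =>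
    Pool.Agent.Y355.G.tr_add (isSh' W (Om p)) P Q
  have Tinj : ∀ P Q, T P = T Q → P = Q := fun P Q h =>
    Pool.Agent.Y355.G.tr_inj (isSh' W (Om p)) h
  have Tsub : ∀ P Q, T (P - Q) = T P - T Q := fun P Q => by
    rw [eq_sub_iff_add_eq, ← Tadd, sub_add_cancel]
  choose Ti hTi' using Pool.Agent.Y355.G.tr_surj (isSh' W (Om p))
  have hTi : ∀ Q, T (Ti Q) = Q := hTi'
  have nat : ∀ (σ : Om p ≃ₐ[p.adicCompletion ℚ] Om p) (P : (bs W (Om p)).toAffine.Point),
      T (am W (σ : Om p →+* Om p) P) = act (sh W) (rs ℚ σ) (T P) := by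
    intro σ P
    rcases P with _ | ⟨x, y, hxy⟩
    · rfl
    · show Point.some (4 * σ x) (8 * σ y + 4 * ((W.a₁ : ℤ) : Om p) * σ x +
          4 * ((W.a₃ : ℤ) : Om p)) _ =
        Point.some (σ (4 * x)) (σ (8 * y + 4 * ((W.a₁ : ℤ) : Om p) * x +
          4 * ((W.a₃ : ℤ) : Om p))) _
      simp only [map_mul, map_add, map_ofNat, map_intCast]
  have hcomp : ∀ σ : Om p ≃ₐ[p.adicCompletion ℚ] Om p,
      (rs ℚ σ).comp ι' = ι'.comp (ak (ρ σ)) := by
    intro σ
    refine AlgHom.ext fun x => ?_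
    exact hρ σ x
  have hmain := main_ram hW hn ha1 ha3 e c h2K eM hi hgen r r2 hr u hval hp2 hκ hev hodd
    (fun τ => Ti (act (sh W) ι' (g (ρ τ)))) ?_ ?_
  · obtain ⟨R, hR⟩ := hmain
    refine ⟨ι', T R, fun τ σ h => ?_⟩
    have hσ : σ = ρ τ := by
      ext x
      apply hinj
      rw [← h, hρ]
    have h1 := hR τ
    have h2 := congrArg T h1
    rw [hTi, Tsub, nat, ← hσ] at h2
    exact h2
  · intro σ τ
    apply Tinj
    rw [Tadd, nat, hTi, hTi, hTi, hρm, hg, map_add, act_comp, act_comp, hcomp]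
  · refine ⟨Ti (act (sh W) ψ P), fun τ hτ => ?_⟩
    apply Tinj
    rw [Tsub, nat, hTi, hTi]
    have hfix : ∀ y : v.adicCompletion K, τ (κ y) = κ y := fun y => NK_fix hκ hτ y
    obtain ⟨τv, hτv⟩ := exists_res (k := v.adicCompletion K) φ τ.toRingEquiv (fun y => by
      rw [hφ]
      exact hfix y)
    have hτv' : ∀ x, τ (φ x) = φ (τv x) := hτv
    have hσK : ∀ x : K, (ρ τ) (algebraMap K _ x) = algebraMap K _ x := by
      intro x
      apply hinj
      rw [← hρ, hι', ι.commutes]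
      have e : φ (algebraMap K (AlgebraicClosure (v.adicCompletion K)) x) =
          κ (algebraMap K (v.adicCompletion K) x) := by
        rw [← hφ]; rfl
      rw [e, hfix]
    let σ : AlgebraicClosure K ≃ₐ[K] AlgebraicClosure K :=
      AlgEquiv.ofRingEquiv (f := (ρ τ).toRingEquiv) hσK
    have hσ : σ.restrictScalars ℚ = ρ τ := by
      ext x
      rfl
    have h1 := hP τv σ (fun x => by
      apply φ.injective
      rw [← hτv', ← hι', hρ, hι']
      rfl)
    rw [← hσ]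
    have h2 := congrArg (act (sh W) ψ) h1
    have e3 : ψ.comp (rs ℚ τv) = (rs ℚ τ).comp ψ := by
      refine AlgHom.ext fun x => ?_
      exact (hτv' x).symm
    have e4 : act (sh W) ψ (act (sh W) (rs ℚ τv) P) = act (sh W) (rs ℚ τ) (act (sh W) ψ P) := by
      rw [act_comp, act_comp, e3]
    rw [map_sub, e4] at h2
    rw [← h2]
    exact (act_comp (sh W) (ι.restrictScalars ℚ) ψ _).symm

end main

end Pool.Agent.K4H53.BSR
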