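import Pool.Agent.Y76.GPar.Par
import Pool.Agent.R425.G.Ur

/-!
# Parity of the valuations of the Selmer element, ramification allowed at the primes of `2 Δ`
-/

set_option autoImplicit false
set_option linter.all false

open NumberField IsDedekindDomain WithZero WeierstrassCurve WeierstrassCurve.Affine Polynomial

namespace Pool.Agent.K4H53.BSR

open Pool.Agent.Y76.GPar
open Pool.Agent.TH115.GD (LocC cub cub' isSquare_mul_sq)
open Pool.Agent.Y702.G (sh base pts)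

theorem s_par2 (W : WeierstrassCurve ℤ) (hW : W.Δ ≠ 0) (K A M : Type) [Field K] [NumberField K]
    [IsGalois ℚ K] [Field A] [NumberField A] [Field M] [NumberField M] [Algebra A M] [Algebra K M]
    (θ z : A) (m : ℕ) (hθ : cub (sh W) θ = 0) (hno : ∀ x : ℚ, cub (sh W) x ≠ 0)
    (htop : IntermediateField.adjoin ℚ {θ} = ⊤)
    (htopM : IntermediateField.adjoin A (Set.range (algebraMap K M)) = ⊤) (hz : z ≠ 0)
    (hN : ∃ r : ℚ, Algebra.norm ℚ z = r ^ 2)
    (hm : ∀ l : ℕ, l.Prime → l ∣ m → ¬ (l : ℤ) ∣ 2 * W.Δ ∧ Odd ((l : ℤ) - pts W (ZMod l)))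
    (hunr : ∀ (p : ℕ), p.Prime → ¬ p ∣ m → ¬ (p : ℤ) ∣ 2 * W.Δ →
      ∀ v : HeightOneSpectrum (𝓞 K), (p : 𝓞 K) ∈ v.asIdeal →
      v.valuation K (p : K) = exp (-1 : ℤ))
    (hloc : ∀ (v : HeightOneSpectrum (𝓞 K)) (w : HeightOneSpectrum (𝓞 M))
      (j : v.adicCompletion K →+* w.adicCompletion M),
      (∀ x : K, j (algebraMap K (v.adicCompletion K) x) =
        algebraMap M (w.adicCompletion M) (algebraMap K M x)) →
      LocC (sh W) j (algebraMap A M θ) (algebraMap A M z))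
    (u : HeightOneSpectrum (𝓞 A)) (hu : u.valuation A (algebraMap ℚ A (2 * (sh W).Δ)) = 1) :
    IsSquare (u.valuation A z) := by
  obtain ⟨p, hp, hpu⟩ := Pool.Agent.Y809.BS.residue_prime u
  have hpΔ : ¬ (p : ℤ) ∣ 2 * W.Δ := by
    rintro ⟨k, hk⟩
    have h1 : ((2 * W.Δ : ℤ) : 𝓞 A) ∈ u.asIdeal := by
      rw [hk]
      push_cast
      exact Ideal.mul_mem_right _ _ hpu
    have h2 : ((2 * (2 ^ 12 * W.Δ) : ℤ) : 𝓞 A) ∈ u.asIdeal := by
      have e : ((2 * (2 ^ 12 * W.Δ) : ℤ) : 𝓞 A) = (2 : 𝓞 A) ^ 12 * ((2 * W.Δ : ℤ) : 𝓞 A) := by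
        push_cast
        ring
      rw [e]
      exact Ideal.mul_mem_left _ _ h1
    have h3 := (HeightOneSpectrum.valuation_lt_one_iff_mem (K := A) u _).2 h2
    have e : algebraMap (𝓞 A) A ((2 * (2 ^ 12 * W.Δ) : ℤ) : 𝓞 A) =
        algebraMap ℚ A (2 * (sh W).Δ) := by
      rw [sh_Δ]
      push_cast
      simp only [map_mul, map_pow, map_intCast, map_ofNat]
    have h4 : u.valuation A (algebraMap (𝓞 A) A ((2 * (2 ^ 12 * W.Δ) : ℤ) : 𝓞 A)) < 1 := h3
    rw [e, hu] at h4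
    exact lt_irrefl _ h4
  by_cases hpm : p ∣ m
  · haveI : Fact p.Prime := ⟨hp⟩
    obtain ⟨h1, h2⟩ := hm p hp hpm
    have hroot := no_root_W W h1 h2
    have hcb : cb ((W.b₂ : ℤ) : A) ((8 * W.b₄ : ℤ) : A) ((16 * W.b₆ : ℤ) : A) θ = 0 := by
      rw [← cub_sh]; exact hθ
    have hk : Module.finrank ℚ A = 3 := finrank_three hcb (fun x => by
      have := hno x
      rw [cub_sh] at this
      exact this) htop
    have hq : cb ((W.b₂ : ℤ) : 𝓞 A) ((8 * W.b₄ : ℤ) : 𝓞 A) ((16 * W.b₆ : ℤ) : 𝓞 A)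
        (⟨θ, root_int hcb⟩ : 𝓞 A) = 0 := by
      apply FaithfulSMul.algebraMap_injective (𝓞 A) A
      unfold cb at hcb ⊢
      simp only [map_add, map_mul, map_pow, map_intCast, map_zero]
      exact hcb
    obtain ⟨e1, e2⟩ := inert hroot hq hk u hpu
    refine Pool.Agent.Y154.NPar.parity_val hp hz hN u (f := 3) (by decide) e2 fun u' hu' hne => ?_
    exfalso
    apply hne
    apply HeightOneSpectrum.ext
    rw [(inert hroot hq hk u' hu').1, e1]
  · obtain ⟨w, hw⟩ := Pool.Agent.Y809.BS.exists_w (M := M) u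
    have hval := Pool.Agent.Y154.s_unr A K M p hp htopM (hunr p hp hpm hpΔ) w u hpu (fun x => by
      rw [← hw]; rfl)
    rw [← hw] at hval hu ⊢
    exact parity W hθ w hval hloc hu

end Pool.Agent.K4H53.BSR
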