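import Pool.Agent.K4H53.BSD.Algs
import Pool.Agent.K4H53.BSR.Loc2
import Pool.Agent.K4H53.BSR.Cyc
import Pool.Agent.K4H53.BSR.Par2
import Pool.Agent.K4H53.BSR.Cx

/-!
# The algebraic side, ramification of conductor four allowed at two
-/

set_option autoImplicit false
set_option linter.all false

open NumberField IsDedekindDomain WithZero WeierstrassCurve WeierstrassCurve.Affine
open scoped NNReal Classical

namespace Pool.Agent.K4H53.BSR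

open Pool.Agent.K4H53.BSD
open Pool.Agent.TH115.GD
open Pool.Agent.Y702.G (sh base pts E0 SelTriv)
open Pool.Agent.R425 (Ev ev_of_disc unr_of_disc)
open Pool.Agent.R425.G Pool.Agent.R425.P

/-- the condition at infinity and at the odd ramified primes -/
def CondB (W : WeierstrassCurve ℤ) (K : Type) [Field K] [NumberField K] : Prop :=
  (0 < W.Δ → InfinitePlace.nrComplexPlaces K = 0) ∧
    ∀ l : ℕ, l.Prime → l ≠ 2 → (l : ℤ) ∣ discr K → Odd ((l : ℤ) - pts W (ZMod l))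

theorem a3_odd {W : WeierstrassCurve ℤ} (hΔ2 : ¬ (2 : ℤ) ∣ W.Δ) (ha1 : Even W.a₁) : Odd W.a₃ := by
  rw [← Int.not_even_iff_odd]
  intro h3
  obtain ⟨x, hx⟩ := ha1
  obtain ⟨y, hy⟩ := h3
  apply hΔ2
  unfold WeierstrassCurve.Δ WeierstrassCurve.b₈ WeierstrassCurve.b₂ WeierstrassCurve.b₄
    WeierstrassCurve.b₆
  rw [hx, hy]
  ring_nf
  omega

section loc

variable {K : Type} [Field K] [NumberField K]

/-- the prime below -/
theorem below_dvd (W : WeierstrassCurve ℤ) (p : HeightOneSpectrum (𝓞 ℚ))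
    (hp : p.valuation ℚ (2 * (sh W).Δ) ≠ 1) {q : ℕ} (hq : q.Prime)
    (v : HeightOneSpectrum (𝓞 K)) (hv : v.under (𝓞 ℚ) = p) (hqv : (q : 𝓞 K) ∈ v.asIdeal) :
    (q : ℤ) ∣ 2 * W.Δ := by
  have h1 : ((2 * W.Δ : ℤ) : 𝓞 ℚ) ∈ p.asIdeal := by
    have h2 : ((2 * (2 ^ 12 * W.Δ) : ℤ) : 𝓞 ℚ) ∈ p.asIdeal := by
      rw [← HeightOneSpectrum.valuation_lt_one_iff_mem (K := ℚ)]
      have e1 : algebraMap (𝓞 ℚ) ℚ ((2 * (2 ^ 12 * W.Δ) : ℤ) : 𝓞 ℚ) = 2 * (sh W).Δ := by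
        rw [map_intCast, Pool.Agent.Y702.G.sh_disc]
        push_cast
        ring
      refine lt_of_le_of_ne ?_ ?_
      · exact HeightOneSpectrum.valuation_le_one _ _
      · intro h9
        apply hp
        rw [← e1]
        exact h9
    have e2 : ((2 * (2 ^ 12 * W.Δ) : ℤ) : 𝓞 ℚ) = (2 : 𝓞 ℚ) ^ 12 * ((2 * W.Δ : ℤ) : 𝓞 ℚ) := by
      push_cast
      ring
    rw [e2] at h2
    rcases p.isPrime.mem_or_mem h2 with h3 | h3
    · have h4 := p.isPrime.mem_of_pow_mem 12 h3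
      push_cast
      exact Ideal.mul_mem_right _ _ h4
    · exact h3
  have h2 : ((2 * W.Δ : ℤ) : 𝓞 K) ∈ v.asIdeal := by
    rw [← hv] at h1
    have h3 : algebraMap (𝓞 ℚ) (𝓞 K) ((2 * W.Δ : ℤ) : 𝓞 ℚ) ∈ v.asIdeal := h1
    rwa [map_intCast] at h3
  exact Pool.Agent.R425.G.not_both hq hqv h2

theorem finrank_dvd {F L : Type} [Field F] [NumberField F] [Field L] [NumberField L]
    (e : F →+* L) : Module.finrank ℚ F ∣ Module.finrank ℚ L := by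
  letI : Algebra F L := e.toAlgebra
  haveI : IsScalarTower ℚ F L := IsScalarTower.of_algebraMap_eq fun x => by
    show algebraMap ℚ L x = e (algebraMap ℚ F x)
    rw [eq_ratCast, eq_ratCast, map_ratCast]
  exact Dvd.intro _ (Module.finrank_mul_finrank ℚ F L)

theorem mem_under {q : ℕ} (v : HeightOneSpectrum (𝓞 K)) {p : HeightOneSpectrum (𝓞 ℚ)}
    (hv : v.under (𝓞 ℚ) = p) : (q : 𝓞 K) ∈ v.asIdeal ↔ (q : 𝓞 ℚ) ∈ p.asIdeal := by
  rw [← hv]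
  show (q : 𝓞 K) ∈ v.asIdeal ↔ algebraMap (𝓞 ℚ) (𝓞 K) (q : 𝓞 ℚ) ∈ v.asIdeal
  rw [map_natCast]

end loc

section main

variable (W : WeierstrassCurve ℤ) (hΔ : W.Δ ≠ 0) (hΔ2 : ¬ (2 : ℤ) ∣ W.Δ) (ha1 : Even W.a₁)
  (m : ℕ) [NeZero m] (hmo : Odd m) (M : Type) [Field M] [NumberField M]
  [IsCyclotomicExtension {4 * m} ℚ M] (K : IntermediateField ℚ M) [IsGalois ℚ K]
  (n : ℕ) (hn : Module.finrank ℚ K = 2 ^ n)

include hΔ hΔ2 ha1 hmo hn in
/-- local triviality at the primes that divide `2 Δ` -/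
theorem loc_bad (h2d : (2 : ℤ) ∣ discr K)
    (hunr : ∀ (q : ℕ), q.Prime → (q : ℤ) ∣ 2 * W.Δ → q ≠ 2 → ∀ v : HeightOneSpectrum (𝓞 K),
      (q : 𝓞 K) ∈ v.asIdeal → v.valuation K (q : K) = exp (-1 : ℤ))
    (g : (AlgebraicClosure K ≃ₐ[ℚ] AlgebraicClosure K) → Pt (sh W) (AlgebraicClosure K))
    (hg : ∀ σ τ, g (σ * τ) = g σ + act (sh W) (ak σ) (g τ))
    (hloc : ∀ v : HeightOneSpectrum (𝓞 K),
      LocTriv (sh W) (v.adicCompletion K) (AlgebraicClosure (v.adicCompletion K))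
        (fun σ : AlgebraicClosure K ≃ₐ[K] AlgebraicClosure K => g (σ.restrictScalars ℚ)))
    (hodd : ∀ p : HeightOneSpectrum (𝓞 ℚ), Odd (cv W p)) (p : HeightOneSpectrum (𝓞 ℚ))
    (hp : p.valuation ℚ (2 * (sh W).Δ) ≠ 1) :
    LocTriv (F := ℚ) (Ω := AlgebraicClosure K) (sh W) (p.adicCompletion ℚ)
          (AlgebraicClosure (p.adicCompletion ℚ)) g := by
  obtain ⟨v, hv⟩ := Pool.Agent.TH115.GD.exists_over (R := 𝓞 ℚ) (B := 𝓞 K) p
  obtain ⟨q, hq, hqv⟩ := exists_prime_mem v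
  have hqΔ := below_dvd W p hp hq v hv hqv
  by_cases hq2 : q = 2
  · subst hq2
    haveI : NeZero (4 * m) := ⟨mul_ne_zero (by norm_num) (NeZero.ne m)⟩
    obtain ⟨M1, i, hM1, hii, hgen, c, hc1, hci⟩ := cyc_data m hmo M
    obtain ⟨K2, e, d, he, hd⟩ := sub_data m hmo M K M1 i hii hgen c hc1 hci
    haveI := hM1
    have h2p : ((2 : ℕ) : 𝓞 ℚ) ∈ p.asIdeal := (mem_under v hv).1 hqv
    obtain ⟨u, hu⟩ := Pool.Agent.TH115.GD.exists_over (R := 𝓞 ℚ) (B := 𝓞 M1) p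
    have h2u : ((2 : ℕ) : 𝓞 M1) ∈ u.asIdeal := (mem_under u hu).2 h2p
    have hu2 : u.valuation M1 ((2 : ℕ) : M1) = exp (-1 : ℤ) :=
      Pool.Agent.Y702.Fn.val_cyc m M1 Nat.prime_two (by
        rw [← even_iff_two_dvd]
        exact Nat.not_even_iff_odd.2 hmo) u h2u
    have hval := Pool.Agent.Y702.G.val_eq u p hu 2 hu2
    have hp2 : p.valuation ℚ (2 : ℚ) = exp (-1 : ℤ) := by
      rw [← hval]
      rw [← hu2]
      norm_num
    haveI : IsGalois ℚ M1 := IsCyclotomicExtension.isGalois {m} ℚ M1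
    haveI : IsGalois ℚ K2 := Pool.Agent.Y702.L.gal_F m M1 K2
    -- the degree of `K2`
    obtain ⟨n2, hn2⟩ : ∃ n2, Module.finrank ℚ K2 = 2 ^ n2 := by
      have h2 : Module.finrank ℚ K2 ∣ 2 ^ n := by
        rw [← hn]
        exact finrank_dvd e
      obtain ⟨k, -, hk⟩ := (Nat.dvd_prime_pow Nat.prime_two).1 h2
      exact ⟨k, hk⟩
    obtain ⟨s, hs⟩ := ev_of_disc K hn Nat.prime_two (by exact_mod_cast h2d) v hqv
    have hs' : v.valuation K (2 : K) = v.valuation K s ^ 2 := by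
      rw [hs]
      norm_num
    exact spl2 W hΔ hn2 ha1 (a3_odd hΔ2 ha1) e d hd (M1.val : M1 →+* M) hii hgen
      (K.val : K →+* M) (K2.val : K2 →+* M1) (fun x => he x) g hg v p u hval ⟨s, hs'⟩ hp2 h2p hqv
      (hodd p) (hloc v)
  · have h1 := hunr q hq hqΔ hq2 v hqv
    exact splu W hΔ hn g hg v p (Pool.Agent.Y702.G.val_eq v p hv q h1) (hodd p) (hloc v)

include hΔ2 ha1 hmo hn in
/-- negative discriminant -/
theorem sel_main4 (hΔn : W.Δ < 0) (hnr : ∀ x : ℚ, cub (sh W) x ≠ 0)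
    (hsha : ∀ s : Pool.Agent.TH841.NF.D.Sha (base W ℚ), 2 • s = 0 → s = 0)
    (hfin : Finite (base W ℚ).toAffine.Point) (hcard : Odd (Nat.card (base W ℚ).toAffine.Point))
    (h2d : (2 : ℤ) ∣ discr K) (m' : ℕ)
    (hm : ∀ l : ℕ, l.Prime → l ∣ m' → ¬ (l : ℤ) ∣ 2 * W.Δ ∧ Odd ((l : ℤ) - pts W (ZMod l)))
    (hunr : ∀ (p : ℕ), p.Prime → ¬ p ∣ m' → p ≠ 2 → ∀ v : HeightOneSpectrum (𝓞 K),
      (p : 𝓞 K) ∈ v.asIdeal → v.valuation K (p : K) = exp (-1 : ℤ))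
    (hodd : ∀ p : HeightOneSpectrum (𝓞 ℚ), Odd (cv W p)) : SelTriv (sh W) K := by
  have hV : (sh W).Δ ≠ 0 := Y355.G.sh_disc hΔn.ne
  have hnrK := Pool.Agent.Y702.G.no_root (sh W) hnr K n hn
  by_contra hcon
  obtain ⟨g, hg1, hg2, hg3, hg4, hg5⟩ :=
    Pool.Agent.Y93.G.s_inv (sh W) rfl rfl hV K n hn hnrK hcon
  obtain ⟨A, M', iA, iA', iM, iM', iAM, iKM, θ, z, hθ, hA, hM, hz0, hzn, hzs, hloc, i, t, hrel⟩ :=
    Pool.Agent.Y141.G2.s_kump (sh W) rfl rfl hV K n hn hnrK g hg1 hg2 hg3 hg4 hg5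
  apply hg5
  have hpar := s_par2 W hΔn.ne K A M' θ z m' hθ hnr hA hM hz0 hzn hm
    (fun p hp hpm hpΔ v hv => hunr p hp hpm (by
      rintro rfl
      exact hpΔ (Dvd.intro _ rfl)) v hv) hloc
  refine Pool.Agent.Y125.DQ.s_descq W hΔn hsha hfin hcard K g hg1 hg2 hg3 fun p => ?_
  by_cases hp : p.valuation ℚ (2 * (sh W).Δ) = 1
  · exact (Pool.Agent.Y710.CV.s_conv Pool.Agent.Y46.G2.s_emb) (sh W) rfl rfl hV hnr K g hg1 hg2
      hg3 A θ z hθ hA i t hrel p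
      ((Pool.Agent.Y67.LZ.s_lz Pool.Agent.Y500.G.s_fl) W hΔn.ne hnr A θ z hθ hA hz0 hzn hpar p hp)
  · refine loc_bad W hΔn.ne hΔ2 ha1 m hmo M K n hn h2d (fun q hq hqΔ hq2 v hv => ?_) g hg2 hg4
      hodd p hp
    exact hunr q hq (fun h => (hm q hq h).1 hqΔ) hq2 v hv

include hΔ hΔ2 ha1 hmo hn in
/-- positive discriminant -/
theorem selT_up4 (hnr : ∀ x : ℚ, cub (sh W) x ≠ 0) (hsQ : SelT (sh W) ℚ)
    (hre : ∀ v : InfinitePlace K, v.IsReal)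
    (h2d : (2 : ℤ) ∣ discr K) (m' : ℕ)
    (hm : ∀ l : ℕ, l.Prime → l ∣ m' → ¬ (l : ℤ) ∣ 2 * W.Δ ∧ Odd ((l : ℤ) - pts W (ZMod l)))
    (hunr : ∀ (p : ℕ), p.Prime → ¬ p ∣ m' → p ≠ 2 → ∀ v : HeightOneSpectrum (𝓞 K),
      (p : 𝓞 K) ∈ v.asIdeal → v.valuation K (p : K) = exp (-1 : ℤ))
    (hodd : ∀ p : HeightOneSpectrum (𝓞 ℚ), Odd (cv W p)) : SelT (sh W) K := by
  have hV : (sh W).Δ ≠ 0 := Y355.G.sh_disc hΔ
  have hnrK := Pool.Agent.Y702.G.no_root (sh W) hnr K n hn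
  by_contra hcon
  obtain ⟨g, hg1, hg2, hg3, hg4, hg4', hg5⟩ := s_invP (sh W) rfl rfl hV K hre n hn hnrK hcon
  obtain ⟨A, M', iA, iA', iM, iM', iAM, iKM, θ, z, hθ, hA, hM, hz0, hzn, hzs, hloc, i, t, hrel⟩ :=
    Pool.Agent.Y141.G2.s_kump (sh W) rfl rfl hV K n hn hnrK g hg1 hg2 hg3 hg4 hg5
  apply hg5
  have hpar := s_par2 W hΔ K A M' θ z m' hθ hnr hA hM hz0 hzn hm
    (fun p hp hpm hpΔ v hv => hunr p hp hpm (by
      rintro rfl
      exact hpΔ (Dvd.intro _ rfl)) v hv) hloc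
  obtain ⟨v0⟩ : Nonempty (InfinitePlace K) := inferInstance
  have h := selT_use W (F := ℚ) (K := K) hsQ g ⟨hg1, fun σ τ => hg2 σ τ⟩ hg3 (fun p => by
    by_cases hp : p.valuation ℚ (2 * (sh W).Δ) = 1
    · exact (Pool.Agent.Y710.CV.s_conv Pool.Agent.Y46.G2.s_emb) (sh W) rfl rfl hV hnr K g hg1 hg2
        hg3 A θ z hθ hA i t hrel p
        ((Pool.Agent.Y67.LZ.s_lz Pool.Agent.Y500.G.s_fl) W hΔ hnr A θ z hθ hA hz0 hzn hpar p hp)
    · refine loc_bad W hΔ hΔ2 ha1 m hmo M K n hn h2d (fun q hq hqΔ hq2 v hv => ?_) g hg2 hg4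
        hodd p hp
      exact hunr q hq (fun h => (hm q hq h).1 hqΔ) hq2 v hv)
    (fun u => by
      have hu : u.IsReal := by
        rw [Subsingleton.elim u Rat.infinitePlace]
        exact Rat.isReal_infinitePlace
      exact loc_iso (sh W) g ((InfinitePlace.Completion.ringEquivRealOfIsReal hu).trans
        (InfinitePlace.Completion.ringEquivRealOfIsReal (hre v0)).symm) (hg4' v0))
  obtain ⟨T, hT, hT2⟩ := h
  exact ⟨T, hT, fun σ => hT2 σ⟩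

include hΔ hΔ2 ha1 hmo hn in
/-- **The algebraic side, going up.** -/
theorem alg_up4 (hnr : ∀ x : ℚ, cub (sh W) x ≠ 0)
    (hco : ∀ l : ℕ, l.Prime → l ≠ 2 → (l : ℤ) ∣ discr K → ¬ (l : ℤ) ∣ 2 * W.Δ)
    (htam : ∀ p : HeightOneSpectrum (𝓞 ℚ), Odd (cv W p))
    (h : Finite (base W ℚ).toAffine.Point ∧
        ∀ s : Pool.Agent.TH841.NF.D.Sha (base W ℚ), 2 • s = 0 → s = 0) (hA : CondB W K) :
    (Finite (base W K).toAffine.Point ∧
        ∀ s : Pool.Agent.TH841.NF.D.Sha (base W K), 2 • s = 0 → s = 0) := by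
  by_cases h2d : (2 : ℤ) ∣ discr K
  · have hnrK := Pool.Agent.Y702.G.no_root (sh W) hnr K n hn
    obtain ⟨hfin, hsha⟩ := h
    obtain ⟨hcx, hodd⟩ := hA
    -- the odd part of the discriminant
    set m' : ℕ := ∏ l ∈ ((discr K).natAbs.primeFactors).erase 2, l with hm'
    have hdvd : ∀ l : ℕ, l.Prime → (l ∣ m' ↔ l ≠ 2 ∧ (l : ℤ) ∣ discr K) := by
      intro l hl
      have hd0 : (discr K).natAbs ≠ 0 := Int.natAbs_ne_zero.2 (discr_ne_zero K)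
      constructor
      · intro h1
        obtain ⟨l', hl', hll'⟩ := (Nat.Prime.prime hl).exists_mem_finset_dvd h1
        rw [Finset.mem_erase, Nat.mem_primeFactors] at hl'
        obtain ⟨h2, h3, h4, -⟩ := hl'
        have h5 := (Nat.prime_dvd_prime_iff_eq hl h3).1 hll'
        subst h5
        exact ⟨h2, Int.natCast_dvd.2 h4⟩
      · rintro ⟨h1, h2⟩
        apply Finset.dvd_prod_of_mem (fun l => l)
        rw [Finset.mem_erase, Nat.mem_primeFactors]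
        exact ⟨h1, hl, Int.natCast_dvd.1 h2, hd0⟩
    have hm : ∀ l : ℕ, l.Prime → l ∣ m' →
        ¬ (l : ℤ) ∣ 2 * W.Δ ∧ Odd ((l : ℤ) - pts W (ZMod l)) := fun l hl hlm =>
      ⟨hco l hl ((hdvd l hl).1 hlm).1 ((hdvd l hl).1 hlm).2,
        hodd l hl ((hdvd l hl).1 hlm).1 ((hdvd l hl).1 hlm).2⟩
    have hunr : ∀ (p : ℕ), p.Prime → ¬ p ∣ m' → p ≠ 2 → ∀ v : HeightOneSpectrum (𝓞 K),
        (p : 𝓞 K) ∈ v.asIdeal → v.valuation K (p : K) = exp (-1 : ℤ) := fun p hp hpm hp2 v hv =>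
      unr_of_disc K hp (fun h => hpm ((hdvd p hp).2 ⟨hp2, h⟩)) v hv
    rcases lt_or_gt_of_ne hΔ with hneg | hpos
    · have hcard := card_odd W hΔ hnr hfin
      have hsel := sel_main4 W hΔ2 ha1 m hmo M K n hn hneg hnr hsha hfin hcard h2d m' hm hunr htam
      obtain ⟨h1, h2, h3⟩ := Pool.Agent.Y355.G.s_desc W hΔ K hsel hnrK
      exact ⟨h2, h1⟩
    · have hre : ∀ v : InfinitePlace K, v.IsReal := by
        intro v
        have hcx' := hcx hpos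
        rw [InfinitePlace.nrComplexPlaces, Fintype.card_eq_zero_iff] at hcx'
        by_contra hv
        exact hcx'.false ⟨v, InfinitePlace.not_isReal_iff_isComplex.1 hv⟩
      have hsQ := selT_of W ℚ hΔ hnr hfin hsha
      have hSK := selT_up4 W hΔ hΔ2 ha1 m hmo M K n hn hnr hsQ hre h2d m' hm hunr htam
      exact ⟨finite_of_selT W hΔ hSK, fun s hs => sha_two W hΔ hSK s hs⟩
  · refine alg_up W hΔ hnr K n hn (fun l hl hld => ?_) htam h ⟨hA.1, fun l hl hld => ?_⟩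
    · refine hco l hl ?_ hld
      rintro rfl
      exact h2d (by exact_mod_cast hld)
    · refine hA.2 l hl ?_ hld
      rintro rfl
      exact h2d (by exact_mod_cast hld)

include hΔ hn in
/-- **The algebraic side, going down.** -/
theorem alg_down4 (hnr : ∀ x : ℚ, cub (sh W) x ≠ 0)
    (hco : ∀ l : ℕ, l.Prime → l ≠ 2 → (l : ℤ) ∣ discr K → ¬ (l : ℤ) ∣ 2 * W.Δ)
    (h : Finite (base W K).toAffine.Point ∧
        ∀ s : Pool.Agent.TH841.NF.D.Sha (base W K), 2 • s = 0 → s = 0) :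
    (Finite (base W ℚ).toAffine.Point ∧
        ∀ s : Pool.Agent.TH841.NF.D.Sha (base W ℚ), 2 • s = 0 → s = 0) ∧ CondB W K := by
  have hnrK := Pool.Agent.Y702.G.no_root (sh W) hnr K n hn
  obtain ⟨hfin, hsha⟩ := h
  have hS := selT_of W K hΔ hnrK hfin hsha
  refine ⟨⟨fin_Q W hfin, sha_two W hΔ (selT_Q W hΔ hnrK hS)⟩, ?_, ?_⟩
  · intro hpos
    by_contra hcx
    apply selT_noC W K hpos hnrK hS
    intro v hv
    apply hcx
    rw [InfinitePlace.nrComplexPlaces, Fintype.card_eq_zero_iff]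
    refine ⟨fun ⟨w, hw⟩ => ?_⟩
    obtain ⟨σ, rfl⟩ := InfinitePlace.exists_smul_eq_of_comap_eq (k := ℚ) (K := K) (w := v) (w' := w)
      (Subsingleton.elim _ _)
    exact InfinitePlace.not_isReal_iff_isComplex.2 hw (InfinitePlace.isReal_smul_iff.2 hv)
  intro l hl hl2 hld
  by_contra hev
  obtain ⟨r, hr⟩ := Pool.Agent.R425.G.exists_root W hl (hco l hl hl2 hld) hev
  rcases lt_or_gt_of_ne hΔ with hneg | hpos
  · exact no_root_ram W K hneg hnrK hS hl (hco l hl hl2 hld) (ev_of_disc K hn hl hld) r hr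
  · exact selT_noP W K hpos hnrK hS hl (hco l hl hl2 hld) (ev_of_disc K hn hl hld) (Or.inl ⟨r, hr⟩)

end main

/-- the parity of the Tamagawa products -/
theorem tam_iff4 (W : WeierstrassCurve ℤ) {K : Type} [Field K] [NumberField K] [IsGalois ℚ K]
    (hW : W.Δ ≠ 0) {n : ℕ} (hn : Module.finrank ℚ K = 2 ^ n)
    (hbelow : ∀ v : HeightOneSpectrum (𝓞 K), ((W.Δ : ℤ) : 𝓞 K) ∈ v.asIdeal →
      (∀ x : ℚ, v.valuation K (algebraMap ℚ K x) = (v.under (𝓞 ℚ)).valuation ℚ x)) :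
    Odd (∏ᶠ v : HeightOneSpectrum (𝓞 K), cv W v) ↔ Odd (∏ᶠ v : HeightOneSpectrum (𝓞 ℚ), cv W v) := by
  rw [tam_odd_iff W hW, tam_odd_iff W hW]
  constructor
  · intro h p
    by_cases hp : ((W.Δ : ℤ) : 𝓞 ℚ) ∈ p.asIdeal
    · obtain ⟨v, hv⟩ := Pool.Agent.TH115.GD.exists_over (R := 𝓞 ℚ) (B := 𝓞 K) p
      have hΔv : ((W.Δ : ℤ) : 𝓞 K) ∈ v.asIdeal := by
        rw [← hv] at hp
        have h3 : algebraMap (𝓞 ℚ) (𝓞 K) ((W.Δ : ℤ) : 𝓞 ℚ) ∈ v.asIdeal := hp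
        rwa [map_intCast] at h3
      have h2 := hbelow v hΔv
      rw [hv] at h2
      exact (comp_parity hW hn h2).1 (h v)
    · rw [cv_one W p hp]
      exact odd_one
  · intro h v
    by_cases hv : ((W.Δ : ℤ) : 𝓞 K) ∈ v.asIdeal
    · exact (comp_parity hW hn (hbelow v hv)).2 (h _)
    · rw [cv_one W v hv]
      exact odd_one

/-- supersingular reduction at two -/
theorem a1_even {W : WeierstrassCurve ℤ} (hΔ2 : ¬ (2 : ℤ) ∣ W.Δ)
    (hss : Even (((2 : ℕ) : ℤ) - pts W (ZMod 2))) : Even W.a₁ := by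
  have key : ∀ a1 a2 a3 a4 a6 : ZMod 2, a1 ≠ 0 →
      (-(a1 ^ 2 + 4 * a2) ^ 2 * (a1 ^ 2 * a6 + 4 * a2 * a6 - a1 * a3 * a4 + a2 * a3 ^ 2 - a4 ^ 2) -
        8 * (2 * a4 + a1 * a3) ^ 3 - 27 * (a3 ^ 2 + 4 * a6) ^ 2 +
        9 * (a1 ^ 2 + 4 * a2) * (2 * a4 + a1 * a3) * (a3 ^ 2 + 4 * a6)) ≠ 0 →
      ¬ Even (Fintype.card {P : ZMod 2 × ZMod 2 // P.2 ^ 2 + a1 * P.1 * P.2 + a3 * P.2 =
        P.1 ^ 3 + a2 * P.1 ^ 2 + a4 * P.1 + a6}) := by decide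
  by_contra hodd
  have hcard : pts W (ZMod 2) = Fintype.card {P : ZMod 2 × ZMod 2 //
      P.2 ^ 2 + (W.a₁ : ZMod 2) * P.1 * P.2 + (W.a₃ : ZMod 2) * P.2 =
        P.1 ^ 3 + (W.a₂ : ZMod 2) * P.1 ^ 2 + (W.a₄ : ZMod 2) * P.1 + (W.a₆ : ZMod 2)} := by
    rw [← Nat.card_eq_fintype_card]
    apply Nat.card_congr
    apply Equiv.subtypeEquivRight
    intro P
    rw [Affine.equation_iff]
    exact Iff.rfl
  refine key (W.a₁ : ZMod 2) (W.a₂ : ZMod 2) (W.a₃ : ZMod 2) (W.a₄ : ZMod 2) (W.a₆ : ZMod 2)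
    ?_ ?_ ?_
  · intro h
    apply hodd
    rw [even_iff_two_dvd]
    exact (ZMod.intCast_zmod_eq_zero_iff_dvd _ 2).1 h
  · intro h
    apply hΔ2
    apply (ZMod.intCast_zmod_eq_zero_iff_dvd _ 2).1
    rw [← h]
    unfold WeierstrassCurve.Δ WeierstrassCurve.b₈ WeierstrassCurve.b₂ WeierstrassCurve.b₄
      WeierstrassCurve.b₆
    push_cast
    ring
  · rw [← hcard]
    have h1 : Even ((pts W (ZMod 2) : ℕ) : ℤ) := by
      have h2 : ((pts W (ZMod 2) : ℕ) : ℤ) = ((2 : ℕ) : ℤ) - (((2 : ℕ) : ℤ) - pts W (ZMod 2)) := by ring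
      rw [h2]
      exact (by decide : Even ((2 : ℕ) : ℤ)).sub hss
    exact_mod_cast h1

end Pool.Agent.K4H53.BSR
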