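import Pool.Agent.Y18.JT.Disc2
import Pool.Agent.K4H53.BSD.Eul
import Pool.Agent.Y702.L.Eu
import Pool.Agent.Y702.L.Main
import Pool.Agent.K4H53.BSR.Prod4

/-!
# The conductor-discriminant formula for subfields of the cyclotomic field of conductor `4 m`
-/

set_option autoImplicit false
set_option linter.all false

open Ideal NumberField

namespace Pool.Agent.K4H53.BSR

open Pool.Agent.Y18.JT
open Pool.Agent.Y702

lemma e_mul_rr {ℓ : ℕ} (hℓ : ℓ.Prime) (F : Type*) [Field F] [NumberField F] [IsGalois ℚ F]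
    {P : Ideal (𝓞 F)} (hP : P ∈ PR ℓ F) :
    P.ramificationIdx ℤ * rr ℓ F = Module.finrank ℚ F := by
  have := span_isMaximal hℓ
  have h0 := Ideal.sum_ramification_inertia (𝓞 F) ℚ F (p := span {(ℓ : ℤ)}) (span_ne_bot hℓ)
  rw [← h0, rr, Finset.mul_sum]
  refine Finset.sum_congr rfl fun Q hQ => ?_
  have hQ' := (mem_PR hℓ).1 hQ
  have hP' := (mem_PR hℓ).1 hP
  haveI h1 := hQ'.1
  haveI h2 : Q.LiesOver (span {(ℓ : ℤ)}) := hQ'.2
  haveI h3 := hP'.1
  haveI h4 : P.LiesOver (span {(ℓ : ℤ)}) := hP'.2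
  have h5 : (span {(ℓ : ℤ)}).ramificationIdx' Q = P.ramificationIdx ℤ := by
    rw [Ideal.ramificationIdx'_eq_ramificationIdx _ _ (span_ne_bot hℓ)]
    exact Ideal.ramificationIdx_eq_of_isGaloisGroup (span {(ℓ : ℤ)}) Q P Gal(F/ℚ)
  have h6 : (absNorm Q).factorization ℓ = (span {(ℓ : ℤ)}).inertiaDeg' Q := by
    rw [absNorm_eq_pow_inertiaDeg' Q hℓ, hℓ.factorization_pow]
    simp
  rw [h5, h6]

lemma exists_PR {ℓ : ℕ} (hℓ : ℓ.Prime) (F : Type*) [Field F] [NumberField F] :
    ∃ P : Ideal (𝓞 F), P ∈ PR ℓ F := by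
  have h1 : (span {(ℓ : 𝓞 F)}) ≠ ⊤ := by
    intro h
    rw [Ideal.span_singleton_eq_top] at h
    have h2 := h.map (Algebra.norm ℤ)
    rw [← map_natCast (algebraMap ℤ (𝓞 F)), Algebra.norm_algebraMap] at h2
    have h3 := Int.isUnit_iff_natAbs_eq.1 h2
    rw [Int.natAbs_pow, Int.natAbs_natCast] at h3
    have h4 : 0 < Module.finrank ℤ (𝓞 F) := Module.finrank_pos
    exact (Nat.one_lt_pow h4.ne' hℓ.one_lt).ne' h3
  obtain ⟨P, hP, hle⟩ := Ideal.exists_le_maximal _ h1
  exact ⟨P, (mem_PR_iff hℓ).2 ⟨hP.isPrime, hle (Ideal.mem_span_singleton_self _)⟩⟩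

section two

variable (m n : ℕ) [NeZero n] (L : Type) [Field L] [NumberField L]
  [hL : IsCyclotomicExtension {n} ℚ L]

lemma disc_L2 (hodd : Odd m) (hn : n = 4 * m) :
    (discr L).natAbs.factorization 2 = Module.finrank ℚ L := by
  classical
  rw [IsCyclotomicExtension.Rat.finrank n L, IsCyclotomicExtension.Rat.natAbs_discr n L]
  have hdvd := Nat.prod_primeFactors_pow_totient_ediv_dvd (n := n) (NeZero.pos n)
  have hn0 : n ≠ 0 := NeZero.ne n
  have h2m : ¬ 2 ∣ m := by
    rintro ⟨t, ht⟩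
    obtain ⟨s, hs⟩ := hodd
    omega
  have hm0 : m ≠ 0 := by rintro rfl; simp at hodd
  have h2n : 2 ∣ n := ⟨2 * m, by rw [hn]; ring⟩
  have hv1 : (n ^ n.totient).factorization 2 = 2 * n.totient := by
    have hf : n.factorization 2 = 2 := by
      rw [hn, show 4 = 2 ^ 2 by norm_num, Nat.factorization_mul (by norm_num) hm0,
        Nat.prime_two.factorization_pow]
      simp [Nat.factorization_eq_zero_of_not_dvd h2m]
    rw [Nat.factorization_pow, Finsupp.smul_apply, hf, smul_eq_mul]
    ring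
  have hv2 : (∏ p ∈ n.primeFactors, p ^ (n.totient / (p - 1))).factorization 2 = n.totient := by
    rw [Nat.factorization_prod (fun p hp => pow_ne_zero _ (Nat.prime_of_mem_primeFactors hp).ne_zero),
      Finsupp.finset_sum_apply, Finset.sum_eq_single 2]
    · rw [Nat.prime_two.factorization_pow, Finsupp.single_eq_same]
      simp
    · intro p hp hne
      rw [(Nat.prime_of_mem_primeFactors hp).factorization_pow, Finsupp.single_eq_of_ne]
      exact fun h => hne h.symm
    · intro h
      exact absurd (Nat.mem_primeFactors.2 ⟨Nat.prime_two, h2n, hn0⟩) h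
  rw [Nat.factorization_div hdvd, Finsupp.tsub_apply, hv1, hv2]
  omega

lemma e_L2 (hodd : Odd m) (hn : n = 4 * m) {Q : Ideal (𝓞 L)} (hQ : Q ∈ PR 2 L) :
    Q.ramificationIdx ℤ = 2 := by
  have h2m : ¬ 2 ∣ m := by
    rintro ⟨t, ht⟩
    obtain ⟨s, hs⟩ := hodd
    omega
  have hQ' := (mem_PR Nat.prime_two).1 hQ
  haveI h1 := hQ'.1
  haveI h2 : Q.LiesOver (span {((2 : ℕ) : ℤ)}) := hQ'.2
  haveI : Fact (Nat.Prime 2) := ⟨Nat.prime_two⟩
  have h := IsCyclotomicExtension.Rat.ramificationIdx_eq (p := 2) (k := 1) (m := m) n L Q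
    (by rw [hn]; norm_num) h2m
  simpa using h

theorem disc_two (hodd : Odd m) (hn : n = 4 * m) (F : IntermediateField ℚ L) :
    (discr F).natAbs.factorization 2 + 2 * rr 2 F = 2 * Module.finrank ℚ F := by
  classical
  have hp := Nat.prime_two
  haveI hgalF : IsGalois ℚ F := Pool.Agent.Y702.L.gal_F n L F
  obtain ⟨P0, hP0⟩ := exists_PR hp F
  set e := P0.ramificationIdx ℤ with he
  have her := e_mul_rr hp F hP0
  rw [← he] at her
  have hfr0 : 0 < Module.finrank ℚ F := Module.finrank_pos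
  have hrr0 : 0 < rr 2 F := by
    rcases Nat.eq_zero_or_pos (rr 2 F) with h | h
    · rw [h, mul_zero] at her
      omega
    · exact h
  have hall : ∀ P ∈ PR 2 F, P.ramificationIdx ℤ = e := by
    intro P hP
    have h1 := e_mul_rr hp F hP
    rw [← her] at h1
    exact Nat.eq_of_mul_eq_mul_right hrr0 h1
  -- the primes of `L`
  have htow : ∀ Q ∈ PR 2 L, e * Q.ramificationIdx (𝓞 F) = 2 := by
    intro Q hQ
    have hQ' := (mem_PR_iff hp).1 hQ
    haveI := hQ'.1
    have hQu : Q.under (𝓞 F) ∈ PR 2 F := by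
      rw [mem_PR_iff hp]
      refine ⟨inferInstance, ?_⟩
      rw [Ideal.under_def, Ideal.mem_comap, map_natCast]
      exact hQ'.2
    haveI : Q.LiesOver (Q.under (𝓞 F)) := ⟨rfl⟩
    have h1 := Ideal.ramificationIdx_tower (R := ℤ) (Q.under (𝓞 F)) Q
    rw [e_L2 m n L hodd hn hQ, hall _ hQu] at h1
    exact h1.symm
  obtain ⟨Q0, hQ0⟩ := exists_PR hp L
  have h2 := htow Q0 hQ0
  have hcases : e = 1 ∨ e = 2 := (Nat.dvd_prime hp).1 ⟨_, h2.symm⟩
  rcases hcases with h1 | h1
  · -- unramified
    have hnd : ¬ ((2 : ℕ) : ℤ) ∣ discr F := by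
      rw [not_dvd_discr_iff_forall_mem F (𝓞 F) (Nat.prime_iff_prime_int.1 hp)]
      intro P hP h2P
      have hPm : P ∈ PR 2 F := (mem_PR_iff hp).2 ⟨hP, by simpa using h2P⟩
      rw [Algebra.isUnramifiedAt_iff_of_isDedekindDomain, hall P hPm, h1]
    have hv : (discr F).natAbs.factorization 2 = 0 := by
      apply Nat.factorization_eq_zero_of_not_dvd
      intro h
      exact hnd (Int.natCast_dvd.2 h)
    rw [h1, one_mul] at her
    omega
  · have hnd : ¬ 2 ∣ absNorm (differentIdeal (𝓞 F) (𝓞 L)) := by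
      intro h
      obtain ⟨Q, hQ, hQ1, hQ2⟩ := Ideal.exists_isMaximal_dvd_of_dvd_absNorm
        (Nat.prime_iff_prime_int.1 hp) (differentIdeal (𝓞 F) (𝓞 L)) (by exact_mod_cast h)
      have hQm : Q ∈ PR 2 L := by
        rw [mem_PR_iff hp]
        refine ⟨hQ.isPrime, ?_⟩
        have h3 : ((2 : ℕ) : ℤ) ∈ Q.under ℤ := by
          rw [hQ1]; exact Ideal.mem_span_singleton_self _
        simpa [Ideal.mem_comap] using h3
      have h4 := htow Q hQm
      rw [h1] at h4
      haveI := hQ.isPrime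
      have h5 : Algebra.IsUnramifiedAt (𝓞 F) Q := by
        rw [Algebra.isUnramifiedAt_iff_of_isDedekindDomain]
        omega
      exact (not_dvd_differentIdeal_iff (A := 𝓞 F)).2 h5 hQ2
    have hfr : Module.finrank (𝓞 F) (𝓞 L) = Module.finrank F L :=
      (IsFractionRing.finrank_eq (𝓞 F) F (𝓞 L) L).symm
    have h2' := natAbs_discr_eq_absNorm_differentIdeal_mul_natAbs_discr_pow F (𝓞 F) L (𝓞 L)
    have hdK : (discr F).natAbs ≠ 0 := Int.natAbs_ne_zero.2 (discr_ne_zero F)
    have hdL : (discr L).natAbs ≠ 0 := Int.natAbs_ne_zero.2 (discr_ne_zero L)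
    have hN : absNorm (differentIdeal (𝓞 F) (𝓞 L)) ≠ 0 := by
      intro h0
      rw [h0, zero_mul] at h2'
      exact hdL h2'
    have h3 : (discr L).natAbs.factorization 2 = _ := congrArg (fun x => x.factorization 2) h2'
    rw [Nat.factorization_mul hN (pow_ne_zero _ hdK), Nat.factorization_pow] at h3
    simp only [Finsupp.add_apply, Finsupp.smul_apply, smul_eq_mul] at h3
    rw [disc_L2 m n L hodd hn, Nat.factorization_eq_zero_of_not_dvd hnd, zero_add,
      ← Module.finrank_mul_finrank ℚ F L, mul_comm (Module.finrank F L)] at h3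
    have hpos : 0 < Module.finrank F L := Module.finrank_pos
    have h6 := Nat.eq_of_mul_eq_mul_right hpos h3
    rw [h1] at her
    omega

lemma disc_odd (hsq : Squarefree m) (hn : n = 4 * m) {ℓ : ℕ} (hℓ : ℓ.Prime) (hℓ2 : ℓ ≠ 2) :
    (discr L).natAbs.factorization ℓ + rr ℓ L ≤ Module.finrank ℚ L := by
  classical
  rw [IsCyclotomicExtension.Rat.finrank n L, IsCyclotomicExtension.Rat.natAbs_discr n L]
  have hdvd := Nat.prod_primeFactors_pow_totient_ediv_dvd (n := n) (NeZero.pos n)
  have hn0 : n ≠ 0 := NeZero.ne n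
  have hl4 : ¬ ℓ ∣ 4 := by
    intro h
    have : ℓ ∣ 2 ^ 2 := by norm_num; exact h
    exact hℓ2 ((Nat.prime_dvd_prime_iff_eq hℓ Nat.prime_two).1 (hℓ.dvd_of_dvd_pow this))
  by_cases h : ℓ ∣ n
  · obtain ⟨r, hr⟩ : ℓ ∣ m := ((Nat.Prime.dvd_mul hℓ).1 (hn ▸ h)).resolve_left hl4
    set m' := 4 * r with hm'def
    have hm : n = ℓ * m' := by rw [hn, hr, hm'def]; ring
    have hm' : ¬ ℓ ∣ m' := by
      intro h1
      rcases (Nat.Prime.dvd_mul hℓ).1 h1 with h2 | ⟨s, hs⟩
      · exact hl4 h2
      · rw [hs, ← mul_assoc] at hr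
        exact hℓ.one_lt.ne' (Nat.isUnit_iff.1 (hsq ℓ ⟨s, hr⟩))
    have hr := rr_cyc_le n L hℓ m' hm' (Or.inr (by rw [hm, mul_comm]))
    have hco : Nat.Coprime ℓ m' := (Nat.Prime.coprime_iff_not_dvd hℓ).2 hm'
    have hm'0 : m' ≠ 0 := by rintro h0; rw [h0] at hm; simp at hm; exact hn0 hm
    have htot : n.totient = (ℓ - 1) * m'.totient := by
      rw [hm, Nat.totient_mul hco, Nat.totient_prime hℓ]
    have hl1 : 0 < ℓ - 1 := Nat.sub_pos_of_lt hℓ.one_lt
    have hquot : n.totient / (ℓ - 1) = m'.totient := by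
      rw [htot, Nat.mul_div_cancel_left _ hl1]
    have hv1 : (n ^ n.totient).factorization ℓ = n.totient := by
      have hf : n.factorization ℓ = 1 := by
        rw [hm, Nat.factorization_mul hℓ.ne_zero hm'0, Finsupp.add_apply,
          Nat.factorization_eq_zero_of_not_dvd hm', hℓ.factorization]
        simp
      rw [Nat.factorization_pow, Finsupp.smul_apply, hf, smul_eq_mul, mul_one]
    have hv2 : (∏ p ∈ n.primeFactors, p ^ (n.totient / (p - 1))).factorization ℓ = m'.totient := by
      rw [Nat.factorization_prod (fun p hp => pow_ne_zero _ (Nat.prime_of_mem_primeFactors hp).ne_zero),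
        Finsupp.finset_sum_apply, Finset.sum_eq_single ℓ]
      · rw [hℓ.factorization_pow, Finsupp.single_eq_same, hquot]
      · intro p hp hne
        rw [(Nat.prime_of_mem_primeFactors hp).factorization_pow, Finsupp.single_eq_of_ne]
        exact fun h => hne h.symm
      · intro h
        exact absurd (Nat.mem_primeFactors.2 ⟨hℓ, ⟨m', hm⟩, hn0⟩) h
    rw [Nat.factorization_div hdvd, Finsupp.tsub_apply, hv1, hv2]
    have : m'.totient ≤ n.totient := by
      rw [htot]
      exact Nat.le_mul_of_pos_left _ hl1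
    omega
  · have hr := rr_cyc_le n L hℓ n h (Or.inl rfl)
    have hv : (n ^ n.totient / ∏ p ∈ n.primeFactors, p ^ (n.totient / (p - 1))).factorization ℓ
        = 0 := by
      apply Nat.factorization_eq_zero_of_not_dvd
      intro h1
      exact h (hℓ.dvd_of_dvd_pow (h1.trans (Nat.div_dvd_of_dvd hdvd)))
    rw [hv, zero_add]
    exact hr

theorem s_discr4 (hsq : Squarefree m) (hodd : Odd m) (hn : n = 4 * m) (F : IntermediateField ℚ L) :
    (discr F).natAbs = ∏ᶠ χ : H300.HW.YY n L F, (χ : DirichletCharacter ℂ n).conductor := by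
  classical
  have hpts := Pool.Agent.Y702.L.s_points
  have hgal : IsGalois ℚ L := IsCyclotomicExtension.isGalois {n} ℚ L
  have hcond : ∀ χ : DirichletCharacter ℂ n, χ.conductor ≠ 0 := fun χ =>
    χ.conductor_ne_zero
  have hdvd : ∀ χ : DirichletCharacter ℂ n, χ.conductor ∣ n := fun χ => χ.conductor_dvd_level
  have hfin : Finite (H300.HW.YY n L F) := inferInstance
  have : Fintype (H300.HW.YY n L F) := Fintype.ofFinite _
  rw [finprod_eq_prod_of_fintype]
  apply Nat.eq_of_factorization_eq (Int.natAbs_ne_zero.2 (discr_ne_zero F))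
    (Finset.prod_ne_zero_iff.2 fun χ _ => hcond _)
  intro ℓ
  by_cases hℓ : ℓ.Prime
  swap
  · rw [Nat.factorization_eq_zero_of_not_prime _ hℓ, Nat.factorization_eq_zero_of_not_prime _ hℓ]
  have : Fact ℓ.Prime := ⟨hℓ⟩
  have hrk : Module.finrank ℚ F = Fintype.card (H300.HW.YY n L F) := by
    rw [IntermediateField.finrank_eq_fixingSubgroup_index, ← H300.HW.card_YY n L F,
      Nat.card_eq_fintype_card]
  -- the number of unramified characters
  have hM0 : MM ℓ F * n.totient ≠ 0 :=
    mul_ne_zero (MM_ne_zero hℓ) (Nat.totient_pos.2 (NeZero.pos n)).ne'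
  let k := GaloisField ℓ (MM ℓ F * n.totient)
  have hk : Nat.card k = ℓ ^ (MM ℓ F * n.totient) := GaloisField.card ℓ _ hM0
  have h2 := rr_eq_card (K := F) hℓ k _ hk (fun P hP => (dvd_MM hP).mul_right _)
  have h3 := (hpts n L F k).2
  rw [finsum_eq_sum_of_fintype, h2] at h3
  have h4 : ∀ χ : H300.HW.YY n L F,
      (χ : DirichletCharacter ℂ n).primitiveCharacter (Nat.card k : ZMod _) =
        if ℓ ∣ (χ : DirichletCharacter ℂ n).conductor then 0 else 1 := by
    intro χ
    set c := (χ : DirichletCharacter ℂ n).conductor with hc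
    rw [hk]
    split_ifs with h
    · apply MulChar.map_nonunit
      rw [ZMod.isUnit_iff_coprime]
      intro h5
      have h6 : Nat.Coprime ℓ c := h5.coprime_dvd_left (dvd_pow_self ℓ hM0)
      rw [Nat.Prime.coprime_iff_not_dvd hℓ] at h6
      exact h6 h
    · have h5 : Nat.Coprime ℓ c := (Nat.Prime.coprime_iff_not_dvd hℓ).2 h
      have h6 : c.totient ∣ MM ℓ F * n.totient := (Nat.totient_dvd_of_dvd (hdvd _)).mul_left _
      obtain ⟨r, hr⟩ := h6
      have h7 : ((ℓ ^ (MM ℓ F * n.totient) : ℕ) : ZMod c) = 1 := by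
        have h8 := Nat.ModEq.pow_totient h5
        have h9 := (h8.pow r)
        rw [← pow_mul, ← hr, one_pow] at h9
        have h10 := (ZMod.natCast_eq_natCast_iff _ _ _).2 h9
        rw [h10, Nat.cast_one]
      rw [h7, map_one]
  rw [Finset.sum_congr rfl (fun χ _ => h4 χ)] at h3
  have h5 : (rr ℓ F : ℂ) = (((Finset.univ : Finset (H300.HW.YY n L F)).filter
      (fun χ : H300.HW.YY n L F => ¬ ℓ ∣ (χ : DirichletCharacter ℂ n).conductor)).card : ℂ) := by
    rw [h3, Finset.card_filter]
    push_cast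
    apply Finset.sum_congr rfl
    intro χ _
    split_ifs <;> simp_all
  have h6 := Nat.cast_injective (R := ℂ) h5
  have h8 := Finset.card_filter_add_card_filter_not (s := (Finset.univ : Finset (H300.HW.YY n L F)))
    (fun χ : H300.HW.YY n L F => ℓ ∣ (χ : DirichletCharacter ℂ n).conductor)
  rw [Finset.card_univ, ← hrk] at h8
  by_cases hℓ2 : ℓ = 2
  · subst hℓ2
    have h1 := disc_two m n L hodd hn F
    have h7 : (∏ χ : H300.HW.YY n L F, (χ : DirichletCharacter ℂ n).conductor).factorization 2 =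
        2 * ((Finset.univ : Finset (H300.HW.YY n L F)).filter
        (fun χ : H300.HW.YY n L F => 2 ∣ (χ : DirichletCharacter ℂ n).conductor)).card := by
      rw [Nat.factorization_prod (fun χ _ => hcond _), Finsupp.finset_sum_apply, Finset.card_filter,
        Finset.mul_sum]
      apply Finset.sum_congr rfl
      intro χ _
      split_ifs with h
      · obtain ⟨q', hq'odd, -, hq' | hq'⟩ := cond_Q4 m n hsq hodd hn (χ : DirichletCharacter ℂ n)
        · rw [hq'] at h
          obtain ⟨t, ht⟩ := hq'odd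
          omega
        · have hq0 : q' ≠ 0 := by rintro rfl; simp at hq'odd
          have h2q : ¬ 2 ∣ q' := by
            rintro ⟨t, ht⟩
            obtain ⟨s, hs⟩ := hq'odd
            omega
          rw [hq', show 4 = 2 ^ 2 by norm_num, Nat.factorization_mul (by norm_num) hq0,
            Nat.prime_two.factorization_pow]
          simp [Nat.factorization_eq_zero_of_not_dvd h2q]
      · rw [mul_zero]
        exact Nat.factorization_eq_zero_of_not_dvd h
    omega
  · have h1 := disc_eq (K := F) hℓ L (disc_odd m n L hsq hn hℓ hℓ2)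
    have h7 : (∏ χ : H300.HW.YY n L F, (χ : DirichletCharacter ℂ n).conductor).factorization ℓ =
        ((Finset.univ : Finset (H300.HW.YY n L F)).filter
        (fun χ : H300.HW.YY n L F => ℓ ∣ (χ : DirichletCharacter ℂ n).conductor)).card := by
      rw [Nat.factorization_prod (fun χ _ => hcond _), Finsupp.finset_sum_apply, Finset.card_filter]
      apply Finset.sum_congr rfl
      intro χ _
      split_ifs with h
      · have hl4 : ¬ ℓ ∣ 4 := by
          intro h
          have : ℓ ∣ 2 ^ 2 := by norm_num; exact h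
          exact hℓ2 ((Nat.prime_dvd_prime_iff_eq hℓ Nat.prime_two).1 (hℓ.dvd_of_dvd_pow this))
        apply le_antisymm
        · have h9 : (χ : DirichletCharacter ℂ n).conductor ∣ 4 * m := by
            rw [← hn]
            exact hdvd _
          have h10 := (Nat.factorization_le_iff_dvd (hcond _) (by
            rw [← hn]
            exact NeZero.ne n)).2 h9 ℓ
          refine h10.trans ?_
          rw [Nat.factorization_mul (by norm_num) hsq.ne_zero, Finsupp.add_apply,
            Nat.factorization_eq_zero_of_not_dvd hl4, zero_add]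
          exact hsq.natFactorization_le_one ℓ
        · exact hℓ.factorization_pos_of_dvd (hcond _) h
      · exact Nat.factorization_eq_zero_of_not_dvd h
    omega

end two

end Pool.Agent.K4H53.BSR
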