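import Pool.Agent.R425.P.Ma
import Pool.Agent.R425.G.Ma
import Pool.Agent.K4H53.BSD.Eul
import Pool.Agent.K4H53.BSR.Disc4

/-!
# The parity of the value over a subfield of the cyclotomic field of conductor `4 m`
-/

set_option autoImplicit false
set_option linter.all false

open Filter Topology MeasureTheory Set UpperHalfPlane MatrixGroups CongruenceSubgroup Finset
open NumberField IsDedekindDomain H300.HW NumberField.InfinitePlace

namespace Pool.Agent.K4H53.BSR

open Pool.Agent.Y18.BSD (co bv PG Cf tm lf exists_L)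
open Pool.Agent.Y702.L (pv conj_diff card_even_odd)
open Pool.Agent.Y702.G (IsForm kapG prod_kap factor twist factor_conj pts)
open Pool.Agent.R425.P (PerP)
open Pool.Agent.R425.G (PerA)
open Pool.Agent.K4H53.BSD (hasp2)

variable {W : WeierstrassCurve ℤ} {N : ℕ} [NeZero N]
  {f : CuspForm (Gamma0 N : Subgroup (GL (Fin 2) ℝ)) 2}

open Classical in
theorem l_mainP4 (hΔ : W.Δ ≠ 0) {Op Om : ℝ} {Λ : Set ℂ} {c s t : ℤ}
    (hf : IsForm W N f) (hP : PerP f Op Om Λ c s t) {l : ℕ} (hl : l.Prime) (hlN : ¬ l ∣ N)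
    (hl2 : l ≠ 2) (hlo : Odd ((l : ℤ) - pts W (ZMod l)))
    (ha2 : Even (((2 : ℕ) : ℤ) - pts W (ZMod 2)))
    (m n : ℕ) [NeZero n] (hsq : Squarefree m)
    (hodd : Odd m) (hn : n = 4 * m) (hco : Nat.Coprime n N)
    (L : Type) [Field L] [NumberField L] [IsCyclotomicExtension {n} ℚ L]
    (K : IntermediateField ℚ L) (k : ℕ) (hk : Module.finrank ℚ K = 2 ^ k) :
    ∃ G : ℂ → ℂ, Differentiable ℂ G ∧
      (∀ s : ℂ, 3 / 2 < s.re → HasProd (factor (K := K) W s) (G s)) ∧
      (G 1).im = 0 ∧ ∃ D M : ℤ, Odd D ∧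
        (Odd M ↔ (Odd s ∧ nrComplexPlaces K = 0 ∧
          ∀ l : ℕ, l.Prime → (l : ℤ) ∣ discr K → l ≠ 2 → Odd ((l : ℤ) - pts W (ZMod l)))) ∧
        |(D : ℝ)| * (‖G 1‖ * Real.sqrt |(discr K : ℝ)|) =
        |(M : ℝ)| * ((2 * Op) ^ nrRealPlaces K * (2 * Op * Om) ^ nrComplexPlaces K) := by
  have htw := fun χ : DirichletCharacter ℂ n => twist hf χ.conductor
    (Nat.Coprime.coprime_dvd_left χ.conductor_dvd_level hco) χ.primitiveCharacter
    χ.primitiveCharacter_isPrimitive
  choose Gc hG1 hG2 hG3 using htw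
  set G : ℂ → ℂ := fun s => ∏ χ : YY n L K, Gc χ s with hG
  have hGd : Differentiable ℂ G := by
    rw [hG]
    exact Differentiable.fun_finsetProd fun χ _ => hG1 χ
  have hGp : ∀ s : ℂ, 3 / 2 < s.re → HasProd (factor (K := K) W s) (G s) := by
    intro s hs
    haveI hgal' : IsGalois ℚ K := Pool.Agent.Y702.L.gal_F n L K
    have h1 := hasp2 W hΔ N f hf n L K (fun v _ => Pool.Agent.Y702.L.deg_pow hk v) Gc s hs
      (fun χ _ => hG2 χ s hs)
    rw [finprod_eq_prod_of_fintype] at h1
    exact h1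
  refine ⟨G, hGd, hGp, ?_, ?_⟩
  · -- reality
    set H : ℂ → ℂ := fun s => (starRingEnd ℂ) (G ((starRingEnd ℂ) s)) with hH
    have hHd : Differentiable ℂ H := conj_diff hGd
    have h1 : ∀ s : ℂ, 3 / 2 < s.re → H s = G s := by
      intro s hs
      have h2 := hGp ((starRingEnd ℂ) s) (by simpa using hs)
      have h3 := (hGp s hs).map (starRingEnd ℂ) Complex.continuous_conj
      have h4 : ((starRingEnd ℂ) ∘ factor (K := K) W s) = factor (K := K) W ((starRingEnd ℂ) s) := by
        funext v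
        exact (factor_conj s v).symm
      rw [h4] at h3
      have h5 := h2.unique h3
      show (starRingEnd ℂ) (G ((starRingEnd ℂ) s)) = G s
      rw [h5, Complex.conj_conj]
    have h2 : H = G := by
      have hHa : AnalyticOnNhd ℂ H Set.univ := fun z _ => hHd.analyticAt z
      have hGa : AnalyticOnNhd ℂ G Set.univ := fun z _ => hGd.analyticAt z
      refine hHa.eq_of_eventuallyEq hGa (z₀ := 2) ?_
      have hopen : IsOpen {s : ℂ | 3 / 2 < s.re} := isOpen_lt continuous_const Complex.continuous_re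
      filter_upwards [hopen.mem_nhds (show (2 : ℂ) ∈ {s : ℂ | 3 / 2 < s.re} by
        simp only [Set.mem_ofPred_eq]; norm_num)] with s hs
      exact h1 s hs
    have h3 := congrFun h2 1
    simp only [hH, map_one] at h3
    exact Complex.conj_eq_iff_im.1 h3
  · -- the value
    obtain ⟨D, M, hD, hM, hprod⟩ := prod_valP4 hf hP hl hlN hl2 hlo ha2 m n hsq hodd hn hco (YY n L K) k (by
      have hgal : IsGalois ℚ L := IsCyclotomicExtension.isGalois {n} ℚ L
      rw [card_YY, ← IntermediateField.finrank_eq_fixingSubgroup_index, hk])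
    have hdisc := s_discr4 m n L hsq hodd hn K
    rw [finprod_eq_prod_of_fintype] at hdisc
    obtain ⟨-, hodds⟩ := card_even_odd (n := n) (L := L) (F := K)
    have hM' : Odd (M * 2 ^ nrComplexPlaces K) ↔ (Odd s ∧ nrComplexPlaces K = 0 ∧
        ∀ l : ℕ, l.Prime → (l : ℤ) ∣ discr K → l ≠ 2 → Odd ((l : ℤ) - pts W (ZMod l))) := by
      rcases Nat.eq_zero_or_pos (nrComplexPlaces K) with hr2 | hr2
      · have hev : ∀ χ ∈ YY n L K, χ (-1) = 1 := by
          intro χ hχ
          by_contra hne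
          rw [hr2, Finset.card_eq_zero] at hodds
          have h1 : (⟨χ, hχ⟩ : YY n L K) ∈ (univ.filter
              (fun χ : YY n L K => ¬ (χ : DirichletCharacter ℂ n) (-1) = 1)) :=
            Finset.mem_filter.2 ⟨Finset.mem_univ _, hne⟩
          rw [hodds] at h1
          exact absurd h1 (Finset.notMem_empty _)
        rw [hr2, pow_zero, mul_one, hM hev]
        constructor
        · rintro ⟨h0, h⟩
          refine ⟨h0, rfl, fun l hl hld hl2' => ?_⟩
          have h1 : l ∣ ∏ χ : YY n L K, (χ : DirichletCharacter ℂ n).conductor := by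
            rw [← hdisc]
            exact Int.natCast_dvd.1 hld
          obtain ⟨χ, -, hχ⟩ := (Nat.Prime.prime hl).exists_mem_finset_dvd h1
          exact h χ.1 χ.2 l hl hχ hl2'
        · rintro ⟨h0, -, h⟩
          refine ⟨h0, fun χ hχ l hl hlc hl2' => ?_⟩
          refine h l hl ?_ hl2'
          rw [Int.natCast_dvd, hdisc]
          exact hlc.trans (Finset.dvd_prod_of_mem (fun χ : YY n L K =>
            (χ : DirichletCharacter ℂ n).conductor) (Finset.mem_univ (⟨χ, hχ⟩ : YY n L K)))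
      · constructor
        · intro h
          rw [Int.odd_mul] at h
          have h2 : Even ((2 : ℤ) ^ nrComplexPlaces K) := by
            rw [Int.even_pow]
            exact ⟨even_two, hr2.ne'⟩
          exact absurd h.2 (Int.not_odd_iff_even.2 h2)
        · rintro ⟨-, h, -⟩
          exact absurd h hr2.ne'
    refine ⟨D, M * 2 ^ nrComplexPlaces K, hD, hM', ?_⟩
    have e1 : D * ∏ χ : YY n L K, (gaussSum ((χ : DirichletCharacter ℂ n).primitiveCharacter)⁻¹
        (ZMod.stdAddChar (N := (χ : DirichletCharacter ℂ n).conductor)) * Gc χ 1) =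
        (∏ χ : YY n L K, kapG Op Om ((χ : DirichletCharacter ℂ n) (-1) = 1)) * M := by
      rw [← hprod]
      congr 1
      exact Finset.prod_congr rfl fun χ _ => hG3 χ.1
    rw [Finset.prod_mul_distrib] at e1
    have e2 := congrArg norm e1
    rw [norm_mul, norm_mul, norm_mul, prod_kap hP.Op_pos hP.Om_pos, norm_prod, Complex.norm_intCast,
      Complex.norm_intCast] at e2
    have e3 : ∏ χ : YY n L K, ‖gaussSum ((χ : DirichletCharacter ℂ n).primitiveCharacter)⁻¹
        (ZMod.stdAddChar (N := (χ : DirichletCharacter ℂ n).conductor))‖ =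
        Real.sqrt |(discr K : ℝ)| := by
      have h1 := s_discr4 m n L hsq hodd hn K
      rw [finprod_eq_prod_of_fintype] at h1
      have h2 : |(discr K : ℝ)| = ∏ χ : YY n L K, ((χ : DirichletCharacter ℂ n).conductor : ℝ) := by
        rw [← Int.cast_abs, Int.abs_eq_natAbs, h1]
        push_cast
        rfl
      rw [h2]
      symm
      rw [Real.sqrt_eq_iff_mul_self_eq (Finset.prod_nonneg fun χ _ => Nat.cast_nonneg _)
        (Finset.prod_nonneg fun χ _ => norm_nonneg _), ← Finset.prod_mul_distrib]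
      refine Finset.prod_congr rfl fun χ _ => ?_
      rw [← pow_two]
      symm
      exact H385.GaussAux.norm_sq_gaussSum
        (Pool.Agent.W440.TW.inv_primitive _ (χ : DirichletCharacter ℂ n).primitiveCharacter_isPrimitive)
    rw [e3] at e2
    rw [mul_comm ‖G 1‖]
    rw [e2]
    have e4 : |((M * 2 ^ nrComplexPlaces K : ℤ) : ℝ)| = |(M : ℝ)| * 2 ^ nrComplexPlaces K := by
      push_cast
      rw [abs_mul, abs_of_pos (show (0 : ℝ) < 2 ^ nrComplexPlaces K by positivity)]
    have e5 : (4 * Op * Om) ^ nrComplexPlaces K =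
        2 ^ nrComplexPlaces K * (2 * Op * Om) ^ nrComplexPlaces K := by
      rw [← mul_pow]
      congr 1
      ring
    rw [e4, e5]
    ring

open Classical in
theorem l_mainA4 (hΔ : W.Δ ≠ 0) {Op Om : ℝ} {Λ : Set ℂ} {c s t : ℤ}
    (hf : IsForm W N f) (hP : PerA f Op Om Λ c s t) {l : ℕ} (hl : l.Prime) (hlN : ¬ l ∣ N)
    (hl2 : l ≠ 2) (hlo : Odd ((l : ℤ) - pts W (ZMod l)))
    (ha2 : Even (((2 : ℕ) : ℤ) - pts W (ZMod 2)))
    (m n : ℕ) [NeZero n] (hsq : Squarefree m)
    (hodd : Odd m) (hn : n = 4 * m) (hco : Nat.Coprime n N)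
    (L : Type) [Field L] [NumberField L] [IsCyclotomicExtension {n} ℚ L]
    (K : IntermediateField ℚ L) (k : ℕ) (hk : Module.finrank ℚ K = 2 ^ k) :
    ∃ G : ℂ → ℂ, Differentiable ℂ G ∧
      (∀ s : ℂ, 3 / 2 < s.re → HasProd (factor (K := K) W s) (G s)) ∧
      (G 1).im = 0 ∧ ∃ D M : ℤ, Odd D ∧
        (Odd M ↔ (Odd s ∧ ∀ l : ℕ, l.Prime → (l : ℤ) ∣ discr K → l ≠ 2 → Odd ((l : ℤ) - pts W (ZMod l)))) ∧
        |(D : ℝ)| * (‖G 1‖ * Real.sqrt |(discr K : ℝ)|) =
        |(M : ℝ)| * ((2 * Op) ^ nrRealPlaces K * (4 * Op * Om) ^ nrComplexPlaces K) := by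
  have htw := fun χ : DirichletCharacter ℂ n => twist hf χ.conductor
    (Nat.Coprime.coprime_dvd_left χ.conductor_dvd_level hco) χ.primitiveCharacter
    χ.primitiveCharacter_isPrimitive
  choose Gc hG1 hG2 hG3 using htw
  set G : ℂ → ℂ := fun s => ∏ χ : YY n L K, Gc χ s with hG
  have hGd : Differentiable ℂ G := by
    rw [hG]
    exact Differentiable.fun_finsetProd fun χ _ => hG1 χ
  have hGp : ∀ s : ℂ, 3 / 2 < s.re → HasProd (factor (K := K) W s) (G s) := by
    intro s hs
    haveI hgal' : IsGalois ℚ K := Pool.Agent.Y702.L.gal_F n L K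
    have h1 := hasp2 W hΔ N f hf n L K (fun v _ => Pool.Agent.Y702.L.deg_pow hk v) Gc s hs
      (fun χ _ => hG2 χ s hs)
    rw [finprod_eq_prod_of_fintype] at h1
    exact h1
  refine ⟨G, hGd, hGp, ?_, ?_⟩
  · -- reality
    set H : ℂ → ℂ := fun s => (starRingEnd ℂ) (G ((starRingEnd ℂ) s)) with hH
    have hHd : Differentiable ℂ H := conj_diff hGd
    have h1 : ∀ s : ℂ, 3 / 2 < s.re → H s = G s := by
      intro s hs
      have h2 := hGp ((starRingEnd ℂ) s) (by simpa using hs)
      have h3 := (hGp s hs).map (starRingEnd ℂ) Complex.continuous_conj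
      have h4 : ((starRingEnd ℂ) ∘ factor (K := K) W s) = factor (K := K) W ((starRingEnd ℂ) s) := by
        funext v
        exact (factor_conj s v).symm
      rw [h4] at h3
      have h5 := h2.unique h3
      show (starRingEnd ℂ) (G ((starRingEnd ℂ) s)) = G s
      rw [h5, Complex.conj_conj]
    have h2 : H = G := by
      have hHa : AnalyticOnNhd ℂ H Set.univ := fun z _ => hHd.analyticAt z
      have hGa : AnalyticOnNhd ℂ G Set.univ := fun z _ => hGd.analyticAt z
      refine hHa.eq_of_eventuallyEq hGa (z₀ := 2) ?_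
      have hopen : IsOpen {s : ℂ | 3 / 2 < s.re} := isOpen_lt continuous_const Complex.continuous_re
      filter_upwards [hopen.mem_nhds (show (2 : ℂ) ∈ {s : ℂ | 3 / 2 < s.re} by
        simp only [Set.mem_ofPred_eq]; norm_num)] with s hs
      exact h1 s hs
    have h3 := congrFun h2 1
    simp only [hH, map_one] at h3
    exact Complex.conj_eq_iff_im.1 h3
  · -- the value
    obtain ⟨D, M, hD, hM, hprod⟩ := prod_valA4 hf hP hl hlN hl2 hlo ha2 m n hsq hodd hn hco (YY n L K) k (by
      have hgal : IsGalois ℚ L := IsCyclotomicExtension.isGalois {n} ℚ L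
      rw [card_YY, ← IntermediateField.finrank_eq_fixingSubgroup_index, hk])
    have hdisc := s_discr4 m n L hsq hodd hn K
    rw [finprod_eq_prod_of_fintype] at hdisc
    have hM' : Odd M ↔ (Odd s ∧ ∀ l : ℕ, l.Prime → (l : ℤ) ∣ discr K → l ≠ 2 →
        Odd ((l : ℤ) - pts W (ZMod l))) := by
      rw [hM]
      constructor
      · rintro ⟨h0, h⟩
        refine ⟨h0, fun l hl hld hl2' => ?_⟩
        have h1 : l ∣ ∏ χ : YY n L K, (χ : DirichletCharacter ℂ n).conductor := by
          rw [← hdisc]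
          exact Int.natCast_dvd.1 hld
        obtain ⟨χ, -, hχ⟩ := (Nat.Prime.prime hl).exists_mem_finset_dvd h1
        exact h χ.1 χ.2 l hl hχ hl2'
      · rintro ⟨h0, h⟩
        refine ⟨h0, fun χ hχ l hl hlc hl2' => ?_⟩
        refine h l hl ?_ hl2'
        rw [Int.natCast_dvd, hdisc]
        exact hlc.trans (Finset.dvd_prod_of_mem (fun χ : YY n L K =>
          (χ : DirichletCharacter ℂ n).conductor) (Finset.mem_univ (⟨χ, hχ⟩ : YY n L K)))
    refine ⟨D, M, hD, hM', ?_⟩
    have e1 : D * ∏ χ : YY n L K, (gaussSum ((χ : DirichletCharacter ℂ n).primitiveCharacter)⁻¹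
        (ZMod.stdAddChar (N := (χ : DirichletCharacter ℂ n).conductor)) * Gc χ 1) =
        (∏ χ : YY n L K, kapG Op Om ((χ : DirichletCharacter ℂ n) (-1) = 1)) * M := by
      rw [← hprod]
      congr 1
      exact Finset.prod_congr rfl fun χ _ => hG3 χ.1
    rw [Finset.prod_mul_distrib] at e1
    have e2 := congrArg norm e1
    rw [norm_mul, norm_mul, norm_mul, prod_kap hP.Op_pos hP.Om_pos, norm_prod, Complex.norm_intCast,
      Complex.norm_intCast] at e2
    have e3 : ∏ χ : YY n L K, ‖gaussSum ((χ : DirichletCharacter ℂ n).primitiveCharacter)⁻¹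
        (ZMod.stdAddChar (N := (χ : DirichletCharacter ℂ n).conductor))‖ =
        Real.sqrt |(discr K : ℝ)| := by
      have h1 := s_discr4 m n L hsq hodd hn K
      rw [finprod_eq_prod_of_fintype] at h1
      have h2 : |(discr K : ℝ)| = ∏ χ : YY n L K, ((χ : DirichletCharacter ℂ n).conductor : ℝ) := by
        rw [← Int.cast_abs, Int.abs_eq_natAbs, h1]
        push_cast
        rfl
      rw [h2]
      symm
      rw [Real.sqrt_eq_iff_mul_self_eq (Finset.prod_nonneg fun χ _ => Nat.cast_nonneg _)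
        (Finset.prod_nonneg fun χ _ => norm_nonneg _), ← Finset.prod_mul_distrib]
      refine Finset.prod_congr rfl fun χ _ => ?_
      rw [← pow_two]
      symm
      exact H385.GaussAux.norm_sq_gaussSum
        (Pool.Agent.W440.TW.inv_primitive _ (χ : DirichletCharacter ℂ n).primitiveCharacter_isPrimitive)
    rw [e3] at e2
    rw [mul_comm ‖G 1‖]
    rw [e2]
    ring

end Pool.Agent.K4H53.BSR
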