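import Mathlib
import Pool.Agent.K4H53.BSD.Fil2
import Pool.Agent.K4H53.BSD.H1

/-!
# The parameter `z = - x / y` is additive up to terms of order three if `a₁` is small
-/

set_option autoImplicit false
set_option linter.all false

open WeierstrassCurve WeierstrassCurve.Affine
open scoped NNReal Classical

namespace Pool.Agent.K4H53.BSR

open Pool.Agent.K4H53.BSD

variable {Ω : Type} [Field Ω] {w : Valuation Ω ℝ≥0} {W : WeierstrassCurve ℤ}

/-- the parameter of the opposite point -/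
theorem Z_neg3 {ρ : ℝ≥0} (ha : w ((W.a₁ : ℤ) : Ω) ≤ ρ) {P : (bs W Ω).toAffine.Point}
    (hP : In1 w P) (hρ : w (Z P) ≤ ρ) : w (Z (-P) + Z P) ≤ ρ ^ 3 := by
  rcases P with _ | ⟨x, y, h⟩
  · rw [← Point.zero_def, neg_zero]
    show w ((0 : Ω) + 0) ≤ _
    rw [add_zero, map_zero]; exact zero_le
  · have hx := hP _ _ _ rfl
    obtain ⟨g1, g2⟩ := w_y_gt h.1 hx
    have hx0 : w x ≠ 0 := (zero_lt_one.trans hx).ne'
    have hy0 : w y ≠ 0 := ((zero_lt_one.trans hx).trans g1).ne'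
    have hy : y ≠ 0 := by rintro rfl; exact hy0 (map_zero w)
    have h6 : w (x / y) ≤ ρ := by
      have : w (-x / y) ≤ ρ := hρ
      rwa [map_div₀, Valuation.map_neg, ← map_div₀] at this
    have h6' : w x ≤ ρ * w y := by
      rw [map_div₀, div_le_iff₀ (pos_iff_ne_zero.2 hy0)] at h6
      exact h6
    -- `1 ≤ ρ² x`
    have h7 : 1 ≤ ρ ^ 2 * w x := by
      rw [← w_Z h hx]
      exact mul_le_mul_left (pow_le_pow_left₀ zero_le hρ 2) _
    have h3 : w (W.a₁ * x + W.a₃) ≤ ρ ^ 2 * w y := by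
      refine w_add ?_ ?_
      · rw [map_mul]
        calc w ((W.a₁ : ℤ) : Ω) * w x ≤ ρ * (ρ * w y) := mul_le_mul' ha h6'
          _ = _ := by ring
      · refine (w_int w _).trans ?_
        calc (1 : ℝ≥0) ≤ ρ ^ 2 * w x := h7
          _ ≤ _ := mul_le_mul_right g1.le _
    have h3' : w (W.a₁ * x + W.a₃) < w y := by
      refine lt_of_le_of_lt ?_ g1
      refine w_add ?_ ((w_int w _).trans hx.le)
      rw [map_mul]; exact mul_le_of_le_one_left' (w_int w _)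
    have h4 : w (y + (W.a₁ * x + W.a₃)) = w y := by
      apply Valuation.map_add_eq_of_lt_left
      exact h3'
    have h5 : y + (W.a₁ * x + W.a₃) ≠ 0 := by
      intro h0
      rw [h0, map_zero] at h4
      exact hy0 h4.symm
    rw [Point.neg_some]
    show w (-x / (bs W Ω).toAffine.negY x y + -x / y) ≤ _
    rw [negY_eq]
    have e : -x / (-y - W.a₁ * x - W.a₃) + -x / y =
        (x / y) * (-(W.a₁ * x + W.a₃) / (y + (W.a₁ * x + W.a₃))) := by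
      have e1 : -x / (-y - W.a₁ * x - W.a₃) = x / (y + (W.a₁ * x + W.a₃)) := by
        rw [← neg_div_neg_eq]
        congr 1 <;> ring
      rw [e1]
      have key : ∀ D : Ω, D ≠ 0 → x / D + -x / y = (x / y) * (-(D - y) / D) := by
        intro D hD
        field_simp
        ring
      rw [key _ h5]
      congr 3
      ring
    rw [e, map_mul]
    have e3 : ρ ^ 3 = ρ * ρ ^ 2 := by ring
    rw [e3]
    refine mul_le_mul' h6 ?_
    rw [map_div₀, Valuation.map_neg, h4]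
    rw [div_le_iff₀ (pos_iff_ne_zero.2 hy0)]
    exact h3

/-- the estimate for the sum of the parameters of the three points on a line -/
theorem core_z3 {x1 x2 x3 l c : Ω} {b1 b2 b3 b4 b6 : Ω} (i1 : w b1 ≤ 1) (i2 : w b2 ≤ 1)
    (i3 : w b3 ≤ 1) (i4 : w b4 ≤ 1) (i6 : w b6 ≤ 1)
    (h1 : x1 + x2 + x3 = l ^ 2 + b1 * l - b2)
    (h2 : x1 * x2 + x1 * x3 + x2 * x3 = b4 - 2 * l * c - b1 * c - b3 * l)
    (h3 : x1 * x2 * x3 = c ^ 2 + b3 * c - b6) {ρ : ℝ≥0} (hρ : ρ < 1) (ha : w b1 ≤ ρ)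
    (g1 : 1 ≤ ρ ^ 2 * w x1)
    (g2 : 1 ≤ ρ ^ 2 * w x2) (g3 : 1 ≤ ρ ^ 2 * w x3)
    (k1 : w (l * x1 + c) ^ 2 = w x1 ^ 3) (k2 : w (l * x2 + c) ^ 2 = w x2 ^ 3)
    (k3 : w (l * x3 + c) ^ 2 = w x3 ^ 3) :
    w (-x1 / (l * x1 + c) + -x2 / (l * x2 + c) + -x3 / (l * x3 + c)) ≤ ρ ^ 3 := by
  have hρ2 : ρ ^ 2 ≤ 1 := pow_le_one₀ zero_le hρ.le
  have big : ∀ {A : ℝ≥0}, 1 ≤ ρ ^ 2 * A → 1 < A := by
    intro A hA
    by_contra hcon
    rw [not_lt] at hcon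
    have h5 : ρ ^ 2 * A < 1 := by
      calc ρ ^ 2 * A ≤ ρ ^ 2 * 1 := mul_le_mul_right hcon _
        _ = ρ ^ 2 := mul_one _
        _ < 1 := pow_lt_one₀ zero_le hρ two_ne_zero
    exact absurd hA (not_le.2 h5)
  have f1 := big g1
  have f2 := big g2
  have f3 := big g3
  have p1 : 0 < w x1 := zero_lt_one.trans f1
  have p2 : 0 < w x2 := zero_lt_one.trans f2
  have p3 : 0 < w x3 := zero_lt_one.trans f3
  have yne : ∀ {x y : Ω}, 0 < w x → w y ^ 2 = w x ^ 3 → y ≠ 0 := by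
    rintro x y hx h rfl
    rw [map_zero, zero_pow two_ne_zero] at h
    exact pow_ne_zero 3 hx.ne' h.symm
  have n1 := yne p1 k1
  have n2 := yne p2 k2
  have n3 := yne p3 k3
  -- the size of `c`
  have hc1 : 1 < w c := by
    by_contra hcon
    rw [not_lt] at hcon
    have h5 : w (x1 * x2 * x3) ≤ 1 := by
      rw [h3]
      exact w_sub (w_add (w_pow hcon 2) (w_mul i3 hcon)) i6
    rw [map_mul, map_mul] at h5
    exact absurd h5 (not_le.2 (one_lt_mul_of_lt_of_le (one_lt_mul_of_lt_of_le f1 f2.le) f3.le))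
  have hc2 : w c ^ 2 = w x1 * w x2 * w x3 := by
    rw [← map_mul, ← map_mul, h3]
    have e : c ^ 2 + b3 * c - b6 = c ^ 2 + (b3 * c - b6) := by ring
    rw [e, ← map_pow]
    symm
    apply Valuation.map_add_eq_of_lt_left
    have h6 : w c < w (c ^ 2) := by
      rw [map_pow]
      calc w c = w c ^ 1 := (pow_one _).symm
        _ < w c ^ 2 := pow_lt_pow_right₀ hc1 (by norm_num)
    refine (w_sub (c := w c) ?_ (i6.trans hc1.le)).trans_lt h6
    rw [map_mul]; exact mul_le_of_le_one_left' i3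
  have pc : 0 < w c := zero_lt_one.trans hc1
  -- the size of `l`
  have hl : w l ≤ ρ ^ 2 * w c := by
    have h5 : w l ^ 2 ≤ ρ ^ 4 * (w x1 * w x2 * w x3) := by
      set B := ρ ^ 4 * (w x1 * w x2 * w x3) with hB
      have c1 : w x1 ≤ B := by
        have : B = w x1 * ((ρ ^ 2 * w x2) * (ρ ^ 2 * w x3)) := by rw [hB]; ring
        rw [this]; exact le_mul_of_one_le_right' (one_le_mul g2 g3)
      have c2 : w x2 ≤ B := by
        have : B = w x2 * ((ρ ^ 2 * w x1) * (ρ ^ 2 * w x3)) := by rw [hB]; ring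
        rw [this]; exact le_mul_of_one_le_right' (one_le_mul g1 g3)
      have c3 : w x3 ≤ B := by
        have : B = w x3 * ((ρ ^ 2 * w x1) * (ρ ^ 2 * w x2)) := by rw [hB]; ring
        rw [this]; exact le_mul_of_one_le_right' (one_le_mul g1 g2)
      have hB1 : 1 ≤ B := f1.le.trans c1
      apply w_sqb i1 hB1
      have e : l ^ 2 + b1 * l = x1 + x2 + x3 + b2 := by linear_combination -h1
      rw [e]
      exact w_add (w_add (w_add c1 c2) c3) (i2.trans hB1)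
    have h6 : w l ^ 2 ≤ (ρ ^ 2 * w c) ^ 2 := by
      rw [mul_pow, hc2, ← pow_mul]; exact h5
    exact (pow_le_pow_iff_left₀ zero_le zero_le two_ne_zero).1 h6
  have hc3 : 1 ≤ ρ ^ 3 * w c := by
    have h6 : (1 : ℝ≥0) ^ 2 ≤ (ρ ^ 3 * w c) ^ 2 := by
      rw [mul_pow, hc2, one_pow]
      have : (ρ ^ 3) ^ 2 * (w x1 * w x2 * w x3) =
        (ρ ^ 2 * w x1) * (ρ ^ 2 * w x2) * (ρ ^ 2 * w x3) := by ring
      rw [this]
      exact one_le_mul (one_le_mul g1 g2) g3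
    exact (pow_le_pow_iff_left₀ zero_le zero_le two_ne_zero).1 h6
  set D : Ω := (l * x1 + c) * (l * x2 + c) * (l * x3 + c) with hD
  set N : Ω := b3 * (l ^ 2 * c) - 3 * b6 * l ^ 2 + 2 * b4 * (l * c) - b1 * (l * c ^ 2) - b2 * c ^ 2
    with hN
  have hsum : -x1 / (l * x1 + c) + -x2 / (l * x2 + c) + -x3 / (l * x3 + c) = -N / D := by
    have e1 : -x1 / (l * x1 + c) + -x2 / (l * x2 + c) + -x3 / (l * x3 + c) =
        -(x1 * ((l * x2 + c) * (l * x3 + c)) + x2 * ((l * x1 + c) * (l * x3 + c)) +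
          x3 * ((l * x1 + c) * (l * x2 + c))) / D := by
      have key : ∀ Y1 Y2 Y3 : Ω, Y1 ≠ 0 → Y2 ≠ 0 → Y3 ≠ 0 → -x1 / Y1 + -x2 / Y2 + -x3 / Y3 =
          -(x1 * (Y2 * Y3) + x2 * (Y1 * Y3) + x3 * (Y1 * Y2)) / (Y1 * Y2 * Y3) := by
        intro Y1 Y2 Y3 m1 m2 m3
        field_simp
        ring
      rw [hD]
      exact key _ _ _ n1 n2 n3
    rw [e1]
    congr 2
    rw [hN]
    linear_combination (c ^ 2) * h1 + (2 * l * c) * h2 + (3 * l ^ 2) * h3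
  have hwD : w D = w c ^ 3 := by
    have h5 : w D ^ 2 = (w c ^ 3) ^ 2 := by
      have : (w c ^ 3) ^ 2 = (w c ^ 2) ^ 3 := by ring
      rw [this, hc2, hD, map_mul, map_mul, mul_pow, mul_pow, k1, k2, k3]
      ring
    exact (pow_left_inj₀ zero_le zero_le two_ne_zero).1 h5
  have hρc : 1 ≤ ρ * w c := by
    refine hc3.trans (mul_le_mul_left ?_ _)
    calc ρ ^ 3 = ρ ^ 2 * ρ := by ring
      _ ≤ ρ := mul_le_of_le_one_left' hρ2
  have hwN : w N ≤ ρ ^ 3 * w c ^ 3 := by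
    have hlc : w l ≤ ρ * w c := by
      refine hl.trans (mul_le_mul_left ?_ _)
      rw [sq]; exact mul_le_of_le_one_left' hρ.le
    -- `b1 l c²`
    have t1 : w (b1 * (l * c ^ 2)) ≤ ρ ^ 3 * w c ^ 3 := by
      rw [map_mul, map_mul, map_pow]
      calc w b1 * (w l * w c ^ 2) ≤ ρ * ((ρ ^ 2 * w c) * w c ^ 2) :=
            mul_le_mul' ha (mul_le_mul_left hl _)
        _ = _ := by ring
    have t2 : w (l ^ 2 * c) ≤ ρ ^ 3 * w c ^ 3 := by
      rw [map_mul, map_pow]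
      calc w l ^ 2 * w c = w l * w l * w c := by ring
        _ ≤ (ρ ^ 2 * w c) * (ρ * w c) * w c := mul_le_mul_left (mul_le_mul' hl hlc) _
        _ = _ := by ring
    have t3 : w (l * c) ≤ ρ ^ 3 * w c ^ 3 := by
      rw [map_mul]
      calc w l * w c ≤ (ρ ^ 2 * w c) * w c := mul_le_mul_left hl _
        _ ≤ (ρ ^ 2 * w c) * w c * (ρ * w c) := le_mul_of_one_le_right' hρc
        _ = _ := by ring
    have t4 : w (l ^ 2) ≤ ρ ^ 3 * w c ^ 3 := by
      refine le_trans ?_ t2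
      rw [map_mul]
      exact le_mul_of_one_le_right' hc1.le
    have t5 : w (c ^ 2) ≤ ρ ^ 3 * w c ^ 3 := by
      rw [map_pow]
      have : ρ ^ 3 * w c ^ 3 = w c ^ 2 * (ρ ^ 3 * w c) := by ring
      rw [this]
      exact le_mul_of_one_le_right' hc3
    have tm : ∀ {a b : Ω}, w a ≤ 1 → w b ≤ ρ ^ 3 * w c ^ 3 → w (a * b) ≤ ρ ^ 3 * w c ^ 3 := by
      intro a b ha hb
      rw [map_mul]
      exact (mul_le_of_le_one_left' ha).trans hb
    exact w_sub (w_sub (w_add (w_sub (tm i3 t2) (tm (w_mul (w_three w) i6) t4))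
      (tm (w_mul (w_two w) i4) t3)) t1) (tm i2 t5)
  rw [hsum, map_div₀, Valuation.map_neg, hwD]
  exact div_le_of_le_mul₀ zero_le zero_le hwN

/-- the parameter is additive up to terms of order three -/
theorem Z_add3 {ρ : ℝ≥0} (hρ : ρ < 1) (ha : w ((W.a₁ : ℤ) : Ω) ≤ ρ)
    {P Q : (bs W Ω).toAffine.Point} (hP : In1 w P)
    (hQ : In1 w Q) (h1 : w (Z P) ≤ ρ) (h2 : w (Z Q) ≤ ρ) :
    w (Z (P + Q) - Z P - Z Q) ≤ ρ ^ 3 := by
  rcases P with _ | ⟨x₁, y₁, n₁⟩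
  · rw [← Point.zero_def, zero_add]
    show w (Z Q - 0 - Z Q) ≤ _
    rw [sub_zero, sub_self, map_zero]; exact zero_le
  rcases Q with _ | ⟨x₂, y₂, n₂⟩
  · rw [← Point.zero_def, add_zero]
    show w (Z _ - Z _ - 0) ≤ _
    rw [sub_self, sub_zero, map_zero]; exact zero_le
  have u1 := w_Z n₁ (hP _ _ _ rfl)
  have u2 := w_Z n₂ (hQ _ _ _ rfl)
  have g1 : 1 ≤ ρ ^ 2 * w x₁ := by
    rw [← u1]; exact mul_le_mul_left (pow_le_pow_left₀ zero_le h1 2) _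
  have g2 : 1 ≤ ρ ^ 2 * w x₂ := by
    rw [← u2]; exact mul_le_mul_left (pow_le_pow_left₀ zero_le h2 2) _
  by_cases hxy : x₁ = x₂ ∧ y₁ = (bs W Ω).toAffine.negY x₂ y₂
  · -- opposite points
    have e : Point.some x₁ y₁ n₁ = -Point.some x₂ y₂ n₂ := by
      rw [Point.neg_some]
      obtain ⟨rfl, rfl⟩ := hxy
      rfl
    rw [e, neg_add_cancel]
    show w ((0 : Ω) - Z _ - Z _) ≤ _
    have e2 : (0 : Ω) - Z (-Point.some x₂ y₂ n₂) - Z (Point.some x₂ y₂ n₂) =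
        -(Z (-Point.some x₂ y₂ n₂) + Z (Point.some x₂ y₂ n₂)) := by ring
    rw [e2, Valuation.map_neg]
    exact Z_neg3 ha hQ h2
  obtain ⟨r1, r2, r3, r4, r5⟩ := vieta n₁.1 n₂.1 hxy
  have hPQ := hP.add hQ
  have hpq0 : Point.some x₁ y₁ n₁ + Point.some x₂ y₂ n₂ =
      Point.some _ _ (nonsingular_add n₁ n₂ hxy) := Point.add_some hxy
  set l := (bs W Ω).toAffine.slope x₁ x₂ y₁ y₂ with hl
  set x₃ := (bs W Ω).toAffine.addX x₁ x₂ l with hx₃
  have gx3 : 1 < w x₃ := hPQ _ _ _ hpq0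
  have h0ρ : 0 < ρ := by
    rcases eq_or_lt_of_le (zero_le : 0 ≤ ρ) with h | h
    · rw [← h, zero_pow two_ne_zero, zero_mul] at g1
      exact absurd g1 (not_le.2 zero_lt_one)
    · exact h
  have g3 : 1 ≤ ρ ^ 2 * w x₃ := by
    have hR : 1 < (ρ ^ 2)⁻¹ := (one_lt_inv₀ (pow_pos h0ρ 2)).2 (pow_lt_one₀ zero_le hρ two_ne_zero)
    have k1 : (ρ ^ 2)⁻¹ ≤ w x₁ := by
      rw [inv_le_iff_one_le_mul₀ (pow_pos h0ρ 2), mul_comm]; exact g1
    have k2 : (ρ ^ 2)⁻¹ ≤ w x₂ := by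
      rw [inv_le_iff_one_le_mul₀ (pow_pos h0ρ 2), mul_comm]; exact g2
    have k3 := big_add n₁.1 n₂.1 hxy hR k1 k2
    rw [inv_le_iff_one_le_mul₀ (pow_pos h0ρ 2), mul_comm] at k3
    exact k3
  -- the opposite of the sum
  have n3 := nonsingular_add n₁ n₂ hxy
  have h6 : (bs W Ω).toAffine.negY x₃ ((bs W Ω).toAffine.addY x₁ x₂ y₁ l) =
      l * x₃ + (y₁ - l * x₁) := by
    rw [negY_eq, addY_eq, ← hx₃]; ring
  have n3' : (bs W Ω).toAffine.Nonsingular x₃ (l * x₃ + (y₁ - l * x₁)) := by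
    have h5 := (nonsingular_neg x₃ _).2 n3
    rw [h6] at h5
    exact h5
  have eneg : -(Point.some x₁ y₁ n₁ + Point.some x₂ y₂ n₂) = Point.some _ _ n3' := by
    rw [hpq0, Point.neg_some]
    congr 1
  have u3 := w_Z n3' gx3
  have hneg := hPQ.neg
  have hz3 : w (Z (-(Point.some x₁ y₁ n₁ + Point.some x₂ y₂ n₂))) ≤ ρ := by
    rw [eneg]
    have h5 : w (Z (Point.some _ _ n3')) ^ 2 ≤ ρ ^ 2 := by
      have h7 : w (Z (Point.some _ _ n3')) ^ 2 * w x₃ ≤ ρ ^ 2 * w x₃ := by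
        rw [u3]; exact g3
      exact le_of_mul_le_mul_right h7 (zero_lt_one.trans gx3)
    exact (pow_le_pow_iff_left₀ zero_le zero_le two_ne_zero).1 h5
  have hN := Z_neg3 ha hneg hz3
  rw [neg_neg] at hN
  have hyy : ∀ {x y : Ω} (h : (bs W Ω).toAffine.Nonsingular x y), 1 < w x → w y ^ 2 = w x ^ 3 :=
    fun h hx => w_y_big h.1 hx
  have c1 := hyy n₁ (hP _ _ _ rfl)
  have c2 := hyy n₂ (hQ _ _ _ rfl)
  have c3 : w (l * x₃ + (y₁ - l * x₁)) ^ 2 = w x₃ ^ 3 := hyy n3' gx3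
  have hS := core_z3 (w_int w _) (w_int w _) (w_int w _) (w_int w _) (w_int w _) r1 r2 r3 hρ ha g1 g2
    g3 (by rw [← r4]; exact c1) (by rw [← r5]; exact c2) c3
  rw [← r4, ← r5] at hS
  have hZ3 : Z (-(Point.some x₁ y₁ n₁ + Point.some x₂ y₂ n₂)) =
      -x₃ / (l * x₃ + (y₁ - l * x₁)) := by rw [eneg]; rfl
  have hfin : Z (Point.some x₁ y₁ n₁ + Point.some x₂ y₂ n₂) - Z (Point.some x₁ y₁ n₁) -
      Z (Point.some x₂ y₂ n₂) =
      (Z (Point.some x₁ y₁ n₁ + Point.some x₂ y₂ n₂) +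
        Z (-(Point.some x₁ y₁ n₁ + Point.some x₂ y₂ n₂))) -
      (-x₁ / y₁ + -x₂ / y₂ + -x₃ / (l * x₃ + (y₁ - l * x₁))) := by
    rw [hZ3]
    show _ - (-x₁ / y₁) - (-x₂ / y₂) = _
    ring
  rw [hfin]
  exact w_sub hN hS

/-- difference of two points -/
theorem Z_sub3 [IsAlgClosed Ω] {ρ : ℝ≥0} (hρ : ρ < 1) (ha : w ((W.a₁ : ℤ) : Ω) ≤ ρ)
    {P Q : (bs W Ω).toAffine.Point} (hP : In1 w P)
    (hQ : In1 w Q) (h1 : w (Z P) ≤ ρ) (h2 : w (Z Q) ≤ ρ) :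
    w (Z (P - Q) - (Z P - Z Q)) ≤ ρ ^ 3 := by
  have h3 := Z_add3 hρ ha hP hQ.neg h1 (Z_neg_le hρ.le hQ h2)
  have h4 := Z_neg3 ha hQ h2
  have e : Z (P - Q) - (Z P - Z Q) = (Z (P + -Q) - Z P - Z (-Q)) + (Z (-Q) + Z Q) := by
    rw [sub_eq_add_neg P Q]; ring
  rw [e]
  exact w_add h3 h4

end Pool.Agent.K4H53.BSR
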