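import Mathlib
import Pool.Agent.K4H53.BSR.Fil3

/-!
# A ramified quadratic step, the field below unramified over `ℚ₂`
-/

set_option autoImplicit false
set_option linter.all false

open WeierstrassCurve WeierstrassCurve.Affine
open scoped NNReal Classical

namespace Pool.Agent.K4H53.BSR

open Pool.Agent.K4H53.BSD

variable {Ω k0 : Type} [Field Ω] [IsAlgClosed Ω] [Field k0] [Algebra k0 Ω]
  {w : Valuation Ω ℝ≥0} {W : WeierstrassCurve ℤ}
  {H H' : Subgroup (Ω ≃ₐ[k0] Ω)} {σ : Ω ≃ₐ[k0] Ω} {ϖ : Ω}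

/-- a ramified quadratic step with the uniformiser `ϖ` and the different exponent two -/
structure RS (w : Valuation Ω ℝ≥0) (H H' : Subgroup (Ω ≃ₐ[k0] Ω)) (σ : Ω ≃ₐ[k0] Ω) (ϖ : Ω) :
    Prop where
  qs : QS H H' σ
  inv : ∀ (τ : Ω ≃ₐ[k0] Ω) (x : Ω), w (τ x) = w x
  fxϖ : fx H' ϖ
  sqϖ : w ϖ ^ 2 = w (2 : Ω)
  dϖ : w (ϖ - σ ϖ) = w (2 : Ω)
  val : ∀ x, fx H x → x ≠ 0 → ∃ n : ℤ, w x = w (2 : Ω) ^ n
  w0 : w (2 : Ω) ≠ 0
  w1 : w (2 : Ω) < 1

namespace RS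

variable (h : RS w H H' σ ϖ)
include h

theorem two_ne : (2 : Ω) ≠ 0 := fun h0 => h.w0 (by rw [h0, map_zero])

theorem ϖ0 : w ϖ ≠ 0 := by
  intro h0
  have := h.sqϖ
  rw [h0, zero_pow two_ne_zero] at this
  exact h.w0 this.symm

theorem ϖne : ϖ ≠ 0 := fun h0 => h.ϖ0 (by rw [h0, map_zero])

theorem ϖpos : 0 < w ϖ := pos_iff_ne_zero.2 h.ϖ0

theorem ϖ1 : w ϖ < 1 := by
  by_contra hcon
  rw [not_lt] at hcon
  have := one_le_pow₀ hcon (n := 2)
  rw [h.sqϖ] at this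
  exact absurd h.w1 (not_lt.2 this)

theorem δne : ϖ - σ ϖ ≠ 0 := fun h0 => h.w0 (by rw [← h.dϖ, h0, map_zero])

theorem σδ : σ (ϖ - σ ϖ) = -(ϖ - σ ϖ) := by
  rw [map_sub, h.qs.inv h.fxϖ]
  ring

/-- the value of the trace of `ϖ` -/
theorem trϖ : w (ϖ + σ ϖ) = w (2 : Ω) := by
  have e : ϖ + σ ϖ = -(ϖ - σ ϖ) + 2 * ϖ := by ring
  rw [e, Valuation.map_add_eq_of_lt_left, Valuation.map_neg, h.dϖ]
  rw [Valuation.map_neg, h.dϖ, map_mul]
  exact mul_lt_of_lt_one_right (pos_iff_ne_zero.2 h.w0) h.ϖ1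

theorem basis {x : Ω} (hx : fx H' x) : ∃ a b : Ω, fx H a ∧ fx H b ∧ x = a + b * ϖ ∧
    x + σ x = 2 * a + b * (ϖ + σ ϖ) ∧ x - σ x = b * (ϖ - σ ϖ) := by
  have hδ := h.δne
  have hinv := h.qs.inv hx
  have fσ := h.qs.fxσ hx
  set b : Ω := (x - σ x) / (ϖ - σ ϖ) with hb
  have hbe : b * (ϖ - σ ϖ) = x - σ x := div_mul_cancel₀ _ hδ
  have σb : σ b = b := by
    rw [hb, map_div₀, h.σδ, map_sub, hinv, div_eq_div_iff (neg_ne_zero.2 hδ) hδ]
    ring
  have fb : fx H b := by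
    rw [h.qs.fx_iff]
    exact ⟨(hx.sub fσ).div (h.fxϖ.sub (h.qs.fxσ h.fxϖ)), σb⟩
  have fa : fx H (x - b * ϖ) := by
    rw [h.qs.fx_iff]
    refine ⟨hx.sub ((fb.mono h.qs.le).mul h.fxϖ), ?_⟩
    rw [map_sub, map_mul, σb]
    linear_combination hbe
  refine ⟨x - b * ϖ, b, fa, fb, by ring, ?_, hbe.symm⟩
  linear_combination hbe

theorem odd_ne {a b : Ω} (ha : fx H a) (hb : fx H b) (ha0 : a ≠ 0) :
    w a ≠ w b * w ϖ := by
  intro he
  have hb0 : b ≠ 0 := by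
    rintro rfl
    rw [map_zero, zero_mul] at he
    exact ha0 ((Valuation.zero_iff _).1 he)
  obtain ⟨n, hn⟩ := h.val a ha ha0
  obtain ⟨m, hm⟩ := h.val b hb hb0
  have h1 : w a ^ 2 = w b ^ 2 * w (2 : Ω) := by rw [he, mul_pow, h.sqϖ]
  rw [hn, hm, ← zpow_natCast, ← zpow_natCast, ← zpow_mul, ← zpow_mul] at h1
  have h2 : w (2 : Ω) ^ (m * ((2 : ℕ) : ℤ)) * w (2 : Ω) = w (2 : Ω) ^ (m * ((2 : ℕ) : ℤ) + 1) := by
    rw [zpow_add₀ h.w0, zpow_one]
  rw [h2] at h1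
  have h3 := zpow_right_injective₀ (pos_iff_ne_zero.2 h.w0) h.w1.ne h1
  push_cast at h3
  omega

/-- the valuation in terms of the basis -/
theorem vals {a b : Ω} (ha : fx H a) (hb : fx H b) (hx : a + b * ϖ ≠ 0) :
    (w (a + b * ϖ) = w a ∧ w b * w ϖ < w a) ∨
    (w (a + b * ϖ) = w b * w ϖ ∧ w a < w b * w ϖ) := by
  by_cases ha0 : a = 0
  · right
    rw [ha0, zero_add, map_mul, map_zero]
    refine ⟨rfl, ?_⟩
    rw [pos_iff_ne_zero]
    refine mul_ne_zero ?_ h.ϖ0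
    rw [Valuation.ne_zero_iff]
    rintro rfl
    apply hx
    rw [ha0, zero_mul, add_zero]
  · rcases lt_or_gt_of_ne (h.odd_ne ha hb ha0) with h1 | h1
    · right
      refine ⟨?_, h1⟩
      rw [← map_mul] at h1 ⊢
      exact Valuation.map_add_eq_of_lt_right _ h1
    · left
      refine ⟨?_, h1⟩
      rw [← map_mul] at h1
      exact Valuation.map_add_eq_of_lt_left _ h1

/-- the values are powers of the value of `ϖ` -/
theorem valϖ {x : Ω} (hx : fx H' x) (hx0 : x ≠ 0) : ∃ n : ℤ, w x = w ϖ ^ n := by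
  obtain ⟨a, b, fa, fb, hab, -, -⟩ := h.basis hx
  have e2 : ∀ n : ℤ, w (2 : Ω) ^ n = w ϖ ^ (2 * n) := by
    intro n
    rw [zpow_mul, ← h.sqϖ]
    congr 1
  rw [hab] at hx0 ⊢
  rcases h.vals fa fb hx0 with ⟨h1, h2⟩ | ⟨h1, h2⟩
  · have ha0 : a ≠ 0 := by
      rintro rfl
      rw [map_zero] at h2
      exact absurd h2 (not_lt.2 zero_le)
    obtain ⟨n, hn⟩ := h.val a fa ha0
    exact ⟨2 * n, by rw [h1, hn, e2]⟩
  · have hb0 : b ≠ 0 := by
      rintro rfl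
      rw [map_zero, zero_mul] at h2
      exact absurd h2 (not_lt.2 zero_le)
    obtain ⟨n, hn⟩ := h.val b fb hb0
    refine ⟨2 * n + 1, ?_⟩
    rw [h1, hn, e2, zpow_add₀ h.ϖ0, zpow_one]

/-- gaps of the values -/
theorem gap {x : Ω} (hx : fx H' x) {n : ℤ} (hlt : w x < w ϖ ^ n) :
    w x ≤ w ϖ ^ (n + 1) := by
  by_cases hx0 : x = 0
  · rw [hx0, map_zero]; exact zero_le
  obtain ⟨m, hm⟩ := h.valϖ hx hx0
  rw [hm] at hlt ⊢
  have h1 : n < m := by
    by_contra hcon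
    push Not at hcon
    exact absurd hlt (not_lt.2 (zpow_le_zpow_right_of_le_one₀ h.ϖpos h.ϖ1.le hcon))
  exact zpow_le_zpow_right_of_le_one₀ h.ϖpos h.ϖ1.le (by omega)

/-- **parity**: an element with small trace has even valuation -/
theorem par {x : Ω} (hx : fx H' x) (hx0 : x ≠ 0) (ht : w (x + σ x) < w x * w ϖ) :
    ∃ n : ℤ, w x = w (2 : Ω) ^ n := by
  obtain ⟨a, b, fa, fb, hab, htr, -⟩ := h.basis hx
  rw [htr, hab] at ht
  rw [hab] at hx0 ⊢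
  rcases h.vals fa fb hx0 with ⟨h1, h2⟩ | ⟨h1, h2⟩
  · have ha0 : a ≠ 0 := by
      rintro rfl
      rw [map_zero] at h2
      exact absurd h2 (not_lt.2 zero_le)
    obtain ⟨n, hn⟩ := h.val a fa ha0
    exact ⟨n, by rw [h1, hn]⟩
  · exfalso
    have hb0 : b ≠ 0 := by
      rintro rfl
      rw [map_zero, zero_mul] at h2
      exact absurd h2 (not_lt.2 zero_le)
    have hbp : 0 < w b := by rw [Valuation.pos_iff]; exact hb0
    have h3 : w a < w b := h2.trans (mul_lt_of_lt_one_right hbp h.ϖ1)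
    have h4 : w (2 * a + b * (ϖ + σ ϖ)) = w b * w (2 : Ω) := by
      rw [Valuation.map_add_eq_of_lt_right, map_mul, h.trϖ]
      rw [map_mul, map_mul, h.trϖ, mul_comm]
      exact mul_lt_mul_of_pos_right h3 (pos_iff_ne_zero.2 h.w0)
    rw [h1, h4, mul_assoc, ← sq, h.sqϖ] at ht
    exact lt_irrefl _ ht

/-- the valuation is not odd -/
theorem par' {x : Ω} (hx : fx H' x) {m : ℤ} (hm : w x = w ϖ ^ (2 * m + 1)) 
    (ht : w (x + σ x) < w ϖ ^ (2 * m + 2)) : False := by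
  have hx0 : x ≠ 0 := by
    rintro rfl
    rw [map_zero] at hm
    exact zpow_ne_zero _ h.ϖ0 hm.symm
  obtain ⟨n, hn⟩ := h.par hx hx0 (by
    rw [hm, ← zpow_add_one₀ h.ϖ0]
    convert ht using 2
    ring)
  have e2 : w (2 : Ω) ^ n = w ϖ ^ (2 * n) := by
    rw [zpow_mul, ← h.sqϖ]
    congr 1
  rw [e2, hm] at hn
  have h3 := zpow_right_injective₀ h.ϖpos h.ϖ1.ne hn
  omega

/-- integral elements are nearly fixed -/
theorem near {x : Ω} (hx : fx H' x) (hx1 : w x ≤ 1) : w (x - σ x) ≤ w (2 : Ω) := by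
  obtain ⟨a, b, fa, fb, hab, -, hd⟩ := h.basis hx
  have hb1 : w b ≤ 1 := by
    by_cases hx0 : x = 0
    · have h1 : b * (ϖ - σ ϖ) = 0 := by rw [← hd, hx0, map_zero, sub_zero]
      have h2 : b = 0 := by
        rcases mul_eq_zero.1 h1 with h3 | h3
        · exact h3
        · exact absurd h3 h.δne
      rw [h2, map_zero]; exact zero_le
    by_contra hcon
    rw [not_le] at hcon
    have hb0 : b ≠ 0 := by
      rintro rfl
      rw [map_zero] at hcon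
      exact absurd hcon (not_lt.2 zero_le)
    obtain ⟨n, hn⟩ := h.val b fb hb0
    have hn1 : n < 0 := by
      by_contra hc
      push Not at hc
      have : w (2 : Ω) ^ n ≤ 1 := by
        have := zpow_le_zpow_right_of_le_one₀ (pos_iff_ne_zero.2 h.w0) h.w1.le hc
        rwa [zpow_zero] at this
      rw [hn] at hcon
      exact absurd hcon (not_lt.2 this)
    have hbϖ : w b * w ϖ ≤ 1 := by
      rw [hab] at hx1 hx0
      rcases h.vals fa fb hx0 with ⟨h1, h2⟩ | ⟨h1, h2⟩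
      · rw [h1] at hx1
        exact h2.le.trans hx1
      · rw [h1] at hx1
        exact hx1
    have h5 : (w (2 : Ω))⁻¹ ≤ w b := by
      rw [hn, ← zpow_neg_one]
      exact zpow_le_zpow_right_of_le_one₀ (pos_iff_ne_zero.2 h.w0) h.w1.le (by omega)
    have h6 : (w (2 : Ω))⁻¹ * w ϖ ≤ 1 := (mul_le_mul_left h5 _).trans hbϖ
    rw [← h.sqϖ, sq, mul_inv, mul_assoc, inv_mul_cancel₀ h.ϖ0, mul_one] at h6
    have h7 := (inv_le_one₀ h.ϖpos).1 h6
    exact absurd h.ϖ1 (not_lt.2 h7)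
  rw [hd, map_mul, h.dϖ]
  exact mul_le_of_le_one_left' hb1

/-- all uniformisers have the same difference -/
theorem dodd {x : Ω} (hx : fx H' x) (hx2 : w x ^ 2 = w (2 : Ω)) : w (x - σ x) = w (2 : Ω) := by
  obtain ⟨a, b, fa, fb, hab, -, hd⟩ := h.basis hx
  have hxw : w x = w ϖ := by
    have h1 : w x ^ 2 = w ϖ ^ 2 := by rw [hx2, h.sqϖ]
    exact (pow_left_inj₀ zero_le zero_le two_ne_zero).1 h1
  have hx0 : x ≠ 0 := by
    rintro rfl
    rw [map_zero] at hxw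
    exact h.ϖ0 hxw.symm
  rw [hab] at hx0 hxw
  rw [hd, map_mul, h.dϖ]
  rcases h.vals fa fb hx0 with ⟨h1, h2⟩ | ⟨h1, h2⟩
  · exfalso
    have ha0 : a ≠ 0 := by
      rintro rfl
      rw [map_zero] at h2
      exact absurd h2 (not_lt.2 zero_le)
    apply h.odd_ne fa fx_one ha0
    rw [map_one, one_mul, ← h1, hxw]
  · rw [h1] at hxw
    have h3 : w b = 1 := by
      have : w b * w ϖ = 1 * w ϖ := by rw [hxw, one_mul]
      exact mul_right_cancel₀ h.ϖ0 this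
    rw [h3, one_mul]

end RS

end Pool.Agent.K4H53.BSR
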