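import Mathlib
import Pool.Agent.K4H53.BSR.Rst

/-!
# Triviality of the first cohomology in the ramified quadratic step
-/

set_option autoImplicit false
set_option linter.all false

open WeierstrassCurve WeierstrassCurve.Affine
open scoped NNReal Classical

namespace Pool.Agent.K4H53.BSR

open Pool.Agent.K4H53.BSD

variable {Ω k0 : Type} [Field Ω] [IsAlgClosed Ω] [Field k0] [Algebra k0 Ω]
  {w : Valuation Ω ℝ≥0} {W : WeierstrassCurve ℤ}
  {H H' : Subgroup (Ω ≃ₐ[k0] Ω)} {σ : Ω ≃ₐ[k0] Ω} {ϖ : Ω}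

/-- points of the twist have large coordinates -/
theorem in1_of (h : RS w H H' σ ϖ) (ha : w ((W.a₁ : ℤ) : Ω) ≤ w (2 : Ω))
    (ha3 : w ((W.a₃ : ℤ) : Ω) = 1) {P : (bs W Ω).toAffine.Point} (hP : pfx H' P)
    (hσP : am W (σ : Ω →+* Ω) P = -P) : In1 w P := by
  intro x y hxy he
  subst he
  by_contra hx
  rw [not_lt] at hx
  have hy := w_y hxy.1 hx
  obtain ⟨fx1, fy1⟩ := pfx_some.1 hP
  rw [am_some, Point.neg_some] at hσP
  obtain ⟨e1, e2⟩ := Point.some.inj hσP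
  rw [negY_eq] at e2
  have e2' : σ y = -y - W.a₁ * x - W.a₃ := e2
  have h1 := h.near fy1 hy
  have e3 : ((W.a₃ : ℤ) : Ω) = (y - σ y) - 2 * y - W.a₁ * x := by
    rw [e2']; ring
  have h2 : w ((W.a₃ : ℤ) : Ω) ≤ w (2 : Ω) := by
    rw [e3]
    refine w_sub (w_sub h1 ?_) ?_
    · rw [map_mul]; exact mul_le_of_le_one_right' hy
    · rw [map_mul]; exact (mul_le_of_le_one_right' hx).trans ha
  rw [ha3] at h2
  exact absurd h.w1 (not_lt.2 h2)

theorem w2le (h : RS w H H' σ ϖ) : w (2 : Ω) ≤ w ϖ := by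
  rw [← h.sqϖ, sq]
  exact mul_le_of_le_one_left' h.ϖ1.le

theorem Zσ {P : (bs W Ω).toAffine.Point} (hσP : am W (σ : Ω →+* Ω) P = -P) :
    σ (Z P) = Z (-P) := by
  rw [← hσP, Z_act]
  rfl

theorem e2z (h : RS w H H' σ ϖ) (n : ℕ) : w (2 : Ω) ^ n = w ϖ ^ (2 * n : ℤ) := by
  rw [zpow_mul, ← h.sqϖ, zpow_natCast]
  congr 1

/-- the first estimate -/
theorem init (h : RS w H H' σ ϖ) (ha : w ((W.a₁ : ℤ) : Ω) ≤ w (2 : Ω))
    {P : (bs W Ω).toAffine.Point} (hP : pfx H' P) (hP1 : In1 w P)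
    (hσP : am W (σ : Ω →+* Ω) P = -P) : w (Z P) ≤ w (2 : Ω) := by
  have fz := fx_Z hP
  have h1 : w (Z P) ≤ w ϖ ^ (0 + 1 : ℤ) := by
    apply h.gap fz
    rw [zpow_zero]
    exact Z_lt hP1
  rw [zero_add, zpow_one] at h1
  have h2 : w (2 : Ω) = w ϖ ^ (1 + 1 : ℤ) := by
    rw [zpow_add_one₀ h.ϖ0, zpow_one, ← sq, h.sqϖ]
  rw [h2]
  apply h.gap fz
  rw [zpow_one]
  refine lt_of_le_of_ne h1 fun he => ?_
  apply h.par' (m := 0) fz (by simpa using he)
  rw [Zσ hσP, add_comm]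
  refine (Z_neg3 (ha.trans (w2le h)) hP1 h1).trans_lt ?_
  rw [← zpow_natCast]
  exact zpow_lt_zpow_right_of_lt_one₀ h.ϖpos h.ϖ1 (by norm_num)

/-- one step of the approximation -/
theorem rstep (h : RS w H H' σ ϖ) (hW : (W.Δ : Ω) ≠ 0) (ha : w ((W.a₁ : ℤ) : Ω) ≤ w (2 : Ω))
    {P : (bs W Ω).toAffine.Point} (hP : pfx H' P) (hP1 : In1 w P)
    (hσP : am W (σ : Ω →+* Ω) P = -P) (k : ℕ) (hZ : w (Z P) ≤ w (2 : Ω) ^ (k + 1)) :
    ∃ S : (bs W Ω).toAffine.Point, pfx H' S ∧ In1 w S ∧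
      w (Z (P - (S - am W (σ : Ω →+* Ω) S))) ≤ w (2 : Ω) ^ (k + 2) := by
  by_cases hz0 : Z P = 0
  · refine ⟨0, pfx.zero, In1.zero, ?_⟩
    rw [am_zero, sub_zero, sub_zero, hz0, map_zero]; exact zero_le
  have h20 := h.two_ne
  have hδ := h.δne
  have hϖp := h.ϖpos
  have w2p : 0 < w (2 : Ω) := pos_iff_ne_zero.2 h.w0
  have w2l := h.w1
  have hϖ0 := h.ϖne
  have hε0 : σ (Z P) = Z (-P) := Zσ hσP
  set z := Z P with hz
  have fz : fx H' z := fx_Z hP
  set δ : Ω := ϖ - σ ϖ with hδe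
  have wδ : w δ = w (2 : Ω) := h.dϖ
  have σδ : σ δ = -δ := h.σδ
  set s : Ω := z * ϖ / δ with hs
  have ws : w s = w z * w ϖ / w (2 : Ω) := by
    rw [hs, map_div₀, map_mul, wδ]
  have hsle : w s ≤ w (2 : Ω) ^ k * w ϖ := by
    rw [ws, div_le_iff₀ w2p]
    calc w z * w ϖ ≤ w (2 : Ω) ^ (k + 1) * w ϖ := mul_le_mul_left hZ _
      _ = _ := by ring
  have hk1 : w (2 : Ω) ^ k ≤ 1 := pow_le_one₀ zero_le w2l.le
  have hρ1 : w (2 : Ω) ^ k * w ϖ < 1 := (mul_le_of_le_one_left' hk1).trans_lt h.ϖ1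
  obtain ⟨S, hS, hS1, hSZ⟩ := lift_z (W := W) (H := H') h.inv hW (t := s)
    (hsle.trans_lt hρ1) (div_ne_zero (mul_ne_zero hz0 hϖ0) hδ)
    ((fz.mul h.fxϖ).div (h.fxϖ.sub (h.qs.fxσ h.fxϖ)))
  have hS2 : In1 w (am W (σ : Ω →+* Ω) S) := hS1.act _ (h.inv σ)
  have hZS' : Z (am W (σ : Ω →+* Ω) S) = σ s := by rw [Z_act, hSZ]; rfl
  have hle1 : w (Z S) ≤ w (2 : Ω) ^ k * w ϖ := by rw [hSZ]; exact hsle
  have hle2 : w (Z (am W (σ : Ω →+* Ω) S)) ≤ w (2 : Ω) ^ k * w ϖ := by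
    rw [hZS', h.inv]; exact hsle
  have hD1 : In1 w (S - am W (σ : Ω →+* Ω) S) := by
    rw [sub_eq_add_neg]; exact hS1.add hS2.neg
  set D := S - am W (σ : Ω →+* Ω) S with hD
  -- the bound
  set T : ℝ≥0 := if k = 0 then w ϖ ^ 3 else w (2 : Ω) ^ (k + 2) with hT
  have hT2 : w (2 : Ω) ^ (k + 2) ≤ T := by
    rw [hT]
    split_ifs with hk
    · subst hk
      have : w (2 : Ω) ^ (0 + 2) = w ϖ ^ 3 * w ϖ := by rw [← h.sqϖ]; ring
      rw [this]
      exact mul_le_of_le_one_right' h.ϖ1.le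
    · exact le_rfl
  have hT1 : T ≤ w (2 : Ω) ^ (k + 1) := by
    rw [hT]
    split_ifs with hk
    · subst hk
      have : w ϖ ^ 3 = w (2 : Ω) ^ (0 + 1) * w ϖ := by rw [← h.sqϖ]; ring
      rw [this]
      exact mul_le_of_le_one_right' h.ϖ1.le
    · rw [pow_succ _ (k + 1)]
      exact mul_le_of_le_one_right' w2l.le
  have hE1 : w (Z D - (Z S - Z (am W (σ : Ω →+* Ω) S))) ≤ T := by
    rw [hT]
    split_ifs with hk
    · subst hk
      rw [pow_zero, one_mul] at hle1 hle2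
      exact Z_sub3 h.ϖ1 (ha.trans (w2le h)) hS1 hS2 hle1 hle2
    · refine (Z_sub hρ1 hS1 hS2 hle1 hle2).trans ?_
      have : (w (2 : Ω) ^ k * w ϖ) ^ 2 = w (2 : Ω) ^ (2 * k + 1) := by
        rw [mul_pow, h.sqϖ, ← pow_mul, ← pow_succ, mul_comm k 2]
      rw [this]
      exact pow_le_pow_of_le_one zero_le w2l.le (by omega)
  -- the trace
  have hε : w (z + σ z) ≤ w (2 : Ω) ^ (k + 3) := by
    rw [hε0, add_comm]
    rcases Nat.eq_zero_or_pos k with hk | hk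
    · subst hk
      rw [zero_add, pow_one] at hZ
      exact Z_neg3 ha hP1 hZ
    · refine (Z_neg hP1 hZ).trans ?_
      rw [← pow_mul]
      exact pow_le_pow_of_le_one zero_le w2l.le (by omega)
  have hmain : Z S - Z (am W (σ : Ω →+* Ω) S) = z + (z + σ z) * σ ϖ / δ := by
    rw [hZS', hSZ, hs, map_div₀, map_mul, σδ]
    have e1 : z * ϖ / δ - σ z * σ ϖ / -δ = (z * ϖ + σ z * σ ϖ) / δ := by
      rw [div_neg, sub_neg_eq_add, add_div]
    have e2 : z + (z + σ z) * σ ϖ / δ = (z * δ + (z + σ z) * σ ϖ) / δ := by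
      rw [add_div, mul_div_cancel_right₀ _ hδ]
    rw [e1, e2]
    congr 1
    rw [hδe]
    ring
  have hE2 : w ((z + σ z) * σ ϖ / δ) ≤ T := by
    refine le_trans ?_ hT2
    rw [map_div₀, map_mul, wδ, h.inv, div_le_iff₀ w2p]
    calc w (z + σ z) * w ϖ ≤ w (2 : Ω) ^ (k + 3) * 1 := mul_le_mul' hε h.ϖ1.le
      _ = _ := by ring
  have hDz : w (Z D - z) ≤ T := by
    have e : Z D - z = (Z D - (Z S - Z (am W (σ : Ω →+* Ω) S))) +
        (z + σ z) * σ ϖ / δ := by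
      rw [hmain]; ring
    rw [e]
    exact w_add hE1 hE2
  have hDle : w (Z D) ≤ w (2 : Ω) ^ (k + 1) := by
    have e : Z D = (Z D - z) + z := by ring
    rw [e]
    exact w_add (hDz.trans hT1) hZ
  have hlt : w (2 : Ω) ^ (k + 1) < 1 := pow_lt_one₀ zero_le w2l (Nat.succ_ne_zero k)
  have hPD := Z_sub hlt hP1 hD1 hZ hDle
  have hfin : w (Z (P - D)) ≤ T := by
    have e : Z (P - D) = (Z (P - D) - (Z P - Z D)) - (Z D - z) := by
      rw [← hz]; ring
    rw [e]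
    refine w_sub (hPD.trans (le_trans ?_ hT2)) hDz
    rw [← pow_mul]
    exact pow_le_pow_of_le_one zero_le w2l.le (by omega)
  refine ⟨S, hS, hS1, ?_⟩
  rcases Nat.eq_zero_or_pos k with hk | hk
  · subst hk
    rw [hT, if_pos rfl] at hfin
    have hpf : pfx H' (P - D) := hP.sub (hS.sub (h.qs.pfxσ hS))
    have hin : In1 w (P - D) := by
      rw [sub_eq_add_neg]; exact hP1.add hD1.neg
    have hneg : am W (σ : Ω →+* Ω) (P - D) = -(P - D) := neg_diff h.qs hS hσP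
    have e4 : w (2 : Ω) ^ (0 + 2) = w ϖ ^ (3 + 1 : ℤ) := by
      rw [e2z h]
      norm_num
    rw [e4]
    apply h.gap (fx_Z hpf)
    have hfin' : w (Z (P - D)) ≤ w ϖ ^ (3 : ℤ) := by
      rw [← zpow_natCast] at hfin
      exact_mod_cast hfin
    refine lt_of_le_of_ne hfin' fun he => ?_
    apply h.par' (m := 1) (fx_Z hpf) (by rw [he]; norm_num)
    rw [Zσ hneg, add_comm]
    have hle : w (Z (P - D)) ≤ w (2 : Ω) := by
      refine (hfin.trans ?_)
      have : w ϖ ^ 3 = w (2 : Ω) * w ϖ := by rw [← h.sqϖ]; ring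
      rw [this]
      exact mul_le_of_le_one_right' h.ϖ1.le
    refine (Z_neg3 ha hin hle).trans_lt ?_
    rw [e2z h]
    exact zpow_lt_zpow_right_of_lt_one₀ h.ϖpos h.ϖ1 (by norm_num)
  · rw [hT, if_neg hk.ne'] at hfin
    exact hfin

/-- approximation -/
theorem riter (h : RS w H H' σ ϖ) (hW : (W.Δ : Ω) ≠ 0) (ha : w ((W.a₁ : ℤ) : Ω) ≤ w (2 : Ω))
    {P : (bs W Ω).toAffine.Point} (hP : pfx H' P) (hP1 : In1 w P)
    (hσP : am W (σ : Ω →+* Ω) P = -P) (n : ℕ) :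
    ∃ S : (bs W Ω).toAffine.Point, pfx H' S ∧ In1 w S ∧
      In1 w (P - (S - am W (σ : Ω →+* Ω) S)) ∧
      w (Z (P - (S - am W (σ : Ω →+* Ω) S))) ≤ w (2 : Ω) ^ (n + 1) := by
  induction n with
  | zero =>
    refine ⟨0, pfx.zero, In1.zero, ?_, ?_⟩
    · rw [am_zero, sub_zero, sub_zero]; exact hP1
    · rw [am_zero, sub_zero, sub_zero, zero_add, pow_one]
      exact init h ha hP hP1 hσP
  | succ n ih =>
    obtain ⟨S, hS, hS0, hS1, hSZ⟩ := ih
    obtain ⟨S', hS', hS'1, hS'Z⟩ := rstep h hW ha (hP.sub (hS.sub (h.qs.pfxσ hS))) hS1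
      (neg_diff h.qs hS hσP) n hSZ
    have e : P - (S + S' - am W (σ : Ω →+* Ω) (S + S')) =
        P - (S - am W (σ : Ω →+* Ω) S) - (S' - am W (σ : Ω →+* Ω) S') := by
      rw [map_add]; abel
    refine ⟨S + S', hS.add hS', hS0.add hS'1, ?_, ?_⟩
    · rw [e, sub_eq_add_neg _ (S' - am W (σ : Ω →+* Ω) S')]
      refine hS1.add (In1.neg ?_)
      rw [sub_eq_add_neg]
      exact hS'1.add (hS'1.act _ (h.inv σ)).neg
    · rw [e]
      exact hS'Z

/-- triviality of the cohomology in the ramified step -/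
theorem h1_ram (h : RS w H H' σ ϖ) (hW : (W.Δ : Ω) ≠ 0) (ha : w ((W.a₁ : ℤ) : Ω) ≤ w (2 : Ω))
    (ha3 : w ((W.a₃ : ℤ) : Ω) = 1) {P : (bs W Ω).toAffine.Point} (hP : pfx H' P)
    (hσP : am W (σ : Ω →+* Ω) P = -P) :
    ∃ S : (bs W Ω).toAffine.Point, pfx H' S ∧ P = S - am W (σ : Ω →+* Ω) S := by
  have hσ := h.inv
  have h2 := h.w0
  have hP1 := in1_of h ha ha3 hP hσP
  have h32 : w (32 : Ω) ≠ 0 := by
    have : (32 : Ω) = 2 ^ 5 := by norm_num
    rw [this, map_pow]; exact pow_ne_zero 5 h2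
  obtain ⟨n, hn⟩ := NNReal.exists_pow_lt_of_lt_one (pos_iff_ne_zero.2 h32) h.w1
  obtain ⟨S, hS, hS0, hS1, hSZ⟩ := riter h hW ha hP hP1 hσP n
  have hneg := neg_diff h.qs hS hσP
  have hpf : pfx H' (P - (S - am W (σ : Ω →+* Ω) S)) := hP.sub (hS.sub (h.qs.pfxσ hS))
  set P' := P - (S - am W (σ : Ω →+* Ω) S) with hP'
  have key : ∃ R : (bs W Ω).toAffine.Point, pfx H' R ∧ P' = R - am W (σ : Ω →+* Ω) R := by
    rcases hPP : P' with _ | ⟨x, y, hxy⟩
    · exact ⟨0, pfx.zero, by rw [am_zero, sub_zero]; rfl⟩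
    rw [hPP] at hneg hpf hSZ hS1
    have hx1 := hS1 _ _ _ rfl
    have hZx := w_Z hxy hx1
    have hx32 : 1 < w 32 * w x := by
      have e1 : w (Z (Point.some x y hxy)) ≤ w (2 : Ω) ^ n := by
        refine hSZ.trans ?_
        exact pow_le_pow_of_le_one zero_le h.w1.le (Nat.le_succ n)
      have e2 : w (Z (Point.some x y hxy)) < w 32 := e1.trans_lt hn
      have e3 : w (Z (Point.some x y hxy)) ^ 2 < w 32 := by
        rw [sq]
        exact (mul_le_of_le_one_left' (Z_lt hS1).le).trans_lt e2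
      rw [← hZx]
      exact mul_lt_mul_of_pos_right e3 (zero_lt_one.trans hx1)
    obtain ⟨x', y', hxy', hR, hRR, hRx⟩ := halve hσ h2 hpf hx32
    have hw16 : (1 : ℝ≥0) < w 4 * (w 4 * w x) := by
      have e1 : w (32 : Ω) ≤ w 4 * w 4 := by
        rw [← map_mul]
        have : (32 : Ω) = (4 * 4) * 2 := by norm_num
        rw [this, map_mul _ _ (2 : Ω)]
        exact mul_le_of_le_one_right' (w_two w)
      calc 1 < w 32 * w x := hx32
        _ ≤ (w 4 * w 4) * w x := by gcongr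
        _ = _ := by ring
    have w4 : w (4 : Ω) ≤ 1 := by exact_mod_cast w_nat w 4
    have hB : 1 < w 4 * w x := hw16.trans_le (mul_le_of_le_one_left' w4)
    refine ⟨Point.some x' y' hxy', hR, ?_⟩
    -- the sum of the conjugates is of order two
    have hsum : Point.some x' y' hxy' + am W (σ : Ω →+* Ω) (Point.some x' y' hxy') = 0 := by
      apply small_two (w := w)
      · have e1 : Point.some x' y' hxy' + am W (σ : Ω →+* Ω) (Point.some x' y' hxy') +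
          (Point.some x' y' hxy' + am W (σ : Ω →+* Ω) (Point.some x' y' hxy')) =
          (Point.some x' y' hxy' + Point.some x' y' hxy') +
            am W (σ : Ω →+* Ω) (Point.some x' y' hxy' + Point.some x' y' hxy') := by
          rw [map_add]; abel
        rw [e1, hRR, hneg, add_neg_cancel]
      · intro a b hab he
        rw [am_some] at he
        by_cases hc : x' = (σ : Ω →+* Ω) x' ∧
            y' = (bs W Ω).toAffine.negY ((σ : Ω →+* Ω) x') ((σ : Ω →+* Ω) y')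
        · rw [Point.add_of_Y_eq hc.1 hc.2] at he
          exact absurd he.symm (Point.some_ne_zero _)
        · rw [Point.add_some hc] at he
          obtain ⟨e1, e2⟩ := Point.some.inj he
          have hσx : w ((σ : Ω →+* Ω) x') = w x' := hσ σ x'
          have hbig := big_add (W := W) hxy'.1 (ns_map (σ : Ω →+* Ω) hxy').1 hc hB hRx.ge
            (by rw [hσx]; exact hRx.ge)
          rw [e1] at hbig
          exact ⟨hB.trans_le hbig, hw16.trans_le (mul_le_mul_right hbig _)⟩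
    rw [← hRR]
    have e3 : am W (σ : Ω →+* Ω) (Point.some x' y' hxy') = -Point.some x' y' hxy' :=
      eq_neg_of_add_eq_zero_right hsum
    rw [e3, sub_neg_eq_add]
  obtain ⟨R, hR, hRe⟩ := key
  refine ⟨S + R, hS.add hR, ?_⟩
  have e : P = P' + (S - am W (σ : Ω →+* Ω) S) := by rw [hP']; abel
  rw [e, hRe, map_add]
  abel

end Pool.Agent.K4H53.BSR
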