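import Pool.Agent.Y702.G.Val

/-!
# The sums of the modular symbols with denominator `q` or `4q`, `q` odd and squarefree
-/

set_option autoImplicit false
set_option linter.all false

open Filter Topology MeasureTheory Set UpperHalfPlane MatrixGroups CongruenceSubgroup Finset

namespace Pool.Agent.K4H53.BSR

open Pool.Agent.Y18.BSD (co bv PG HRel bv_tendsto bv_hecke bv_period bv_mem psi psi_prod dd jc FF den_iff)
open Pool.Agent.TH940 (prim Fr)
open Pool.Agent.Y702.L (RR mem_RR sum_char_units)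
open Pool.Agent.Y702.G (IsForm kapG bv_conj bv_val sum_bv pts)

variable {W : WeierstrassCurve ℤ} {N : ℕ} [NeZero N]
  {f : CuspForm (Gamma0 N : Subgroup (GL (Fin 2) ℝ)) 2}

/-- odd and squarefree, or four times such a number -/
def Q4 (q : ℕ) : Prop := ∃ q' : ℕ, Odd q' ∧ Squarefree q' ∧ (q = q' ∨ q = 4 * q')

lemma Q4.ne_two {q : ℕ} (h : Q4 q) : q ≠ 2 := by
  obtain ⟨q', ⟨t, ht⟩, -, h | h⟩ := h
  · omega
  · omega

lemma neg_mem_RR4 (q : ℕ) [NeZero q] (hq : 2 < q) (u : (ZMod q)ˣ) :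
    -u ∈ RR q ↔ u ∉ RR q := by
  have : Fact (1 < q) := ⟨by omega⟩
  rw [mem_RR, mem_RR, Units.val_neg, ZMod.neg_val, if_neg u.ne_zero]
  have h1 := ZMod.val_lt (u : ZMod q)
  have h2 : 2 * (u : ZMod q).val ≠ q := by
    intro h
    have h3 := ZMod.val_coe_unit_coprime u
    have h4 : (u : ZMod q).val ∣ q := ⟨2, by rw [mul_comm]; exact h.symm⟩
    have h5 : (u : ZMod q).val = 1 := by
      have := Nat.Coprime.eq_one_of_dvd h3 h4
      exact this
    omega
  omega

lemma sum_pair4 {M : Type*} [AddCommMonoid M] (q : ℕ) [NeZero q] (hq : 2 < q)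
    (f : (ZMod q)ˣ → M) : ∑ u, f u = ∑ u ∈ RR q, (f u + f (-u)) := by
  classical
  rw [Finset.sum_add_distrib, ← Finset.sum_filter_add_sum_filter_not univ (fun u => u ∈ RR q)]
  congr 1
  · refine Finset.sum_congr ?_ fun u _ => rfl
    ext u
    simp
  · refine Finset.sum_bij' (fun u _ => -u) (fun u _ => -u) ?_ ?_ ?_ ?_ ?_
    · intro u hu
      rw [Finset.mem_filter] at hu
      exact (neg_mem_RR4 q hq u).2 hu.2
    · intro u hu
      rw [Finset.mem_filter]
      refine ⟨Finset.mem_univ _, ?_⟩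
      rw [neg_mem_RR4 q hq]
      exact not_not.2 hu
    · intro u _
      exact neg_neg u
    · intro u _
      exact neg_neg u
    · intro u _
      rw [neg_neg]

/-- sums over units as sums over residues -/
lemma sum_units {A : Type*} [AddCommMonoid A] (M : ℕ) [NeZero M] (g : ℕ → A) :
    ∑ u : (ZMod M)ˣ, g (u : ZMod M).val = ∑ a ∈ range M, if Nat.Coprime a M then g a else 0 := by
  classical
  rw [← Finset.sum_filter]
  refine Finset.sum_bij' (fun u _ => (u : ZMod M).val)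
    (fun a ha => ZMod.unitOfCoprime a (Finset.mem_filter.1 ha).2) ?_ ?_ ?_ ?_ ?_
  · intro u _
    rw [Finset.mem_filter, Finset.mem_range]
    exact ⟨ZMod.val_lt _, ZMod.val_coe_unit_coprime u⟩
  · intro a _
    exact Finset.mem_univ _
  · intro u _
    ext
    rw [ZMod.coe_unitOfCoprime, ZMod.natCast_zmod_val]
  · intro a ha
    rw [ZMod.coe_unitOfCoprime, ZMod.val_natCast, Nat.mod_eq_of_lt]
    exact Finset.mem_range.1 (Finset.mem_filter.1 ha).1
  · intro u _
    rfl

lemma cop_add {a M d : ℕ} (h : M ∣ d) : Nat.Coprime (d + a) M ↔ Nat.Coprime a M := by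
  obtain ⟨k, rfl⟩ := h
  rw [add_comm]
  exact Nat.coprime_add_mul_left_left a M k

/-- the sum with denominator `4q` -/
lemma sum_bv4 (hf : IsForm W N f) (q : ℕ) [NeZero q] [NeZero (2 * q)] [NeZero (4 * q)]
    (hodd : Odd q) (hN : Odd N) :
    ∑ u : (ZMod (4 * q))ˣ, bv f (((u : ZMod (4 * q)).val : ℚ) / ((4 * q : ℕ) : ℚ)) =
      co f 2 * ∑ u : (ZMod (2 * q))ˣ, bv f (((u : ZMod (2 * q)).val : ℚ) / ((2 * q : ℕ) : ℚ)) -
        ∑ u : (ZMod q)ˣ, bv f (((u : ZMod q).val : ℚ) / q) := by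
  obtain ⟨w, -, hfr⟩ := hf.fr
  have hq0 : (q : ℚ) ≠ 0 := Nat.cast_ne_zero.2 (NeZero.ne q)
  rw [sum_units (4 * q) (fun a => bv f ((a : ℚ) / ((4 * q : ℕ) : ℚ))),
    sum_units (2 * q) (fun a => bv f ((a : ℚ) / ((2 * q : ℕ) : ℚ))),
    sum_units q (fun a => bv f ((a : ℚ) / (q : ℚ)))]
  have hhecke : ∀ a : ℕ, co f 2 * bv f ((a : ℚ) / ((2 * q : ℕ) : ℚ)) =
      bv f ((a : ℚ) / q) + (bv f ((a : ℚ) / ((4 * q : ℕ) : ℚ)) +
        bv f (((2 * q + a : ℕ) : ℚ) / ((4 * q : ℕ) : ℚ))) := by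
    intro a
    have h1 := bv_hecke hf.hrel hfr Nat.prime_two (fun h => by
      obtain ⟨t, ht⟩ := hN
      omega) ((a : ℚ) / ((2 * q : ℕ) : ℚ))
    rw [Finset.sum_range_succ, Finset.sum_range_one] at h1
    rw [h1]
    push_cast
    have e1 : (2 : ℚ) * ((a : ℚ) / (2 * q)) = (a : ℚ) / q := by field_simp
    have e2 : ((a : ℚ) / (2 * q) + 0) / 2 = (a : ℚ) / (4 * q) := by field_simp; norm_num
    have e3 : ((a : ℚ) / (2 * q) + 1) / 2 = (2 * q + a : ℚ) / (4 * q) := by
      field_simp; ring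
    rw [e1, e2, e3]
  have hc4 : ∀ a : ℕ, Nat.Coprime a (4 * q) ↔ Nat.Coprime a (2 * q) := by
    intro a
    rw [Nat.coprime_mul_iff_right, Nat.coprime_mul_iff_right,
      show 4 = 2 ^ 2 by norm_num, Nat.coprime_pow_right_iff (by norm_num)]
  have e4 : 4 * q = 2 * q + 2 * q := by ring
  have hA : ∑ a ∈ range (4 * q), (if Nat.Coprime a (4 * q) then bv f ((a : ℚ) / ((4 * q : ℕ) : ℚ))
      else 0) = ∑ a ∈ range (2 * q), (if Nat.Coprime a (2 * q) then
        (bv f ((a : ℚ) / ((4 * q : ℕ) : ℚ)) + bv f (((2 * q + a : ℕ) : ℚ) / ((4 * q : ℕ) : ℚ)))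
        else 0) := by
    have h1 : range (4 * q) = range (2 * q + 2 * q) := by rw [e4]
    rw [h1, Finset.sum_range_add, ← Finset.sum_add_distrib]
    refine Finset.sum_congr rfl fun a _ => ?_
    simp only [hc4]
    have h2 : Nat.Coprime (2 * q + a) (2 * q) ↔ Nat.Coprime a (2 * q) := cop_add dvd_rfl
    by_cases h3 : Nat.Coprime a (2 * q)
    · rw [if_pos h3, if_pos (h2.2 h3), if_pos h3]
    · rw [if_neg h3, if_neg (fun h => h3 (h2.1 h)), if_neg h3, add_zero]
  have hB : ∑ a ∈ range (2 * q), (if Nat.Coprime a (2 * q) then bv f ((a : ℚ) / (q : ℚ)) else 0) =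
      ∑ a ∈ range q, (if Nat.Coprime a q then bv f ((a : ℚ) / (q : ℚ)) else 0) := by
    have h1 : range (2 * q) = range (q + q) := by rw [two_mul]
    rw [h1, Finset.sum_range_add, ← Finset.sum_add_distrib]
    refine Finset.sum_congr rfl fun a _ => ?_
    have h2 : Nat.Coprime a (2 * q) ↔ (Odd a ∧ Nat.Coprime a q) := by
      rw [Nat.coprime_mul_iff_right, Nat.coprime_two_right]
    have h3 : Nat.Coprime (q + a) (2 * q) ↔ (Even a ∧ Nat.Coprime a q) := by
      rw [Nat.coprime_mul_iff_right, Nat.coprime_two_right, cop_add (dvd_refl q)]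
      have : Odd (q + a) ↔ Even a := by
        rw [Nat.odd_add]
        exact ⟨fun h => h.1 hodd, fun h => ⟨fun _ => h, fun _ => hodd⟩⟩
      rw [this]
    have h4 : bv f (((q + a : ℕ) : ℚ) / q) = bv f ((a : ℚ) / q) := by
      have e : ((q + a : ℕ) : ℚ) / q = (a : ℚ) / q + 1 := by
        push_cast
        field_simp
        ring
      rw [e, bv_period]
    rw [h4]
    by_cases h5 : Nat.Coprime a q
    · rw [if_pos h5]
      rcases Nat.even_or_odd a with h6 | h6
      · rw [if_neg (fun h => by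
          have := (h2.1 h).1
          exact (Nat.not_odd_iff_even.2 h6) this), if_pos (h3.2 ⟨h6, h5⟩), zero_add]
      · rw [if_pos (h2.2 ⟨h6, h5⟩), if_neg (fun h => by
          have := (h3.1 h).1
          exact (Nat.not_even_iff_odd.2 h6) this), add_zero]
    · rw [if_neg h5, if_neg (fun h => h5 (h2.1 h).2), if_neg (fun h => h5 (h3.1 h).2), add_zero]
  rw [hA, ← hB, Finset.mul_sum, ← Finset.sum_sub_distrib]
  refine Finset.sum_congr rfl fun a _ => ?_
  by_cases h3 : Nat.Coprime a (2 * q)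
  · rw [if_pos h3, if_pos h3, if_pos h3, hhecke a]
    ring
  · rw [if_neg h3, if_neg h3, if_neg h3, mul_zero, sub_zero]

theorem Eodd4 (q : ℕ) [NeZero q] :
    Odd (∏ l ∈ q.primeFactors, (((l : ℤ) - pts W (ZMod l)) - 2)) ↔
      ∀ l : ℕ, l.Prime → l ∣ q → Odd ((l : ℤ) - pts W (ZMod l)) := by
  constructor
  · intro h l' hl' hlq'
    have hmem : l' ∈ q.primeFactors := Nat.mem_primeFactors.2 ⟨hl', hlq', NeZero.ne q⟩
    by_contra hcon
    rw [Int.not_odd_iff_even] at hcon
    have h12 : Even (∏ l ∈ q.primeFactors, (((l : ℤ) - pts W (ZMod l)) - 2)) := by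
      rw [even_iff_two_dvd]
      refine Dvd.dvd.trans ?_ (Finset.dvd_prod_of_mem _ hmem)
      exact (even_iff_two_dvd.1 (hcon.sub even_two))
    exact (Int.not_odd_iff_even.2 h12) h
  · intro hap
    refine Finset.prod_induction _ Odd (fun a b ha hb => ha.mul hb) odd_one fun l hl => ?_
    exact (hap l (Nat.prime_of_mem_primeFactors hl) (Nat.dvd_of_mem_primeFactors hl)).sub_even
      even_two

/-- the sum of the symbols, with the parity of the factor -/
theorem sum_bvG (hf : IsForm W N f) (ha2 : Even (((2 : ℕ) : ℤ) - pts W (ZMod 2))) (q : ℕ) [NeZero q]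
    (hq : Q4 q) (hco : Nat.Coprime q N) :
    ∃ E : ℤ, (Odd E ↔ ∀ l : ℕ, l.Prime → l ∣ q → l ≠ 2 → Odd ((l : ℤ) - pts W (ZMod l))) ∧
      ∑ u : (ZMod q)ˣ, bv f (((u : ZMod q).val : ℚ) / q) = (E : ℂ) * bv f 0 := by
  have hprod : ∀ m : ℕ, ∏ l ∈ m.primeFactors, (co f l - 2) =
      ((∏ l ∈ m.primeFactors, (((l : ℤ) - pts W (ZMod l)) - 2) : ℤ) : ℂ) := by
    intro m
    push_cast
    refine Finset.prod_congr rfl fun l hl => ?_
    rw [hf.coef l (Nat.prime_of_mem_primeFactors hl)]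
  obtain ⟨q', hodd, hsq, h | h⟩ := hq
  · subst h
    refine ⟨∏ l ∈ q.primeFactors, (((l : ℤ) - pts W (ZMod l)) - 2), ?_, ?_⟩
    · rw [Eodd4 q]
      constructor
      · intro h l hl hlq _
        exact h l hl hlq
      · intro h l hl hlq
        refine h l hl hlq ?_
        rintro rfl
        obtain ⟨t, ht⟩ := hodd
        omega
    · rw [sum_bv hf q hsq hco, hprod]
  · subst h
    have hq'0 : q' ≠ 0 := hsq.ne_zero
    haveI : NeZero q' := ⟨hq'0⟩
    haveI : NeZero (2 * q') := ⟨by omega⟩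
    have hco1 : Nat.Coprime q' N := Nat.Coprime.coprime_dvd_left (Dvd.intro_left 4 rfl) hco
    have hco2 : Nat.Coprime (2 * q') N :=
      Nat.Coprime.coprime_dvd_left ⟨2, by ring⟩ hco
    have hN : Odd N := by
      have : Nat.Coprime 2 N := Nat.Coprime.coprime_dvd_left ⟨2 * q', by ring⟩ hco
      exact Nat.coprime_two_left.1 this
    have hc2 : Nat.Coprime 2 q' := Nat.coprime_two_left.2 hodd
    have hsq2 : Squarefree (2 * q') := by
      rw [Nat.squarefree_mul hc2]
      exact ⟨Nat.prime_two.squarefree, hsq⟩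
    have h1 := sum_bv4 hf q' hodd hN
    rw [sum_bv hf q' hsq hco1, sum_bv hf (2 * q') hsq2 hco2, hprod, hprod] at h1
    have hpf : (2 * q').primeFactors = insert 2 q'.primeFactors := by
      rw [Nat.primeFactors_mul (by norm_num) hq'0, Nat.Prime.primeFactors Nat.prime_two]
      rfl
    have h2n : 2 ∉ q'.primeFactors := by
      intro h
      have := Nat.dvd_of_mem_primeFactors h
      obtain ⟨t, ht⟩ := hodd
      omega
    have hc2' : co f 2 = (((((2 : ℕ) : ℤ) - pts W (ZMod 2) : ℤ)) : ℂ) := by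
      rw [hf.coef 2 Nat.prime_two]
      push_cast
      rfl
    rw [hpf, Finset.prod_insert h2n, hc2'] at h1
    set E : ℤ := ∏ l ∈ q'.primeFactors, (((l : ℤ) - pts W (ZMod l)) - 2) with hE
    set a : ℤ := (((2 : ℕ) : ℤ) - pts W (ZMod 2)) with ha
    refine ⟨(a * (a - 2) - 1) * E, ?_, ?_⟩
    · have hodd1 : Odd (a * (a - 2) - 1) := (ha2.mul_right _).sub_odd odd_one
      rw [Int.odd_mul, hE, Eodd4 q']
      constructor
      · rintro ⟨-, h⟩ l hl hlq hl2
        refine h l hl ?_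
        rcases (Nat.Prime.dvd_mul hl).1 hlq with h3 | h3
        · exfalso
          have : l ∣ 2 ^ 2 := by norm_num; exact h3
          exact hl2 ((Nat.prime_dvd_prime_iff_eq hl Nat.prime_two).1 (hl.dvd_of_dvd_pow this))
        · exact h3
      · intro h
        refine ⟨hodd1, fun l hl hlq => h l hl (hlq.mul_left 4) ?_⟩
        rintro rfl
        obtain ⟨t, ht⟩ := hodd
        omega
    · rw [h1]
      push_cast
      ring

end Pool.Agent.K4H53.BSR
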